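import Mathlib

set_option autoImplicit false

/-! Counting integer points of a box with prescribed residues modulo several primes. -/

namespace Pool.Agent.H927R2.RD

lemma card_class_le (H M : ℕ) (hM : 0 < M) (s : Finset ℤ) (hs : ∀ x ∈ s, -(H : ℤ) ≤ x ∧ x ≤ H)
    (hd : ∀ x ∈ s, ∀ y ∈ s, (M : ℤ) ∣ x - y) : s.card ≤ 2 * H / M + 1 := by
  classical
  rcases s.eq_empty_or_nonempty with rfl | hne
  · simp
  obtain ⟨x0, hx0, hmin⟩ := s.exists_min_image id hne
  have h1 : s.card ≤ (Finset.range (2 * H / M + 1)).card := by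
    apply Finset.card_le_card_of_injOn (fun x => ((x - x0) / M).toNat)
    · intro x hx
      simp only [Finset.coe_range, Set.mem_Iio]
      have hx' : x ∈ s := hx
      have h2 := hmin x hx'
      simp only [id] at h2
      have h3 := hs x hx'
      have h4 := hs x0 hx0
      have h5 : (x - x0) / M ≤ (2 * H : ℤ) / M := by
        apply Int.ediv_le_ediv (by exact_mod_cast hM)
        linarith [h3.2, h4.1]
      have h6 : ((2 * H / M : ℕ) : ℤ) = (2 * H : ℤ) / M := by push_cast; rfl
      have h7 : 0 ≤ (x - x0) / M := Int.ediv_nonneg (by linarith) (by positivity)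
      omega
    · intro x hx y hy hxy
      have hx' : x ∈ s := hx
      have hy' : y ∈ s := hy
      have h2 := hmin x hx'
      have h3 := hmin y hy'
      simp only [id] at h2 h3
      have h7 : 0 ≤ (x - x0) / M := Int.ediv_nonneg (by linarith) (by positivity)
      have h8 : 0 ≤ (y - x0) / M := Int.ediv_nonneg (by linarith) (by positivity)
      simp only at hxy
      have h9 : (x - x0) / M = (y - x0) / M := by
        have := congrArg (fun n : ℕ => (n : ℤ)) hxy
        simp only [Int.toNat_of_nonneg h7, Int.toNat_of_nonneg h8] at this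
        exact this
      have h10 := Int.ediv_mul_cancel (hd x hx' x0 hx0)
      have h11 := Int.ediv_mul_cancel (hd y hy' x0 hx0)
      rw [h9] at h10
      linarith
  rwa [Finset.card_range] at h1

theorem box_count {ι : Type} [Fintype ι] (P : Finset ℕ) (hP : ∀ p ∈ P, p.Prime)
    (B : ∀ p : ℕ, Set (ι → ZMod p)) (H : ℕ) :
    (Nat.card {v : ι → ℤ // (∀ i, |v i| ≤ (H : ℤ)) ∧ ∀ p ∈ P, (fun i => (v i : ZMod p)) ∈ B p} : ℝ)
      ≤ (∏ p ∈ P, (Nat.card (B p) : ℝ) / (p : ℝ) ^ Fintype.card ι) *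
        ((2 * H + 1 : ℝ) + ∏ p ∈ P, (p : ℝ)) ^ Fintype.card ι := by
  classical
  set M : ℕ := ∏ p ∈ P, p with hMdef
  have hM : 0 < M := Finset.prod_pos fun p hp => (hP p hp).pos
  let s : Finset (ι → ℤ) := (Fintype.piFinset fun _ => Finset.Icc (-(H : ℤ)) H).filter
    fun v => ∀ p ∈ P, (fun i => (v i : ZMod p)) ∈ B p
  have hs : Nat.card {v : ι → ℤ // (∀ i, |v i| ≤ (H : ℤ)) ∧
      ∀ p ∈ P, (fun i => (v i : ZMod p)) ∈ B p} = s.card := by
    have h0 : Nat.card {v : ι → ℤ // (∀ i, |v i| ≤ (H : ℤ)) ∧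
        ∀ p ∈ P, (fun i => (v i : ZMod p)) ∈ B p} = Nat.card s := by
      apply Nat.card_congr
      apply Equiv.subtypeEquivRight
      intro v
      simp only [s, Finset.mem_filter, Fintype.mem_piFinset, Finset.mem_Icc, abs_le]
    rw [h0, Nat.card_eq_fintype_card, Fintype.card_coe]
  let f : (ι → ℤ) → ((p : P) → (ι → ZMod (p : ℕ))) := fun v p i => (v i : ZMod (p : ℕ))
  have h1 : s.card ≤ (2 * H / M + 1) ^ Fintype.card ι * (s.image f).card := by
    apply Finset.card_le_mul_card_image
    intro a _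
    have h2 : (s.filter fun v => f v = a) ⊆ Fintype.piFinset fun i =>
        (Finset.Icc (-(H : ℤ)) H).filter fun x => ∀ p : P, (x : ZMod (p : ℕ)) = a p i := by
      intro v hv
      rw [Finset.mem_filter, Finset.mem_filter, Fintype.mem_piFinset] at hv
      rw [Fintype.mem_piFinset]
      intro i
      rw [Finset.mem_filter]
      exact ⟨hv.1.1 i, fun p => by rw [← hv.2]⟩
    refine (Finset.card_le_card h2).trans ?_
    rw [Fintype.card_piFinset]
    refine (Finset.prod_le_prod' fun i _ => card_class_le H M hM _ ?_ ?_).trans ?_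
    · intro x hx
      rw [Finset.mem_filter, Finset.mem_Icc] at hx
      exact hx.1
    · intro x hx y hy
      rw [Finset.mem_filter] at hx hy
      have h3 : ∀ p ∈ P, ((p : ℕ) : ℤ) ∣ x - y := by
        intro p hp
        have e1 := hx.2 ⟨p, hp⟩
        have e2 := hy.2 ⟨p, hp⟩
        have e3 : ((x - y : ℤ) : ZMod p) = 0 := by
          push_cast
          rw [sub_eq_zero]
          exact e1.trans e2.symm
        exact (ZMod.intCast_zmod_eq_zero_iff_dvd _ p).1 e3
      have h4 : M ∣ (x - y).natAbs := by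
        apply Finset.prod_primes_dvd
        · intro p hp
          exact Nat.prime_iff.1 (hP p hp)
        · intro p hp
          exact Int.natCast_dvd.1 (h3 p hp)
      exact Int.natCast_dvd.2 h4
    · simp
  have h2 : (s.image f).card ≤ ∏ p ∈ P, Nat.card (B p) := by
    have hfin : ∀ p : P, Finite (B (p : ℕ)) := by
      intro p
      have : Fact (p : ℕ).Prime := ⟨hP p p.2⟩
      infer_instance
    rw [← Finset.prod_coe_sort, ← Nat.card_pi, ← Fintype.card_coe, ← Nat.card_eq_fintype_card]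
    apply Nat.card_le_card_of_injective
      (fun (a : s.image f) (p : P) => (⟨(a : (p : P) → (ι → ZMod (p : ℕ))) p, by
        obtain ⟨v, hv, hva⟩ := Finset.mem_image.1 a.2
        rw [← hva]
        rw [Finset.mem_filter] at hv
        exact hv.2 p p.2⟩ : B (p : ℕ)))
    intro a b hab
    apply Subtype.ext
    funext p
    exact congrArg Subtype.val (congrFun hab p)
  have h3 : (s.card : ℝ) ≤ ((2 * H / M + 1 : ℕ) : ℝ) ^ Fintype.card ι *
      ∏ p ∈ P, (Nat.card (B p) : ℝ) := by
    have h4 : (s.card : ℝ) ≤ (((2 * H / M + 1) ^ Fintype.card ι * (s.image f).card : ℕ) : ℝ) := by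
      exact_mod_cast h1
    refine h4.trans ?_
    push_cast
    apply mul_le_mul_of_nonneg_left _ (by positivity)
    exact_mod_cast h2
  rw [hs]
  refine h3.trans ?_
  have hMr : (0 : ℝ) < M := by exact_mod_cast hM
  have h4 : ((2 * H / M + 1 : ℕ) : ℝ) ≤ (2 * H + 1 + M) / M := by
    push_cast
    rw [add_div, div_self hMr.ne']
    have h5 : ((2 * H / M : ℕ) : ℝ) ≤ ((2 * H : ℕ) : ℝ) / M := Nat.cast_div_le
    have h6 : ((2 * H : ℕ) : ℝ) / M ≤ (2 * H + 1) / M := by
      gcongr
      push_cast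
      linarith
    linarith [h5.trans h6]
  have h5 : ((2 * H / M + 1 : ℕ) : ℝ) ^ Fintype.card ι ≤
      ((2 * H + 1 + M) / M : ℝ) ^ Fintype.card ι := pow_le_pow_left₀ (by positivity) h4 _
  have h6 : (∏ p ∈ P, (p : ℝ)) = M := by rw [hMdef]; push_cast; rfl
  rw [Finset.prod_div_distrib, Finset.prod_pow, h6, div_pow] at *
  have h7 : 0 ≤ ∏ p ∈ P, (Nat.card (B p) : ℝ) := Finset.prod_nonneg fun _ _ => Nat.cast_nonneg _
  calc _ ≤ ((2 * H + 1 + M : ℝ) ^ Fintype.card ι / (M : ℝ) ^ Fintype.card ι) *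
        ∏ p ∈ P, (Nat.card (B p) : ℝ) := mul_le_mul_of_nonneg_right h5 h7
    _ = _ := by ring

end Pool.Agent.H927R2.RD
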