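import Pool.Agent.H936R2.Crit2

set_option autoImplicit false

/-! Dynamical Mordell-Lang along one orbit, for integral systems of forms. -/

namespace Pool.Agent.H927R2.RD

open MvPolynomial Pool.Agent.H936R2

/-- The self-map of `ℂ^(N+1)` given by the integral forms `F`. -/
noncomputable def cmap {N : ℕ} (F : Fin (N + 1) → MvPolynomial (Fin (N + 1)) ℤ)
    (x : Fin (N + 1) → ℂ) : Fin (N + 1) → ℂ :=
  fun i => eval x (map (Int.castRingHom ℂ) (F i))

/-- The Dynamical Mordell-Lang property of the orbit of `[α]`: for every closed `V ⊆ ℙ^N` the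
return set is a finite union of arithmetic progressions. -/
def DMLAt {N : ℕ} (F : Fin (N + 1) → MvPolynomial (Fin (N + 1)) ℤ) (α : Fin (N + 1) → ℂ) : Prop :=
  ∀ S : Set (MvPolynomial (Fin (N + 1)) ℂ), (∀ g ∈ S, ∃ e : ℕ, g.IsHomogeneous e) →
    ∃ T : Finset (ℕ × ℕ), {n : ℕ | ∀ g ∈ S, eval ((cmap F)^[n] α) g = 0}
      = {n : ℕ | ∃ q ∈ T, ∃ m : ℕ, n = q.1 * m + q.2}

/-- The forms over a ring. -/
noncomputable def overR (R : Type) [CommRing R] {ι : Type} (F : ι → MvPolynomial ι ℤ) :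
    ι → MvPolynomial ι R := fun i => map (Int.castRingHom R) (F i)

lemma overR_map {R R' : Type} [CommRing R] [CommRing R'] {ι : Type} (φ : R →+* R')
    (F : ι → MvPolynomial ι ℤ) : (fun i => map φ (overR R F i)) = overR R' F := by
  funext i
  simp only [overR]
  rw [map_map]
  have h : φ.comp (Int.castRingHom R) = Int.castRingHom R' := RingHom.ext_int _ _
  rw [h]

theorem dml_core {p : ℕ} [hp : Fact p.Prime] {N d : ℕ}
    (F : Fin (N + 1) → MvPolynomial (Fin (N + 1)) ℤ) (hF : ∀ i, (F i).IsHomogeneous d)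
    (α : Fin (N + 1) → ℂ) (τ : ℂ →+* PadicAlgCl p)
    (c : PadicAlgCl p) (hc : c ≠ 0) (b : Fin (N + 1) → unitBall (PadicAlgCl p))
    (hb : ∀ i, (b i : PadicAlgCl p) = c * τ (α i)) (M : ℕ)
    (hdet : ∀ n, M ≤ n → IsUnit (jac (overR (unitBall (PadicAlgCl p)) F)
      ((pt (overR (unitBall (PadicAlgCl p)) F))^[n] b)).det) :
    DMLAt F α := by
  intro S hS
  set FO := overR (unitBall (PadicAlgCl p)) F with hFO
  have hFK : (fun i => map (unitBall (PadicAlgCl p)).subtype (FO i)) = overR (PadicAlgCl p) F :=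
    overR_map _ F
  have hFhomK : ∀ i, (overR (PadicAlgCl p) F i).IsHomogeneous d := fun i => (hF i).map _
  have hit : ∀ n, (fun i => (((pt FO)^[n] b i : unitBall (PadicAlgCl p)) : PadicAlgCl p)) =
      fun i => c ^ d ^ n * τ ((cmap F)^[n] α i) := by
    intro n
    have e1 := pt_map (unitBall (PadicAlgCl p)).subtype FO b n
    have e2 := pt_map τ (overR ℂ F) α n
    have e3 := iterate_scale (overR (PadicAlgCl p) F) d hFhomK c (fun i => τ (α i)) n
    have e4 : (fun i => (unitBall (PadicAlgCl p)).subtype (b i)) = fun i => c * τ (α i) :=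
      _root_.funext hb
    rw [hFK, e4, e3] at e1
    rw [overR_map τ F] at e2
    rw [e2] at e1
    exact e1.symm
  obtain ⟨n0, k, hk, hret⟩ := return_set p FO b M hdet
  apply exists_progressions _ n0 k hk
  intro r hinf t
  have hiff : ∀ n, (∀ g ∈ S, eval ((cmap F)^[n] α) g = 0) ↔
      ∀ P ∈ (fun g => map τ g) '' S, eval (fun i => (((pt FO)^[n] b i : unitBall (PadicAlgCl p)) : PadicAlgCl p)) P = 0 := by
    intro n
    have hval : ∀ g ∈ S, (eval (fun i => (((pt FO)^[n] b i : unitBall (PadicAlgCl p)) : PadicAlgCl p)) (map τ g) = 0 ↔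
        eval ((cmap F)^[n] α) g = 0) := by
      intro g hg
      obtain ⟨e, he⟩ := hS g hg
      rw [hit n, eval_scale _ e (he.map τ)]
      have e1 : eval (fun i => τ ((cmap F)^[n] α i)) (map τ g) = τ (eval ((cmap F)^[n] α) g) := by
        rw [eval_map]
        have h := eval₂_comp_left τ (RingHom.id _) ((cmap F)^[n] α) g
        rw [RingHom.comp_id] at h
        exact h.symm
      rw [e1, mul_eq_zero, map_eq_zero]
      constructor
      · rintro (h | h)
        · exact absurd h (pow_ne_zero _ (pow_ne_zero _ hc))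
        · exact h
      · exact Or.inr
    constructor
    · rintro h P ⟨g, hg, rfl⟩
      exact (hval g hg).2 (h g hg)
    · intro h g hg
      exact (hval g hg).1 (h _ ⟨g, hg, rfl⟩)
  simp only [Set.mem_ofPred_eq, hiff] at hinf ⊢
  exact hret _ r hinf t

/-- Iterates of a self-map of a finite set are eventually periodic. -/
lemma eventually_periodic {X : Type} [Finite X] (f : X → X) (x : X) :
    ∃ M m : ℕ, 0 < m ∧ ∀ n, M ≤ n → f^[m] (f^[n] x) = f^[n] x := by
  obtain ⟨i, j, hij, h⟩ := Finite.exists_ne_map_eq_of_infinite fun n : ℕ => f^[n] x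
  wlog hlt : i < j generalizing i j
  · exact this j i hij.symm h.symm (lt_of_le_of_ne (not_lt.1 hlt) hij.symm)
  refine ⟨i, j - i, by omega, fun n hn => ?_⟩
  obtain ⟨l, rfl⟩ := Nat.exists_eq_add_of_le hn
  rw [← Function.iterate_add_apply, Nat.add_comm i l, ← Nat.add_assoc, Nat.add_comm (j - i) l,
    Nat.add_assoc, Nat.sub_add_cancel hlt.le, Function.iterate_add_apply,
    Function.iterate_add_apply _ l i, h]

/-- The criterion modulo `p` for points with coordinates in `ℚ_p`. -/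
theorem dml_of_mod {p : ℕ} [hp : Fact p.Prime] {N d : ℕ}
    (F : Fin (N + 1) → MvPolynomial (Fin (N + 1)) ℤ) (hF : ∀ i, (F i).IsHomogeneous d)
    (h1 : ∀ x : Fin (N + 1) → ZMod p, (∀ i, eval x (overR (ZMod p) F i) = 0) → x = 0)
    (h2 : ∀ x : Fin (N + 1) → ZMod p, x ≠ 0 → ∀ m : ℕ, 0 < m →
      (pt (overR (ZMod p) F))^[m] x = x → (jac (overR (ZMod p) F) x).det ≠ 0)
    (α : Fin (N + 1) → ℂ) (hα : α ≠ 0) (τ : ℂ →+* PadicAlgCl p)
    (hτ : ∀ i, ∃ y : ℚ_[p], τ (α i) = algebraMap ℚ_[p] (PadicAlgCl p) y) :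
    DMLAt F α := by
  choose y hy using hτ
  have hy0 : y ≠ 0 := by
    intro h
    apply hα
    funext i
    have h3 := hy i
    rw [h, Pi.zero_apply, map_zero] at h3
    exact (map_eq_zero τ).1 h3
  obtain ⟨c, b', hc, hb', hres⟩ := exists_primitive (K := ℚ_[p]) y hy0
  -- the primitive vector over `ℤ_p`
  let z : Fin (N + 1) → ℤ_[p] := fun i => ⟨(b' i : ℚ_[p]), b' i |>.2⟩
  have hnorm : ∀ x : ℚ_[p], ‖algebraMap ℚ_[p] (PadicAlgCl p) x‖ = ‖x‖ := fun x => by
    simp
  let ψ : ℤ_[p] →+* unitBall (PadicAlgCl p) :=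
    ((algebraMap ℚ_[p] (PadicAlgCl p)).comp (algebraMap ℤ_[p] ℚ_[p])).codRestrict _ (by
      intro x
      change ‖algebraMap ℚ_[p] (PadicAlgCl p) (x : ℚ_[p])‖ ≤ 1
      rw [hnorm]
      exact x.2)
  have hψ : ∀ x : ℤ_[p], ((ψ x : unitBall (PadicAlgCl p)) : PadicAlgCl p) =
      algebraMap ℚ_[p] (PadicAlgCl p) (x : ℚ_[p]) := fun x => rfl
  -- the reduction
  let w : Fin (N + 1) → ZMod p := fun i => PadicInt.toZMod (z i)
  have hw : w ≠ 0 := by
    intro h
    apply hres
    funext i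
    simp only [Pi.zero_apply]
    rw [res_eq_zero_iff]
    have h3 : PadicInt.toZMod (z i) = 0 := congrFun h i
    have h4 : z i ∈ RingHom.ker (PadicInt.toZMod : ℤ_[p] →+* ZMod p) := h3
    rw [PadicInt.ker_toZMod, PadicInt.maximalIdeal_eq_span_p, Ideal.mem_span_singleton] at h4
    have h5 := (PadicInt.norm_lt_one_iff_dvd (z i)).2 h4
    exact h5
  obtain ⟨M, m, hm, hper⟩ := eventually_periodic (pt (overR (ZMod p) F)) w
  have hne : ∀ n, (pt (overR (ZMod p) F))^[n] w ≠ 0 := fun n => pt_ne_zero _ h1 w hw n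
  apply dml_core F hF α τ (algebraMap ℚ_[p] (PadicAlgCl p) c)
    (by simpa using hc) (fun i => ψ (z i)) (by
      intro i
      rw [hψ, hy i, ← map_mul]
      congr 1
      exact hb' i) M
  intro n hn
  have e1 := pt_map ψ (overR ℤ_[p] F) z n
  rw [overR_map] at e1
  rw [e1]
  have e2 := jac_map ψ (overR ℤ_[p] F) ((pt (overR ℤ_[p] F))^[n] z)
  rw [overR_map] at e2
  rw [e2, ← RingHom.map_det]
  apply IsUnit.map
  have e3 := pt_map (PadicInt.toZMod : ℤ_[p] →+* ZMod p) (overR ℤ_[p] F) z n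
  rw [overR_map] at e3
  have e4 := jac_map (PadicInt.toZMod : ℤ_[p] →+* ZMod p) (overR ℤ_[p] F)
    ((pt (overR ℤ_[p] F))^[n] z)
  rw [overR_map, ← e3] at e4
  have h6 := h2 _ (hne n) m hm (hper n hn)
  rw [e4, ← RingHom.map_det] at h6
  by_contra hnu
  apply h6
  have h7 : (jac (overR ℤ_[p] F) ((pt (overR ℤ_[p] F))^[n] z)).det ∈
      IsLocalRing.maximalIdeal ℤ_[p] := by
    rw [IsLocalRing.mem_maximalIdeal]
    exact hnu
  rw [← PadicInt.ker_toZMod] at h7
  exact h7

end Pool.Agent.H927R2.RD
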