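import Pool.Agent.H927R2.RD.Defs
import Pool.Agent.H927R2.RD.Core

set_option autoImplicit false

/-! Coefficient vectors of forms and boxes. -/

namespace Pool.Agent.H927R2.RD

open MvPolynomial Pool.Agent.H936R2

variable {n d : ℕ}

lemma expo_apply (κ : Mono n d) (i : Fin n) : expo κ i = (κ.1 i : ℕ) := rfl

lemma expo_injective : Function.Injective (expo : Mono n d → (Fin n →₀ ℕ)) := by
  intro κ κ' h
  apply Subtype.ext
  funext i
  apply Fin.ext
  have := DFunLike.congr_fun h i
  simpa [expo_apply] using this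

lemma degree_expo (κ : Mono n d) : (expo κ).degree = d := by
  rw [Finsupp.degree_eq_sum]
  simp only [expo_apply]
  exact κ.2

lemma exists_expo (μ : Fin n →₀ ℕ) (h : μ.degree = d) : ∃ κ : Mono n d, expo κ = μ := by
  rw [Finsupp.degree_eq_sum] at h
  have hle : ∀ i, μ i < d + 1 := by
    intro i
    have := Finset.single_le_sum (f := fun i => μ i) (fun _ _ => Nat.zero_le _) (Finset.mem_univ i)
    omega
  refine ⟨⟨fun i => ⟨μ i, hle i⟩, ?_⟩, ?_⟩
  · simpa using h
  · ext i
    rfl

variable {R : Type} [CommRing R]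

lemma coeff_form (c : Mono n d → R) (κ : Mono n d) : coeff (expo κ) (form c) = c κ := by
  classical
  rw [form, coeff_sum, Finset.sum_eq_single κ]
  · rw [coeff_monomial, if_pos rfl]
  · intro κ' _ hne
    rw [coeff_monomial, if_neg]
    intro h
    exact hne (expo_injective h)
  · intro h
    exact absurd (Finset.mem_univ _) h

lemma coeff_form_of_ne (c : Mono n d → R) (μ : Fin n →₀ ℕ) (h : μ.degree ≠ d) :
    coeff μ (form c) = 0 := by
  classical
  rw [form, coeff_sum]
  apply Finset.sum_eq_zero
  intro κ _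
  rw [coeff_monomial, if_neg]
  rintro rfl
  exact h (degree_expo κ)

lemma form_isHomogeneous (c : Mono n d → R) : (form c).IsHomogeneous d := by
  apply IsHomogeneous.sum
  intro κ _
  apply isHomogeneous_monomial
  exact degree_expo κ

lemma sys_isHomogeneous (c : Fin n → Mono n d → R) (i : Fin n) : (sys c i).IsHomogeneous d :=
  form_isHomogeneous _

lemma degree_of_coeff {G : MvPolynomial (Fin n) R} (hG : G.IsHomogeneous d) {μ : Fin n →₀ ℕ}
    (h : coeff μ G ≠ 0) : μ.degree = d := by
  have := hG h
  rw [Finsupp.degree_eq_weight_one]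
  exact this

lemma form_coeff {G : MvPolynomial (Fin n) R} (hG : G.IsHomogeneous d) :
    form (fun κ : Mono n d => coeff (expo κ) G) = G := by
  apply MvPolynomial.ext
  intro μ
  by_cases h : μ.degree = d
  · obtain ⟨κ, rfl⟩ := exists_expo μ h
    rw [coeff_form]
  · rw [coeff_form_of_ne _ _ h]
    by_contra hne
    exact h (degree_of_coeff hG fun h0 => hne h0.symm)

lemma map_form {R' : Type} [CommRing R'] (φ : R →+* R') (c : Mono n d → R) :
    map φ (form c) = form (fun κ => φ (c κ)) := by
  rw [form, map_sum, form]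
  apply Finset.sum_congr rfl
  intro κ _
  rw [map_monomial]

lemma overR_sys (c : Fin n → Mono n d → ℤ) :
    overR R (sys c) = sys (fun i κ => (c i κ : R)) := by
  funext i
  simp only [overR, sys]
  rw [map_form]
  rfl

lemma eval_form (c : Mono n d → R) (x : Fin n → R) :
    eval x (form c) = ∑ κ, c κ * ∏ j, x j ^ (κ.1 j : ℕ) := by
  rw [form, map_sum]
  apply Finset.sum_congr rfl
  intro κ _
  rw [eval_monomial]
  congr 1
  rw [Finsupp.prod_fintype]
  · rfl
  · intro i
    exact pow_zero _

/-- Systems of integral forms of degree `d` with coefficients at most `H`. -/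
def Box (n d H : ℕ) : Set (Fin n → MvPolynomial (Fin n) ℤ) :=
  {F | ∀ i, (F i).IsHomogeneous d ∧ ∀ μ, |coeff μ (F i)| ≤ (H : ℤ)}

/-- Coefficient vectors of systems of forms. -/
abbrev Idx (n d : ℕ) : Type := Fin n × Mono n d

/-- The equivalence between boxes of coefficient vectors and boxes of forms. -/
noncomputable def boxEquiv (n d H : ℕ) (P : (Fin n → MvPolynomial (Fin n) ℤ) → Prop) :
    {v : Idx n d → ℤ // (∀ i, |v i| ≤ (H : ℤ)) ∧ P (sys fun i κ => v (i, κ))} ≃
      ({F | F ∈ Box n d H ∧ P F} : Set (Fin n → MvPolynomial (Fin n) ℤ)) where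
  toFun v := ⟨sys fun i κ => v.1 (i, κ), fun i => ⟨form_isHomogeneous _, fun μ => by
      by_cases h : μ.degree = d
      · obtain ⟨κ, rfl⟩ := exists_expo μ h
        simp only [sys]
        rw [coeff_form]
        exact v.2.1 _
      · simp only [sys]
        rw [coeff_form_of_ne _ _ h, abs_zero]
        positivity⟩, v.2.2⟩
  invFun F := ⟨fun q => coeff (expo q.2) (F.1 q.1), fun q => (F.2.1 q.1).2 _, by
      have h : (sys fun i (κ : Mono n d) => coeff (expo κ) (F.1 i)) = F.1 := by
        funext i
        exact form_coeff (F.2.1 i).1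
      simp only [h]
      exact F.2.2⟩
  left_inv v := by
    apply Subtype.ext
    funext q
    exact coeff_form _ _
  right_inv F := by
    apply Subtype.ext
    funext i
    exact form_coeff (F.2.1 i).1

lemma ncard_box_filter (n d H : ℕ) (P : (Fin n → MvPolynomial (Fin n) ℤ) → Prop) :
    ({F | F ∈ Box n d H ∧ P F} : Set (Fin n → MvPolynomial (Fin n) ℤ)).ncard =
      Nat.card {v : Idx n d → ℤ // (∀ i, |v i| ≤ (H : ℤ)) ∧ P (sys fun i κ => v (i, κ))} := by
  rw [← Nat.card_coe_set_eq]
  exact (Nat.card_congr (boxEquiv n d H P)).symm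

lemma card_box_vectors (ι : Type) [Fintype ι] (H : ℕ) :
    Nat.card {v : ι → ℤ // ∀ i, |v i| ≤ (H : ℤ)} = (2 * H + 1) ^ Fintype.card ι := by
  classical
  have h0 : Nat.card {v : ι → ℤ // ∀ i, |v i| ≤ (H : ℤ)} =
      Nat.card (Fintype.piFinset fun _ : ι => Finset.Icc (-(H : ℤ)) H) := by
    apply Nat.card_congr
    apply Equiv.subtypeEquivRight
    intro v
    simp only [Fintype.mem_piFinset, Finset.mem_Icc, abs_le]
  rw [h0, Nat.card_eq_fintype_card, Fintype.card_coe, Fintype.card_piFinset]
  simp only [Int.card_Icc, Finset.prod_const, Finset.card_univ]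
  congr 1
  omega

lemma ncard_box (n d H : ℕ) :
    (Box n d H).ncard = (2 * H + 1) ^ Fintype.card (Idx n d) := by
  have h := ncard_box_filter n d H fun _ => True
  simp only [and_true] at h
  have h2 : ({F | F ∈ Box n d H} : Set (Fin n → MvPolynomial (Fin n) ℤ)) = Box n d H := rfl
  rw [h2] at h
  rw [h, card_box_vectors]

end Pool.Agent.H927R2.RD
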