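import Mathlib
import Pool.Agent.H936R2.Poly

set_option autoImplicit false

/-!
Random endomorphisms of projective space and Dynamical Mordell-Lang: definitions.
`pt F x` (value of a polynomial map) and `jac F x` (its Jacobian matrix) are from
`Pool.Agent.H936R2.Poly`.
-/

namespace Pool.Agent.H927R2.RD

open MvPolynomial Pool.Agent.H936R2

open scoped LinearAlgebra.Projectivization

/-- Exponent vectors of total degree `d` in `n` variables. -/
abbrev Mono (n d : ℕ) : Type := {κ : Fin n → Fin (d + 1) // ∑ i, (κ i : ℕ) = d}

/-- The exponent vector as a finitely supported function. -/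
noncomputable def expo {n d : ℕ} (κ : Mono n d) : Fin n →₀ ℕ :=
  Finsupp.equivFunOnFinite.symm fun i => (κ.1 i : ℕ)

/-- The form of degree `d` with coefficient vector `c`. -/
noncomputable def form {R : Type} [CommRing R] {n d : ℕ} (c : Mono n d → R) :
    MvPolynomial (Fin n) R :=
  ∑ κ, monomial (expo κ) (c κ)

/-- The system of `n` forms of degree `d` in `n` variables with coefficients `c`. -/
noncomputable def sys {R : Type} [CommRing R] {n d : ℕ} (c : Fin n → Mono n d → R) :
    Fin n → MvPolynomial (Fin n) R :=
  fun i => form (c i)

/-- The points of projective space over `F_p`. -/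
abbrev PP (p n : ℕ) [Fact p.Prime] : Type := ℙ (ZMod p) (Fin n → ZMod p)

/-- Tables of matrices, one for every point. -/
abbrev Tab (p n : ℕ) [Fact p.Prime] : Type := PP p n → Matrix (Fin n) (Fin n) (ZMod p)

/-- The table of Jacobian matrices of a system of forms. -/
noncomputable def tab {p n d : ℕ} [Fact p.Prime] (c : Fin n → Mono n d → ZMod p) : Tab p n :=
  fun x => jac (sys c) x.rep

/-- A table is good if no matrix kills its point and the periodic points of the induced self-map
`x ↦ [A_x x]` have invertible matrices. -/
def GoodTab {p n : ℕ} [Fact p.Prime] (A : Tab p n) : Prop :=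
  ∃ h : ∀ x : PP p n, (A x).mulVec x.rep ≠ 0,
    ∀ x ∈ Function.periodicPts fun x : PP p n => Projectivization.mk (ZMod p) _ (h x),
      (A x).det ≠ 0

/-- Number of periodic points of a self-map. -/
noncomputable def nper {X : Type} (φ : X → X) : ℕ := (Function.periodicPts φ).ncard

/-- The conditional probability of an invertible matrix. -/
noncomputable def rr (p n : ℕ) : ℝ := ∏ j ∈ Finset.range (n - 1), (1 - 1 / (p : ℝ) ^ (j + 1))

end Pool.Agent.H927R2.RD
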