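import Mathlib
import Pool.Agent.H927R2.RD.Defs

set_option autoImplicit false

/-! Further definitions: walks of tables, primes of degree one. -/

namespace Pool.Agent.H927R2.RD

open MvPolynomial Pool.Agent.H936R2

open scoped LinearAlgebra.Projectivization

/-- The walk of the table from the point `x` is defined for ever and has finally invertible
matrices. -/
def GoodAt {p n : ℕ} [Fact p.Prime] (A : Tab p n) (x : PP p n) : Prop :=
  ∃ y : ℕ → PP p n, y 0 = x ∧
    (∀ i, ∃ h : (A (y i)).mulVec (y i).rep ≠ 0, y (i + 1) = Projectivization.mk (ZMod p) _ h) ∧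
    ∃ M, ∀ i, M ≤ i → (A (y i)).det ≠ 0

/-- `p` is the norm of a prime ideal of degree one of `K`. -/
def DegOne (K : Type) [Field K] [NumberField K] (p : ℕ) : Prop :=
  p.Prime ∧ ∃ I : Ideal (NumberField.RingOfIntegers K), Ideal.absNorm I = p

/-- The integral polynomials as elements of the field generated by `t`. -/
noncomputable def toAdj {r : ℕ} (t : Fin r → ℂ) :
    MvPolynomial (Fin r) ℤ →+* IntermediateField.adjoin ℚ (Set.range t) :=
  MvPolynomial.eval₂Hom (Int.castRingHom _)
    (fun i => ⟨t i, IntermediateField.subset_adjoin ℚ _ ⟨i, rfl⟩⟩)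

end Pool.Agent.H927R2.RD
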