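import Pool.Agent.H927R2.RD.Defs

set_option autoImplicit false

/-! T3b: a good Jacobian table gives the two conditions modulo `p` -/

namespace Pool.Agent.H927R2.RD

open MvPolynomial Pool.Agent.H936R2

open scoped LinearAlgebra.Projectivization

theorem T3b_hom {R : Type} [CommRing R] {n d : ℕ} (c : Mono n d → R) :
    (form c).IsHomogeneous d := by
  unfold form
  refine IsHomogeneous.sum _ _ _ fun κ _ => ?_
  apply isHomogeneous_monomial
  rw [Finsupp.degree_eq_sum]
  exact κ.2

theorem T3b_eval_smul {R : Type} [CommRing R] {n d : ℕ} {G : MvPolynomial (Fin n) R}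
    (hG : G.IsHomogeneous d) (t : R) (x : Fin n → R) :
    eval (t • x) G = t ^ d * eval x G := by
  rw [eval_eq', eval_eq', Finset.mul_sum]
  apply Finset.sum_congr rfl
  intro m hm
  have hdeg : ∑ i, m i = d := by
    rw [← Finsupp.degree_eq_sum]
    by_contra hne
    exact (mem_support_iff.1 hm) (hG.coeff_eq_zero hne)
  have h1 : ∏ i, (t • x) i ^ m i = t ^ d * ∏ i, x i ^ m i := by
    simp only [Pi.smul_apply, smul_eq_mul, mul_pow]
    rw [Finset.prod_mul_distrib, Finset.prod_pow_eq_pow_sum, hdeg]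
  rw [h1]
  ring

theorem T3b_euler {R : Type} [CommRing R] {n d : ℕ} {G : MvPolynomial (Fin n) R}
    (hG : G.IsHomogeneous d) (x : Fin n → R) :
    ∑ j, eval x (pderiv j G) * x j = d * eval x G := by
  have h := congrArg (eval x) hG.sum_X_mul_pderiv
  rw [map_sum, map_nsmul, nsmul_eq_mul] at h
  rw [← h]
  exact Finset.sum_congr rfl fun j _ => by rw [map_mul, eval_X, mul_comm]

theorem T3b_jac_mulVec {R : Type} [CommRing R] {n d : ℕ} (c : Fin n → Mono n d → R)
    (x : Fin n → R) : (jac (sys c) x).mulVec x = (d : R) • pt (sys c) x := by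
  funext i
  exact T3b_euler (T3b_hom (c i)) x

theorem T3b_jac_smul {R : Type} [CommRing R] {n d : ℕ} (c : Fin n → Mono n d → R)
    (t : R) (x : Fin n → R) : jac (sys c) (t • x) = t ^ (d - 1) • jac (sys c) x := by
  ext i j
  exact T3b_eval_smul (T3b_hom (c i)).pderiv t x

theorem T3b_pt_smul {R : Type} [CommRing R] {n d : ℕ} (c : Fin n → Mono n d → R)
    (t : R) (x : Fin n → R) : pt (sys c) (t • x) = t ^ d • pt (sys c) x := by
  funext i
  exact T3b_eval_smul (T3b_hom (c i)) t x

theorem T3b_mk_congr {p n : ℕ} [Fact p.Prime] {v w : Fin n → ZMod p} (h : v = w) (hv : v ≠ 0)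
    (hw : w ≠ 0) : Projectivization.mk (ZMod p) v hv = Projectivization.mk (ZMod p) w hw := by
  subst h
  rfl

/-- T3b (a good Jacobian table gives the two conditions modulo `p`). -/
theorem good_tab_conditions {p : ℕ} [Fact p.Prime] (n d : ℕ) (hpd : ¬ p ∣ d)
    (c : Fin n → Mono n d → ZMod p) (h : GoodTab (tab c)) :
    (∀ x : Fin n → ZMod p, (∀ i, eval x (sys c i) = 0) → x = 0) ∧
    ∀ x : Fin n → ZMod p, x ≠ 0 → ∀ m : ℕ, 0 < m → (pt (sys c))^[m] x = x →
      (jac (sys c) x).det ≠ 0 := by
  obtain ⟨hh, hper⟩ := h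
  have hd0 : (d : ZMod p) ≠ 0 := by
    intro h0
    exact hpd ((ZMod.natCast_eq_zero_iff d p).1 h0)
  have key : ∀ x : Fin n → ZMod p, x ≠ 0 → pt (sys c) x ≠ 0 := by
    intro x hx h0
    obtain ⟨a, ha⟩ := Projectivization.exists_smul_eq_mk_rep (ZMod p) x hx
    apply hh (Projectivization.mk (ZMod p) x hx)
    unfold tab
    rw [T3b_jac_mulVec, ← ha]
    have h1 : pt (sys c) (a • x) = ((a : ZMod p)) ^ d • pt (sys c) x := T3b_pt_smul c (a : ZMod p) x
    rw [h1, h0, smul_zero, smul_zero]
  refine ⟨fun x hx => ?_, fun x hx m hm hmx => ?_⟩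
  · by_contra hne
    apply key x hne
    funext i
    rw [Pi.zero_apply]
    exact hx i
  · obtain ⟨φ, hφ⟩ : ∃ φ : PP p n → PP p n, ∀ y, φ y =
        Projectivization.mk (ZMod p) ((tab c y).mulVec y.rep) (hh y) := ⟨_, fun _ => rfl⟩
    have hφeq : (fun x : PP p n => Projectivization.mk (ZMod p) _ (hh x)) = φ :=
      funext fun y => (hφ y).symm
    rw [hφeq] at hper
    have hstep : ∀ (x : Fin n → ZMod p) (hx : x ≠ 0),
        Projectivization.mk (ZMod p) (pt (sys c) x) (key x hx) =
          φ (Projectivization.mk (ZMod p) x hx) := by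
      intro x hx
      obtain ⟨a, ha⟩ := Projectivization.exists_smul_eq_mk_rep (ZMod p) x hx
      rw [hφ]
      symm
      rw [Projectivization.mk_eq_mk_iff']
      refine ⟨(d : ZMod p) * (a : ZMod p) ^ d, ?_⟩
      unfold tab
      rw [T3b_jac_mulVec, ← ha]
      have h1 : pt (sys c) (a • x) = ((a : ZMod p)) ^ d • pt (sys c) x :=
        T3b_pt_smul c (a : ZMod p) x
      rw [h1, smul_smul]
    have hiter : ∀ k : ℕ, ∃ hk : (pt (sys c))^[k] x ≠ 0,
        Projectivization.mk (ZMod p) ((pt (sys c))^[k] x) hk =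
          φ^[k] (Projectivization.mk (ZMod p) x hx) := by
      intro k
      induction k with
      | zero => exact ⟨hx, rfl⟩
      | succ k ih =>
        obtain ⟨hk, hk2⟩ := ih
        have h1 := hstep _ hk
        have h2 : (pt (sys c))^[k + 1] x = pt (sys c) ((pt (sys c))^[k] x) :=
          Function.iterate_succ_apply' _ _ _
        have hk' : (pt (sys c))^[k + 1] x ≠ 0 := by
          rw [h2]
          exact key _ hk
        refine ⟨hk', ?_⟩
        have h3 := T3b_mk_congr h2 hk' (key _ hk)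
        have h4 : φ^[k + 1] (Projectivization.mk (ZMod p) x hx) =
            φ (φ^[k] (Projectivization.mk (ZMod p) x hx)) := Function.iterate_succ_apply' _ _ _
        rw [h3, h4, ← hk2, h1]
    obtain ⟨hk, hk2⟩ := hiter m
    have hfix : φ^[m] (Projectivization.mk (ZMod p) x hx) = Projectivization.mk (ZMod p) x hx := by
      rw [← hk2]
      exact T3b_mk_congr hmx hk hx
    have hdet := hper (Projectivization.mk (ZMod p) x hx)
      (Function.mk_mem_periodicPts hm hfix)
    obtain ⟨a, ha⟩ := Projectivization.exists_smul_eq_mk_rep (ZMod p) x hx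
    unfold tab at hdet
    rw [← ha] at hdet
    have h1 : jac (sys c) (a • x) = ((a : ZMod p)) ^ (d - 1) • jac (sys c) x :=
      T3b_jac_smul c (a : ZMod p) x
    rw [h1, Matrix.det_smul] at hdet
    intro h0
    apply hdet
    rw [h0, mul_zero]

end Pool.Agent.H927R2.RD
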