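import Pool.Agent.H927R2.RD.T2
import Pool.Agent.H927R2.RD.T3b

set_option autoImplicit false

/-! T3: equidistribution of the Jacobian table -/

namespace Pool.Agent.H927R2.RD

open MvPolynomial Pool.Agent.H936R2

open scoped LinearAlgebra.Projectivization

/-- fibres of a surjective homomorphism of finite groups -/
theorem T3_card {A B : Type} [AddCommGroup A] [AddCommGroup B] [Finite A] [Finite B] (f : A →+ B)
    (hf : Function.Surjective f) (E : Set B) :
    Nat.card {a : A // f a ∈ E} * Nat.card B = Nat.card E * Nat.card A := by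
  classical
  have := Fintype.ofFinite A
  have := Fintype.ofFinite B
  set K := (Finset.univ.filter fun a : A => f a = 0).card with hK
  have hfib : ∀ b : B, (Finset.univ.filter fun a : A => f a = b).card = K := fun b =>
    AddMonoidHom.card_fiber_eq_of_mem_range f (hf b) (hf 0)
  have h1 : Nat.card {a : A // f a ∈ E} = Nat.card E * K := by
    rw [Nat.card_eq_fintype_card, Fintype.card_subtype, Nat.card_eq_fintype_card,
      ← Set.toFinset_card]
    rw [Finset.card_eq_sum_card_fiberwise (f := f) (t := E.toFinset)]
    · have h2 : ∀ b ∈ E.toFinset, ((Finset.univ.filter fun a : A => f a ∈ E).filter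
          fun a => f a = b).card = K := by
        intro b hb
        rw [← hfib b, Finset.filter_filter]
        congr 1
        ext a
        simp only [Finset.mem_filter, Finset.mem_univ, true_and]
        rw [Set.mem_toFinset] at hb
        constructor
        · exact fun h => h.2
        · exact fun h => ⟨h ▸ hb, h⟩
      rw [Finset.sum_congr rfl h2, Finset.sum_const, smul_eq_mul]
    · intro a ha
      rw [Finset.mem_coe, Finset.mem_filter] at ha
      rw [Finset.mem_coe, Set.mem_toFinset]
      exact ha.2
  have h3 : Nat.card A = Nat.card B * K := by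
    rw [Nat.card_eq_fintype_card, Nat.card_eq_fintype_card, ← Finset.card_univ,
      Finset.card_eq_sum_card_fiberwise (f := f) (t := Finset.univ)
        (fun a _ => Finset.mem_coe.2 (Finset.mem_univ _)),
      Finset.sum_congr rfl (fun b _ => hfib b), Finset.sum_const, smul_eq_mul, Finset.card_univ]
  rw [h1, h3]
  ring

theorem T3_expo_inj {n d : ℕ} {κ κ' : Mono n d} (h : expo κ = expo κ') : κ = κ' := by
  apply Subtype.ext
  funext i
  have := DFunLike.congr_fun h i
  exact Fin.ext this

theorem T3_form_coeff {R : Type} [CommRing R] {n d : ℕ} {G : MvPolynomial (Fin n) R}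
    (hG : G.IsHomogeneous d) : form (fun κ : Mono n d => coeff (expo κ) G) = G := by
  classical
  ext m
  unfold form
  rw [coeff_sum]
  simp only [coeff_monomial]
  by_cases hm : m.degree = d
  · have hsum : ∑ i, m i = d := by rw [← Finsupp.degree_eq_sum, hm]
    have hle : ∀ i, m i ≤ d := fun i => by
      rw [← hsum]
      exact Finset.single_le_sum (f := fun i => m i) (fun _ _ => Nat.zero_le _) (Finset.mem_univ i)
    set κ0 : Mono n d := ⟨fun i => ⟨m i, Nat.lt_succ_of_le (hle i)⟩, hsum⟩ with hκ0
    have hex : expo κ0 = m := by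
      ext i
      rfl
    rw [Finset.sum_eq_single κ0]
    · rw [if_pos hex, hex]
    · intro κ _ hne
      rw [if_neg]
      intro h
      exact hne (T3_expo_inj (h.trans hex.symm))
    · intro h
      exact absurd (Finset.mem_univ _) h
  · rw [hG.coeff_eq_zero hm]
    apply Finset.sum_eq_zero
    intro κ _
    rw [if_neg]
    intro h
    apply hm
    rw [← h, Finsupp.degree_eq_sum]
    exact κ.2

theorem T3_form_add {R : Type} [CommRing R] {n d : ℕ} (c c' : Mono n d → R) :
    form (c + c') = form c + form c' := by
  unfold form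
  rw [← Finset.sum_add_distrib]
  exact Finset.sum_congr rfl fun κ _ => by rw [Pi.add_apply, map_add]

theorem T3_tab_add {p n d : ℕ} [Fact p.Prime] (c c' : Fin n → Mono n d → ZMod p) :
    tab (c + c') = tab c + tab c' := by
  funext x
  ext i j
  rw [Pi.add_apply, Matrix.add_apply]
  unfold tab jac sys
  rw [Pi.add_apply, T3_form_add, map_add, map_add]

/-- T3 (equidistribution of the Jacobian table), from T2 by linear algebra. -/
theorem card_tab_preimage {p : ℕ} [Fact p.Prime] (n d : ℕ) (hn : 0 < n)
    (hd : 2 * ((n - 1) * (p - 1)) + 3 ≤ d) (hpd : ¬ p ∣ d) (E : Set (Tab p n)) :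
    Nat.card {c : Fin n → Mono n d → ZMod p // tab c ∈ E} * Nat.card (Tab p n) =
      Nat.card E * Nat.card (Fin n → Mono n d → ZMod p) := by
  classical
  have hfin : Finite (PP p n) := inferInstance
  have := Fintype.ofFinite (PP p n)
  set f : (Fin n → Mono n d → ZMod p) →+ Tab p n :=
    AddMonoidHom.mk' tab T3_tab_add with hf
  have hsurj : Function.Surjective f := by
    intro A
    have hex : ∀ (x : PP p n) (i : Fin n), ∃ G : MvPolynomial (Fin n) (ZMod p), G.IsHomogeneous d ∧
        (∀ j, eval x.rep (pderiv j G) = A x i j) ∧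
        ∀ y : Fin n → ZMod p, (¬ ∃ c : ZMod p, y = c • x.rep) → ∀ j, eval y (pderiv j G) = 0 :=
      fun x i => exists_form n d hd hpd x.rep x.rep_nonzero (A x i)
    choose G hG1 hG2 hG3 using hex
    set F : Fin n → MvPolynomial (Fin n) (ZMod p) := fun i => ∑ x, G x i with hF
    have hFh : ∀ i, (F i).IsHomogeneous d := fun i => IsHomogeneous.sum _ _ _ fun x _ => hG1 x i
    refine ⟨fun i κ => coeff (expo κ) (F i), ?_⟩
    have hft : ∀ c, f c = tab c := fun c => rfl
    rw [hft]
    funext x
    ext i j
    unfold tab jac sys
    rw [T3_form_coeff (hFh i), hF, map_sum, map_sum, Finset.sum_eq_single x]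
    · exact hG2 x i j
    · intro y _ hyx
      apply hG3
      rintro ⟨c, hc⟩
      apply hyx
      have hc0 : c ≠ 0 := by
        intro h0
        rw [h0, zero_smul] at hc
        exact x.rep_nonzero hc
      rw [← x.mk_rep, ← y.mk_rep, Projectivization.mk_eq_mk_iff']
      refine ⟨c⁻¹, ?_⟩
      rw [hc, smul_smul, inv_mul_cancel₀ hc0, one_smul]
    · intro h
      exact absurd (Finset.mem_univ _) h
  have h := T3_card f hsurj E
  exact h

end Pool.Agent.H927R2.RD
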