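import Pool.Agent.H927R2.RD.T3

set_option autoImplicit false

/-! T4: the number of good tables -/

namespace Pool.Agent.H927R2.RD

open MvPolynomial Pool.Agent.H936R2

open scoped LinearAlgebra.Projectivization

theorem T4_trans {F : Type} [Field F] {n : ℕ} (v w : Fin n → F) (hv : v ≠ 0) (hw : w ≠ 0) :
    ∃ B : Matrix (Fin n) (Fin n) F, B.det ≠ 0 ∧ B.mulVec v = w := by
  classical
  obtain ⟨f, hf1, hf2⟩ : ∃ f : (Fin n → F) →ₗ[F] F, f v = 1 ∧ f w ≠ 0 := by
    by_cases h : ∃ i, v i ≠ 0 ∧ w i ≠ 0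
    · obtain ⟨i, h1, h2⟩ := h
      refine ⟨(v i)⁻¹ • LinearMap.proj i, ?_, ?_⟩
      · rw [LinearMap.smul_apply, LinearMap.proj_apply, smul_eq_mul, inv_mul_cancel₀ h1]
      · rw [LinearMap.smul_apply, LinearMap.proj_apply, smul_eq_mul]
        exact mul_ne_zero (inv_ne_zero h1) h2
    · push Not at h
      obtain ⟨i, hi⟩ := Function.ne_iff.1 hv
      obtain ⟨j, hj⟩ := Function.ne_iff.1 hw
      rw [Pi.zero_apply] at hi hj
      have hwi : w i = 0 := h i hi
      have hvj : v j = 0 := by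
        by_contra h0
        exact hj (h j h0)
      refine ⟨(v i)⁻¹ • LinearMap.proj i + LinearMap.proj j, ?_, ?_⟩
      · rw [LinearMap.add_apply, LinearMap.smul_apply, LinearMap.proj_apply, LinearMap.proj_apply,
          smul_eq_mul, inv_mul_cancel₀ hi, hvj, add_zero]
      · rw [LinearMap.add_apply, LinearMap.smul_apply, LinearMap.proj_apply, LinearMap.proj_apply,
          smul_eq_mul, hwi, mul_zero, zero_add]
        exact hj
  set T : (Fin n → F) →ₗ[F] (Fin n → F) := LinearMap.id + f.smulRight (w - v) with hT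
  have hTz : ∀ z, T z = z + f z • (w - v) := fun z => rfl
  have hmv : ∀ z, (LinearMap.toMatrix' T).mulVec z = T z := fun z => LinearMap.toMatrix'_mulVec T z
  refine ⟨LinearMap.toMatrix' T, ?_, ?_⟩
  · intro h0
    obtain ⟨z, hz, hz0⟩ := Matrix.exists_mulVec_eq_zero_iff.2 h0
    rw [hmv, hTz] at hz0
    have h1 := congrArg f hz0
    rw [map_add, map_smul, map_sub, hf1, map_zero, smul_eq_mul] at h1
    have h2 : f z * f w = 0 := by linear_combination h1
    have h3 : f z = 0 := (mul_eq_zero.1 h2).resolve_right hf2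
    rw [h3, zero_smul, add_zero] at hz0
    exact hz hz0
  · rw [hmv, hTz, hf1, one_smul, add_sub_cancel]

section count

variable {p n : ℕ} [Fact p.Prime]

/-- evaluation of a matrix at a vector -/
def T4_ev (v : Fin n → ZMod p) : Matrix (Fin n) (Fin n) (ZMod p) →+ (Fin n → ZMod p) :=
  AddMonoidHom.mk' (fun A => A.mulVec v) fun A B => Matrix.add_mulVec A B v

theorem T4_ev_surj (v : Fin n → ZMod p) (hv : v ≠ 0) : Function.Surjective (T4_ev v) := by
  intro w
  by_cases hw : w = 0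
  · exact ⟨0, by rw [map_zero, hw]⟩
  · obtain ⟨B, _, hB⟩ := T4_trans v w hv hw
    exact ⟨B, hB⟩

theorem T4_card_line (w : Fin n → ZMod p) (hw : w ≠ 0) :
    Nat.card {z : Fin n → ZMod p | ∃ a : ZMod p, a ≠ 0 ∧ z = a • w} = p - 1 := by
  have h1 : Nat.card {a : ZMod p // a ≠ 0} = p - 1 := by
    rw [Nat.card_eq_fintype_card, Fintype.card_subtype_compl, Fintype.card_subtype_eq, ZMod.card]
  rw [← h1]
  symm
  refine Nat.card_congr (Equiv.ofBijective
    (fun a => (⟨a.1 • w, a.1, a.2, rfl⟩ : {z : Fin n → ZMod p | ∃ a : ZMod p, a ≠ 0 ∧ z = a • w}))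
    ⟨?_, ?_⟩)
  · intro a a' h
    apply Subtype.ext
    have h2 : a.1 • w = a'.1 • w := congrArg Subtype.val h
    exact smul_left_injective (ZMod p) hw h2
  · rintro ⟨z, a, ha, rfl⟩
    exact ⟨⟨a, ha⟩, rfl⟩

omit [Fact p.Prime] in
theorem T4_cardM : Nat.card (Matrix (Fin n) (Fin n) (ZMod p)) = p ^ (n * n) := by
  have h : Nat.card (Matrix (Fin n) (Fin n) (ZMod p)) = Nat.card (Fin n → Fin n → ZMod p) := rfl
  rw [h, Nat.card_pi, Finset.prod_const, Finset.card_univ, Fintype.card_fin, Nat.card_pi,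
    Finset.prod_const, Finset.card_univ, Fintype.card_fin, Nat.card_zmod, ← pow_mul]

omit [Fact p.Prime] in
theorem T4_cardV : Nat.card (Fin n → ZMod p) = p ^ n := by
  rw [Nat.card_pi, Finset.prod_const, Finset.card_univ, Fintype.card_fin, Nat.card_zmod]

/-- all matrices sending `v` to the line of `w` -/
theorem T4_count_t (v w : Fin n → ZMod p) (hv : v ≠ 0) (hw : w ≠ 0) :
    Nat.card {A : Matrix (Fin n) (Fin n) (ZMod p) // ∃ a : ZMod p, a ≠ 0 ∧ A.mulVec v = a • w} *
      p ^ n = (p - 1) * p ^ (n * n) := by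
  have h := T3_card (T4_ev v) (T4_ev_surj v hv) {z | ∃ a : ZMod p, a ≠ 0 ∧ z = a • w}
  rw [T4_card_line w hw, T4_cardM, T4_cardV] at h
  exact h

/-- the number of invertible matrices with a prescribed value does not depend on the value -/
theorem T4_fib (v z z' : Fin n → ZMod p) (hz : z ≠ 0) (hz' : z' ≠ 0) :
    Nat.card {A : Matrix (Fin n) (Fin n) (ZMod p) // A.mulVec v = z ∧ A.det ≠ 0} =
      Nat.card {A : Matrix (Fin n) (Fin n) (ZMod p) // A.mulVec v = z' ∧ A.det ≠ 0} := by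
  have key : ∀ z z' : Fin n → ZMod p, z ≠ 0 → z' ≠ 0 →
      Nat.card {A : Matrix (Fin n) (Fin n) (ZMod p) // A.mulVec v = z ∧ A.det ≠ 0} ≤
      Nat.card {A : Matrix (Fin n) (Fin n) (ZMod p) // A.mulVec v = z' ∧ A.det ≠ 0} := by
    intro z z' hz hz'
    obtain ⟨B, hB, hBz⟩ := T4_trans z z' hz hz'
    refine Nat.card_le_card_of_injective
      (fun A => (⟨B * A.1, by rw [← Matrix.mulVec_mulVec, A.2.1, hBz],
        by rw [Matrix.det_mul]; exact mul_ne_zero hB A.2.2⟩ :
        {A : Matrix (Fin n) (Fin n) (ZMod p) // A.mulVec v = z' ∧ A.det ≠ 0})) ?_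
    intro A A' h
    apply Subtype.ext
    have h2 : B * A.1 = B * A'.1 := congrArg Subtype.val h
    have h3 : IsUnit B := (Matrix.isUnit_iff_isUnit_det B).2 (isUnit_iff_ne_zero.2 hB)
    exact h3.mul_left_cancel h2
  exact le_antisymm (key z z' hz hz') (key z' z hz' hz)

theorem T4_cardGL : Nat.card {A : Matrix (Fin n) (Fin n) (ZMod p) // A.det ≠ 0} =
    ∏ i : Fin n, (p ^ n - p ^ (i : ℕ)) := by
  have h := Matrix.card_GL_field (𝔽 := ZMod p) n
  rw [ZMod.card] at h
  rw [← h]
  refine Nat.card_congr (Equiv.ofBijective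
    (fun A => Matrix.GeneralLinearGroup.mkOfDetNeZero A.1 A.2) ⟨?_, ?_⟩)
  · intro A A' h
    apply Subtype.ext
    exact congrArg Units.val h
  · intro g
    refine ⟨⟨g.1, ?_⟩, ?_⟩
    · have : IsUnit g.1.det := (Matrix.isUnit_iff_isUnit_det g.1).1 g.isUnit
      exact this.ne_zero
    · apply Units.ext
      rfl

/-- all invertible matrices sending `v` to the line of `w` -/
theorem T4_count_g (v w : Fin n → ZMod p) (hv : v ≠ 0) (hw : w ≠ 0) :
    Nat.card {A : Matrix (Fin n) (Fin n) (ZMod p) //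
        (∃ a : ZMod p, a ≠ 0 ∧ A.mulVec v = a • w) ∧ A.det ≠ 0} * (p ^ n - 1) =
      (p - 1) * ∏ i : Fin n, (p ^ n - p ^ (i : ℕ)) := by
  classical
  set c : ℕ := Nat.card {A : Matrix (Fin n) (Fin n) (ZMod p) // A.mulVec v = w ∧ A.det ≠ 0} with hc
  have hcz : ∀ z : Fin n → ZMod p, z ≠ 0 →
      (Finset.univ.filter fun A : Matrix (Fin n) (Fin n) (ZMod p) =>
        A.mulVec v = z ∧ A.det ≠ 0).card = c := by
    intro z hz
    rw [hc, ← T4_fib v z w hz hw, Nat.card_eq_fintype_card, Fintype.card_subtype]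
  have hGL : Nat.card {A : Matrix (Fin n) (Fin n) (ZMod p) // A.det ≠ 0} = (p ^ n - 1) * c := by
    rw [Nat.card_eq_fintype_card, Fintype.card_subtype,
      Finset.card_eq_sum_card_fiberwise (f := fun A : Matrix (Fin n) (Fin n) (ZMod p) => A.mulVec v)
        (t := Finset.univ.filter fun z : Fin n → ZMod p => z ≠ 0)]
    · have h2 : ∀ z ∈ Finset.univ.filter (fun z : Fin n → ZMod p => z ≠ 0),
          ((Finset.univ.filter fun A : Matrix (Fin n) (Fin n) (ZMod p) => A.det ≠ 0).filter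
            fun A => A.mulVec v = z).card = c := by
        intro z hz
        rw [← hcz z (Finset.mem_filter.1 hz).2, Finset.filter_filter]
        congr 1
        ext A
        simp only [Finset.mem_filter, Finset.mem_univ, true_and]
        exact and_comm
      rw [Finset.sum_congr rfl h2, Finset.sum_const, smul_eq_mul]
      congr 1
      have h3 : (Finset.univ.filter fun z : Fin n → ZMod p => z ≠ 0) = Finset.univ.erase 0 := by
        ext z
        simp
      rw [h3, Finset.card_erase_of_mem (Finset.mem_univ _), Finset.card_univ,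
        ← Nat.card_eq_fintype_card, T4_cardV]
    · intro A hA
      rw [Finset.mem_coe, Finset.mem_filter] at hA
      rw [Finset.mem_coe, Finset.mem_filter]
      refine ⟨Finset.mem_univ _, fun h0 => hA.2 ?_⟩
      exact Matrix.exists_mulVec_eq_zero_iff.1 ⟨v, hv, h0⟩
  have hline : Nat.card {A : Matrix (Fin n) (Fin n) (ZMod p) //
        (∃ a : ZMod p, a ≠ 0 ∧ A.mulVec v = a • w) ∧ A.det ≠ 0} = (p - 1) * c := by
    rw [Nat.card_eq_fintype_card, Fintype.card_subtype,
      Finset.card_eq_sum_card_fiberwise (f := fun A : Matrix (Fin n) (Fin n) (ZMod p) => A.mulVec v)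
        (t := Finset.univ.filter fun z : Fin n → ZMod p => ∃ a : ZMod p, a ≠ 0 ∧ z = a • w)]
    · have h2 : ∀ z ∈ Finset.univ.filter (fun z : Fin n → ZMod p => ∃ a : ZMod p, a ≠ 0 ∧ z = a • w),
          ((Finset.univ.filter fun A : Matrix (Fin n) (Fin n) (ZMod p) =>
            (∃ a : ZMod p, a ≠ 0 ∧ A.mulVec v = a • w) ∧ A.det ≠ 0).filter
            fun A => A.mulVec v = z).card = c := by
        intro z hz
        obtain ⟨a, ha, haz⟩ := (Finset.mem_filter.1 hz).2
        have hz0 : z ≠ 0 := by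
          rw [haz]
          exact smul_ne_zero ha hw
        rw [← hcz z hz0, Finset.filter_filter]
        congr 1
        ext A
        simp only [Finset.mem_filter, Finset.mem_univ, true_and]
        constructor
        · rintro ⟨⟨_, h1⟩, h2⟩
          exact ⟨h2, h1⟩
        · rintro ⟨h1, h2⟩
          exact ⟨⟨⟨a, ha, h1.trans haz⟩, h2⟩, h1⟩
      rw [Finset.sum_congr rfl h2, Finset.sum_const, smul_eq_mul]
      congr 1
      have h3 := T4_card_line w hw
      rw [Nat.card_eq_fintype_card] at h3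
      rw [← h3, ← Fintype.card_subtype]
      rfl
    · intro A hA
      rw [Finset.mem_coe, Finset.mem_filter] at hA
      rw [Finset.mem_coe, Finset.mem_filter]
      exact ⟨Finset.mem_univ _, hA.2.1⟩
  rw [hline, ← T4_cardGL, hGL]
  ring

theorem T4_prod (hn : 2 ≤ n) : ((∏ i : Fin n, (p ^ n - p ^ (i : ℕ)) : ℕ) : ℝ) =
    (p : ℝ) ^ (n * n) * (1 - 1 / (p : ℝ) ^ n) * rr p n := by
  have hp : (p : ℝ) ≠ 0 := by
    have := (Fact.out : p.Prime).pos
    positivity
  have h1 : ((∏ i : Fin n, (p ^ n - p ^ (i : ℕ)) : ℕ) : ℝ) =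
      ∏ i ∈ Finset.range n, ((p : ℝ) ^ n * (1 - 1 / (p : ℝ) ^ (n - 1 - i + 1))) := by
    rw [Finset.prod_range, Nat.cast_prod]
    apply Finset.prod_congr rfl
    intro i _
    have hle : p ^ (i : ℕ) ≤ p ^ n := Nat.pow_le_pow_right (Fact.out : p.Prime).pos i.2.le
    rw [Nat.cast_sub hle]
    push_cast
    have h2 : n - 1 - (i : ℕ) + 1 = n - i := by have := i.2; omega
    rw [h2]
    have h3 : (p : ℝ) ^ n = (p : ℝ) ^ (i : ℕ) * (p : ℝ) ^ (n - i) := by
      rw [← pow_add, Nat.add_sub_cancel' i.2.le]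
    have h4 : (p : ℝ) ^ (n - (i : ℕ)) ≠ 0 := pow_ne_zero _ hp
    rw [mul_sub, mul_one, mul_one_div]
    congr 1
    rw [eq_div_iff h4, h3]
  rw [h1, Finset.prod_mul_distrib, Finset.prod_const, Finset.card_range, ← pow_mul,
    Finset.prod_range_reflect (fun j => 1 - 1 / (p : ℝ) ^ (j + 1)) n]
  obtain ⟨m, rfl⟩ : ∃ m, n = m + 1 := ⟨n - 1, by omega⟩
  rw [Finset.prod_range_succ]
  unfold rr
  rw [Nat.add_sub_cancel]
  ring

end count

/-- T4 (number of good tables). -/
theorem card_goodTab (p n : ℕ) [Fact p.Prime] (hn : 2 ≤ n) :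
    (Nat.card {A : Tab p n // GoodTab A} : ℝ) =
      (Nat.card (Tab p n) : ℝ) * (1 - 1 / (p : ℝ) ^ n) ^ Nat.card (PP p n) *
        ((∑ᶠ φ : PP p n → PP p n, rr p n ^ nper φ) /
          (Nat.card (PP p n) : ℝ) ^ Nat.card (PP p n)) := by
  classical
  have hfin : Finite (PP p n) := inferInstance
  have := Fintype.ofFinite (PP p n)
  have hp2 := (Fact.out : p.Prime).two_le
  have hp : (2 : ℝ) ≤ p := by exact_mod_cast hp2
  -- the number of points
  set N : ℕ := Nat.card (PP p n) with hN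
  have hNp : (N : ℝ) * ((p : ℝ) - 1) = (p : ℝ) ^ n - 1 := by
    have h := Projectivization.card (ZMod p) (Fin n → ZMod p)
    rw [T4_cardV, Nat.card_zmod] at h
    have h1 : 1 ≤ p ^ n := Nat.one_le_pow _ _ (by omega)
    have h2 : ((p ^ n - 1 : ℕ) : ℝ) = ((N * (p - 1) : ℕ) : ℝ) := by rw [h]
    rw [Nat.cast_sub h1, Nat.cast_mul, Nat.cast_sub (by omega : 1 ≤ p)] at h2
    push_cast at h2
    linarith
  have hpn : (1 : ℝ) < (p : ℝ) ^ n := one_lt_pow₀ (by linarith) (by omega)
  have hN0 : (0 : ℝ) < N := by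
    by_contra h0
    push Not at h0
    have : (N : ℝ) * ((p : ℝ) - 1) ≤ 0 := mul_nonpos_of_nonpos_of_nonneg h0 (by linarith)
    linarith
  set t : ℝ := (p : ℝ) ^ (n * n) * (1 - 1 / (p : ℝ) ^ n) / N with ht
  -- the condition at one point
  have hcount : ∀ (x y : PP p n) (Q : Prop),
      (Nat.card {M : Matrix (Fin n) (Fin n) (ZMod p) //
        (∃ a : ZMod p, a ≠ 0 ∧ M.mulVec x.rep = a • y.rep) ∧ (Q → M.det ≠ 0)} : ℝ) =
      t * (if Q then rr p n else 1) := by
    intro x y Q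
    by_cases hQ : Q
    · rw [if_pos hQ]
      have h1 := T4_count_g x.rep y.rep x.rep_nonzero y.rep_nonzero
      have h2 : Nat.card {M : Matrix (Fin n) (Fin n) (ZMod p) //
          (∃ a : ZMod p, a ≠ 0 ∧ M.mulVec x.rep = a • y.rep) ∧ (Q → M.det ≠ 0)} =
          Nat.card {M : Matrix (Fin n) (Fin n) (ZMod p) //
          (∃ a : ZMod p, a ≠ 0 ∧ M.mulVec x.rep = a • y.rep) ∧ M.det ≠ 0} := by
        refine Nat.card_congr (Equiv.subtypeEquivRight fun M => ?_)
        exact ⟨fun h => ⟨h.1, h.2 hQ⟩, fun h => ⟨h.1, fun _ => h.2⟩⟩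
      rw [h2]
      have h3 := congrArg (fun k : ℕ => (k : ℝ)) h1
      simp only [Nat.cast_mul] at h3
      rw [T4_prod hn, Nat.cast_sub (Nat.one_le_pow _ _ (by omega)), Nat.cast_sub (by omega)] at h3
      push_cast at h3
      rw [ht, ← hNp] at *
      have hp1 : ((p : ℝ) - 1) ≠ 0 := by linarith
      field_simp at h3 ⊢
      linear_combination h3
    · rw [if_neg hQ, mul_one]
      have h1 := T4_count_t x.rep y.rep x.rep_nonzero y.rep_nonzero
      have h2 : Nat.card {M : Matrix (Fin n) (Fin n) (ZMod p) //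
          (∃ a : ZMod p, a ≠ 0 ∧ M.mulVec x.rep = a • y.rep) ∧ (Q → M.det ≠ 0)} =
          Nat.card {M : Matrix (Fin n) (Fin n) (ZMod p) //
          ∃ a : ZMod p, a ≠ 0 ∧ M.mulVec x.rep = a • y.rep} := by
        refine Nat.card_congr (Equiv.subtypeEquivRight fun M => ?_)
        exact ⟨fun h => h.1, fun h => ⟨h, fun hq => absurd hq hQ⟩⟩
      rw [h2]
      have h3 := congrArg (fun k : ℕ => (k : ℝ)) h1
      simp only [Nat.cast_mul] at h3
      rw [Nat.cast_sub (by omega)] at h3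
      push_cast at h3
      have h4 : (1 : ℝ) - 1 / (p : ℝ) ^ n = (N * ((p : ℝ) - 1)) / (p : ℝ) ^ n := by
        rw [hNp]
        field_simp
      rw [ht, h4]
      field_simp
      linear_combination h3
  -- good tables are pairs (map, table)
  have hgood : Nat.card {A : Tab p n // GoodTab A} =
      ∑ φ : PP p n → PP p n, ∏ x, Nat.card {M : Matrix (Fin n) (Fin n) (ZMod p) //
        (∃ a : ZMod p, a ≠ 0 ∧ M.mulVec x.rep = a • (φ x).rep) ∧
          (x ∈ Function.periodicPts φ → M.det ≠ 0)} := by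
    have e1 : ∀ φ : PP p n → PP p n, ∏ x, Nat.card {M : Matrix (Fin n) (Fin n) (ZMod p) //
        (∃ a : ZMod p, a ≠ 0 ∧ M.mulVec x.rep = a • (φ x).rep) ∧
          (x ∈ Function.periodicPts φ → M.det ≠ 0)} =
        Nat.card {A : Tab p n // ∀ x,
          (∃ a : ZMod p, a ≠ 0 ∧ (A x).mulVec x.rep = a • (φ x).rep) ∧
          (x ∈ Function.periodicPts φ → (A x).det ≠ 0)} := by
      intro φ
      rw [← Nat.card_pi]
      exact (Nat.card_congr (Equiv.subtypePiEquivPi (p := fun (x : PP p n)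
        (M : Matrix (Fin n) (Fin n) (ZMod p)) =>
        (∃ a : ZMod p, a ≠ 0 ∧ M.mulVec x.rep = a • (φ x).rep) ∧
          (x ∈ Function.periodicPts φ → M.det ≠ 0)))).symm
    rw [Finset.sum_congr rfl (fun φ _ => e1 φ), ← Nat.card_sigma]
    symm
    have hmk : ∀ (x y : PP p n) (A : Matrix (Fin n) (Fin n) (ZMod p))
        (h : A.mulVec x.rep ≠ 0), (Projectivization.mk (ZMod p) _ h = y ↔
          ∃ a : ZMod p, a ≠ 0 ∧ A.mulVec x.rep = a • y.rep) := by
      intro x y A h
      constructor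
      · intro h1
        rw [← y.mk_rep, Projectivization.mk_eq_mk_iff'] at h1
        obtain ⟨a, ha⟩ := h1
        refine ⟨a, ?_, ha.symm⟩
        intro h0
        rw [h0, zero_smul] at ha
        exact h ha.symm
      · rintro ⟨a, _, ha⟩
        rw [← y.mk_rep, Projectivization.mk_eq_mk_iff']
        exact ⟨a, ha.symm⟩
    refine Nat.card_congr (Equiv.ofBijective (fun q => (⟨q.2.1, ?_⟩ : {A : Tab p n // GoodTab A}))
      ⟨?_, ?_⟩)
    · obtain ⟨φ, A, hA⟩ := q
      have hne : ∀ x : PP p n, (A x).mulVec x.rep ≠ 0 := by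
        intro x
        obtain ⟨a, ha, hax⟩ := (hA x).1
        rw [hax]
        exact smul_ne_zero ha (φ x).rep_nonzero
      refine ⟨hne, ?_⟩
      have hφ : (fun x : PP p n => Projectivization.mk (ZMod p) _ (hne x)) = φ :=
        funext fun x => (hmk x (φ x) (A x) (hne x)).2 (hA x).1
      rw [hφ]
      exact fun x hx => (hA x).2 hx
    · rintro ⟨φ, A, hA⟩ ⟨ψ, A', hA'⟩ h
      have hAA : A = A' := congrArg Subtype.val h
      subst hAA
      have hφψ : φ = ψ := by
        funext x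
        have hne : (A x).mulVec x.rep ≠ 0 := by
          obtain ⟨a, ha, hax⟩ := (hA x).1
          rw [hax]
          exact smul_ne_zero ha (φ x).rep_nonzero
        rw [← (hmk x (φ x) (A x) hne).2 (hA x).1, ← (hmk x (ψ x) (A x) hne).2 (hA' x).1]
      subst hφψ
      rfl
    · rintro ⟨A, hA⟩
      obtain ⟨hne, hper⟩ := hA
      refine ⟨⟨fun x : PP p n => Projectivization.mk (ZMod p) _ (hne x), A, fun x =>
        ⟨(hmk x _ (A x) (hne x)).1 rfl, fun hx => hper x hx⟩⟩, rfl⟩
  rw [hgood]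
  push_cast
  rw [finsum_eq_sum_of_fintype]
  have hterm : ∀ φ : PP p n → PP p n, ∏ x, (Nat.card {M : Matrix (Fin n) (Fin n) (ZMod p) //
        (∃ a : ZMod p, a ≠ 0 ∧ M.mulVec x.rep = a • (φ x).rep) ∧
          (x ∈ Function.periodicPts φ → M.det ≠ 0)} : ℝ) = t ^ N * rr p n ^ nper φ := by
    intro φ
    rw [Finset.prod_congr rfl (fun x _ => hcount x (φ x) (x ∈ Function.periodicPts φ)),
      Finset.prod_mul_distrib, Finset.prod_const, Finset.card_univ, ← Nat.card_eq_fintype_card,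
      ← hN, Finset.prod_ite, Finset.prod_const_one, mul_one, Finset.prod_const]
    congr 2
    unfold nper
    rw [Set.ncard_eq_toFinset_card']
    congr 1
    ext x
    simp
  rw [Finset.sum_congr rfl (fun φ _ => hterm φ), ← Finset.mul_sum]
  have hTab : (Nat.card (Tab p n) : ℝ) = ((p : ℝ) ^ (n * n)) ^ N := by
    have h1 : Nat.card (Tab p n) = Nat.card (PP p n → Matrix (Fin n) (Fin n) (ZMod p)) := rfl
    rw [h1, Nat.card_pi, Finset.prod_const, Finset.card_univ, T4_cardM,
      ← Nat.card_eq_fintype_card, ← hN]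
    push_cast
    rfl
  rw [hTab, ht, div_pow, mul_pow]
  have hNN : (N : ℝ) ^ N ≠ 0 := pow_ne_zero _ hN0.ne'
  field_simp

end Pool.Agent.H927R2.RD
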