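import Pool.Agent.H927R2.RD.Defs

set_option autoImplicit false

/-!
T5: random maps, expectation bound for the number of periodic points.
-/

namespace Pool.Agent.H927R2.RD

open Function Finset

/-- number of pairs with a given minimal period -/
theorem T5_count {X : Type} [Fintype X] [DecidableEq X] (j : ℕ) (hj : 0 < j) :
    ((Finset.univ.filter fun p : (X → X) × X => minimalPeriod p.1 p.2 = j).card) ≤
      Fintype.card X ^ (Fintype.card X - j) * (Fintype.card X).descFactorial j := by
  classical
  set S := Finset.univ.filter fun p : (X → X) × X => minimalPeriod p.1 p.2 = j with hS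
  set t := Finset.univ.filter fun e : Fin j → X => Injective e with ht
  have hmem : ∀ p ∈ S, (fun i : Fin j => p.1^[i.val] p.2) ∈ t := by
    intro p hp
    rw [hS, mem_filter] at hp
    rw [ht, mem_filter]
    refine ⟨mem_univ _, fun a b hab => ?_⟩
    have h1 := Function.iterate_injOn_Iio_minimalPeriod (f := p.1) (x := p.2)
    rw [hp.2] at h1
    exact Fin.ext (h1 a.2 b.2 hab)
  have hfib : ∀ e ∈ t, (S.filter fun p => (fun i : Fin j => p.1^[i.val] p.2) = e).card ≤
      Fintype.card X ^ (Fintype.card X - j) := by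
    intro e he
    rw [ht, mem_filter] at he
    have hinj := he.2
    rcases (S.filter fun p => (fun i : Fin j => p.1^[i.val] p.2) = e).eq_empty_or_nonempty with
      h0 | ⟨p0, hp0⟩
    · rw [h0, card_empty]; exact Nat.zero_le _
    have hval : ∀ p ∈ (S.filter fun p => (fun i : Fin j => p.1^[i.val] p.2) = e),
        ∀ i : Fin j, p.1 (e i) = e ⟨(i.val + 1) % j, Nat.mod_lt _ hj⟩ := by
      intro p hp i
      rw [mem_filter, hS, mem_filter] at hp
      have he' : ∀ i : Fin j, e i = p.1^[i.val] p.2 := fun i => by rw [← hp.2]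
      rw [he' i, he' ⟨(i.val + 1) % j, Nat.mod_lt _ hj⟩,
        ← Function.iterate_succ_apply' p.1 i.val p.2]
      have h2 := Function.iterate_mod_minimalPeriod_eq (f := p.1) (x := p.2) (n := i.val + 1)
      rw [hp.1.2] at h2
      exact h2.symm
    set P : X → Finset X := fun y => if y ∈ Finset.univ.image e then {p0.1 y} else Finset.univ
      with hP
    have hcard : (Fintype.piFinset P).card = Fintype.card X ^ (Fintype.card X - j) := by
      rw [Fintype.card_piFinset]
      have h3 : ∀ y, (P y).card = if y ∈ Finset.univ.image e then 1 else Fintype.card X := by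
        intro y
        rw [hP]
        by_cases hy : y ∈ Finset.univ.image e
        · simp only [hy, if_true, card_singleton]
        · simp only [hy, if_false]; rfl
      rw [Finset.prod_congr rfl (fun y _ => h3 y), Finset.prod_ite, Finset.prod_const_one, one_mul,
        Finset.prod_const]
      congr 1
      have h4 : (Finset.univ.filter fun y => ¬ y ∈ Finset.univ.image e) =
          Finset.univ \ Finset.univ.image e := by
        ext y; simp
      rw [h4, Finset.card_sdiff_of_subset (Finset.subset_univ _),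
        Finset.card_image_of_injective _ hinj, Finset.card_univ, Finset.card_univ, Fintype.card_fin]
    rw [← hcard]
    refine Finset.card_le_card_of_injOn (fun p => p.1) ?_ ?_
    · intro p hp
      rw [Finset.mem_coe] at hp ⊢
      rw [Fintype.mem_piFinset]
      intro y
      rw [hP]
      by_cases hy : y ∈ Finset.univ.image e
      · simp only [hy, if_true, mem_singleton]
        obtain ⟨i, _, rfl⟩ := mem_image.1 hy
        rw [hval p hp i, hval p0 hp0 i]
      · simp only [hy, if_false, mem_univ]
    · intro p hp q hq hpq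
      rw [Finset.mem_coe, mem_filter] at hp hq
      have h5 : p.2 = e ⟨0, hj⟩ := by rw [← hp.2]; rfl
      have h6 : q.2 = e ⟨0, hj⟩ := by rw [← hq.2]; rfl
      exact Prod.ext hpq (h5.trans h6.symm)
  have h7 := Finset.card_le_mul_card_image_of_maps_to hmem _ hfib
  have h8 : t.card = (Fintype.card X).descFactorial j := by
    have h9 : Fintype.card (Fin j ↪ X) = (Fintype.card X).descFactorial (Fintype.card (Fin j)) :=
      Fintype.card_embedding_eq
    rw [Fintype.card_fin] at h9
    rw [← h9, ← Fintype.card_congr (Equiv.subtypeInjectiveEquivEmbedding (Fin j) X),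
      Fintype.card_subtype]
  rwa [h8] at h7

/-- total number of periodic points -/
theorem T5_total {X : Type} [Fintype X] [DecidableEq X] :
    ∑ φ : X → X, nper φ ≤ ∑ j ∈ Finset.Icc 1 (Fintype.card X),
      Fintype.card X ^ (Fintype.card X - j) * (Fintype.card X).descFactorial j := by
  classical
  have h1 : ∀ φ : X → X, nper φ = ∑ j ∈ Finset.Icc 1 (Fintype.card X),
      (Finset.univ.filter fun x : X => minimalPeriod φ x = j).card := by
    intro φ
    unfold nper
    have h2 : Function.periodicPts φ =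
        ((Finset.univ.filter fun x : X => 0 < minimalPeriod φ x : Finset X) : Set X) := by
      ext x
      simp only [coe_filter, mem_univ, true_and]
      exact (Function.minimalPeriod_pos_iff_mem_periodicPts).symm
    rw [h2, Set.ncard_coe_finset]
    rw [Finset.card_eq_sum_card_fiberwise (f := fun x => minimalPeriod φ x)
      (t := Finset.Icc 1 (Fintype.card X))]
    · refine Finset.sum_congr rfl fun j hj => ?_
      rw [Finset.filter_filter]
      congr 1
      ext x
      simp only [mem_filter, mem_univ, true_and]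
      rw [Finset.mem_Icc] at hj
      constructor
      · exact fun h => h.2
      · exact fun h => ⟨by omega, h⟩
    · intro x hx
      rw [Finset.mem_coe, mem_filter] at hx
      rw [Finset.mem_coe, Finset.mem_Icc]
      refine ⟨hx.2, ?_⟩
      have h3 := Function.iterate_injOn_Iio_minimalPeriod (f := φ) (x := x)
      have h4 : Injective (fun i : Fin (minimalPeriod φ x) => φ^[i.val] x) := fun a b hab =>
        Fin.ext (h3 a.2 b.2 hab)
      have h5 := Fintype.card_le_of_injective _ h4
      rwa [Fintype.card_fin] at h5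
  rw [Finset.sum_congr rfl (fun φ _ => h1 φ), Finset.sum_comm]
  refine Finset.sum_le_sum fun j hj => ?_
  refine le_trans (le_of_eq ?_) (T5_count j (Finset.mem_Icc.1 hj).1)
  rw [Finset.card_filter, Fintype.sum_prod_type]
  refine Finset.sum_congr rfl fun φ _ => ?_
  rw [Finset.card_filter]

/-- the falling factorial quotient -/
theorem T5_desc (m j : ℕ) (hm : 0 < m) (hj : j ≤ m) :
    ((m ^ (m - j) * m.descFactorial j : ℕ) : ℝ) =
      (m : ℝ) ^ m * ∏ i ∈ Finset.range j, (1 - (i : ℝ) / m) := by
  have hm' : (m : ℝ) ≠ 0 := by exact_mod_cast hm.ne'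
  have h1 : ((m.descFactorial j : ℕ) : ℝ) = ∏ i ∈ Finset.range j, ((m : ℝ) - i) := by
    rw [Nat.descFactorial_eq_prod_range]
    push_cast
    refine Finset.prod_congr rfl fun i hi => ?_
    rw [Nat.cast_sub]
    have := Finset.mem_range.1 hi
    omega
  have h2 : ∏ i ∈ Finset.range j, ((m : ℝ) - i) =
      (m : ℝ) ^ j * ∏ i ∈ Finset.range j, (1 - (i : ℝ) / m) := by
    rw [← Finset.card_range j, ← Finset.prod_const, Finset.card_range, ← Finset.prod_mul_distrib]
    refine Finset.prod_congr rfl fun i hi => ?_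
    field_simp
  push_cast
  rw [h1, h2, ← mul_assoc, ← pow_add, Nat.sub_add_cancel hj]

theorem T5_sum (m J : ℕ) (hm : 0 < m) (hJ : m ≤ J ^ 2) :
    ∑ j ∈ Finset.Icc 1 m, ∏ i ∈ Finset.range j, (1 - (i : ℝ) / m) ≤ 2 * J := by
  have hm' : (0 : ℝ) < m := by exact_mod_cast hm
  have hf0 : ∀ i : ℕ, i ≤ m → 0 ≤ 1 - (i : ℝ) / m := by
    intro i hi
    rw [sub_nonneg, div_le_one hm']
    exact_mod_cast hi
  have hf1 : ∀ i : ℕ, 1 - (i : ℝ) / m ≤ 1 := by
    intro i
    have : 0 ≤ (i : ℝ) / m := by positivity
    linarith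
  have ha1 : ∀ j ∈ Finset.Icc 1 m, ∏ i ∈ Finset.range j, (1 - (i : ℝ) / m) ≤ 1 := by
    intro j hj
    have hj2 := (Finset.mem_Icc.1 hj).2
    refine Finset.prod_le_one (fun i hi => hf0 i ?_) (fun i _ => hf1 i)
    have := Finset.mem_range.1 hi
    omega
  have hJ0 : 0 < J := by
    rcases Nat.eq_zero_or_pos J with h | h
    · rw [h] at hJ; omega
    · exact h
  have hJ0' : (0 : ℝ) < J := by exact_mod_cast hJ0
  rcases le_or_gt m J with h | h
  · calc ∑ j ∈ Finset.Icc 1 m, ∏ i ∈ Finset.range j, (1 - (i : ℝ) / m)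
        ≤ ∑ j ∈ Finset.Icc 1 m, (1 : ℝ) := Finset.sum_le_sum ha1
      _ = m := by simp
      _ ≤ J := by exact_mod_cast h
      _ ≤ 2 * J := by linarith
  · -- split at J
    set x : ℝ := 1 - (J : ℝ) / m with hx
    have hx0 : 0 ≤ x := hf0 J h.le
    have hx1 : x < 1 := by
      have : 0 < (J : ℝ) / m := by positivity
      linarith
    have ha2 : ∀ k : ℕ, k ≤ m - J → ∏ i ∈ Finset.range (J + k), (1 - (i : ℝ) / m) ≤ x ^ k := by
      intro k hk
      rw [Finset.prod_range_add]
      have b1 : ∏ i ∈ Finset.range J, (1 - (i : ℝ) / m) ≤ 1 := by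
        refine Finset.prod_le_one (fun i hi => hf0 i ?_) (fun i _ => hf1 i)
        have := Finset.mem_range.1 hi
        omega
      have b2 : ∏ i ∈ Finset.range k, (1 - ((J + i : ℕ) : ℝ) / m) ≤ x ^ k := by
        rw [← Finset.card_range k, ← Finset.prod_const, Finset.card_range]
        refine Finset.prod_le_prod (fun i hi => hf0 _ ?_) (fun i _ => ?_)
        · have := Finset.mem_range.1 hi
          omega
        · rw [hx]
          have : (J : ℝ) / m ≤ ((J + i : ℕ) : ℝ) / m := by
            apply div_le_div_of_nonneg_right _ hm'.le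
            push_cast
            have : (0 : ℝ) ≤ i := by positivity
            linarith
          linarith
      have b3 : 0 ≤ ∏ i ∈ Finset.range k, (1 - ((J + i : ℕ) : ℝ) / m) := by
        refine Finset.prod_nonneg (fun i hi => hf0 _ ?_)
        have := Finset.mem_range.1 hi
        omega
      calc (∏ i ∈ Finset.range J, (1 - (i : ℝ) / m)) *
            ∏ i ∈ Finset.range k, (1 - ((J + i : ℕ) : ℝ) / m)
          ≤ 1 * ∏ i ∈ Finset.range k, (1 - ((J + i : ℕ) : ℝ) / m) :=
            mul_le_mul_of_nonneg_right b1 b3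
        _ ≤ x ^ k := by rw [one_mul]; exact b2
    have hsplit : Finset.Icc 1 m = Finset.Icc 1 J ∪ Finset.image (fun k => J + (k + 1))
        (Finset.range (m - J)) := by
      ext a
      simp only [Finset.mem_Icc, Finset.mem_union, Finset.mem_image, Finset.mem_range]
      constructor
      · rintro ⟨h1, h2⟩
        by_cases h3 : a ≤ J
        · exact Or.inl ⟨h1, h3⟩
        · exact Or.inr ⟨a - J - 1, by omega, by omega⟩
      · rintro (⟨h1, h2⟩ | ⟨k, h1, h2⟩)
        · omega
        · omega
    have hdisj : Disjoint (Finset.Icc 1 J) (Finset.image (fun k => J + (k + 1))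
        (Finset.range (m - J))) := by
      rw [Finset.disjoint_left]
      intro a ha hb
      simp only [Finset.mem_Icc, Finset.mem_image, Finset.mem_range] at ha hb
      obtain ⟨k, hk1, hk2⟩ := hb
      omega
    rw [hsplit, Finset.sum_union hdisj, Finset.sum_image (fun a _ b _ hab => by
      have : J + (a + 1) = J + (b + 1) := hab
      omega)]
    have c1 : ∑ j ∈ Finset.Icc 1 J, ∏ i ∈ Finset.range j, (1 - (i : ℝ) / m) ≤ J := by
      calc ∑ j ∈ Finset.Icc 1 J, ∏ i ∈ Finset.range j, (1 - (i : ℝ) / m)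
          ≤ ∑ j ∈ Finset.Icc 1 J, (1 : ℝ) := Finset.sum_le_sum (fun j hj => ha1 j (by
            rw [Finset.mem_Icc] at hj ⊢; omega))
        _ = J := by simp
    have c2 : ∑ k ∈ Finset.range (m - J), ∏ i ∈ Finset.range (J + (k + 1)), (1 - (i : ℝ) / m) ≤
        J := by
      have d1 : ∑ k ∈ Finset.range (m - J), ∏ i ∈ Finset.range (J + (k + 1)), (1 - (i : ℝ) / m) ≤
          ∑ k ∈ Finset.range (m - J), x ^ k := by
        refine Finset.sum_le_sum fun k hk => ?_
        have hk' := Finset.mem_range.1 hk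
        refine (ha2 (k + 1) (by omega)).trans ?_
        rw [pow_succ]
        exact mul_le_of_le_one_right (pow_nonneg hx0 k) hx1.le
      have d2 : ∑ k ∈ Finset.range (m - J), x ^ k ≤ (1 - x)⁻¹ := by
        have hxn : (1 - x) ≠ 0 := by
          intro h0
          linarith
        have := geom_sum_eq hx1.ne (m - J)
        rw [this]
        rw [← neg_div_neg_eq, neg_sub, neg_sub, div_le_iff₀ (by linarith), inv_mul_cancel₀ hxn]
        linarith [pow_nonneg hx0 (m - J)]
      have d3 : (1 - x)⁻¹ ≤ J := by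
        have e1 : 1 - x = (J : ℝ) / m := by rw [hx]; ring
        rw [e1, inv_div, div_le_iff₀ hJ0']
        have : (m : ℝ) ≤ (J : ℝ) ^ 2 := by exact_mod_cast hJ
        nlinarith
      linarith
    linarith

/-- T5 (random maps, expectation bound). -/
theorem random_map_two {X : Type} [Fintype X] [DecidableEq X] [Nonempty X] (r : ℝ) (hr : 0 < r)
    (hr1 : r ≤ 1) (J : ℕ) (hJ : Fintype.card X ≤ J ^ 2) :
    r ^ (2 * J + 1) * (Fintype.card X : ℝ) ^ Fintype.card X ≤ ∑ φ : X → X, r ^ nper φ := by
  set m := Fintype.card X with hm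
  have hm0 : 0 < m := Fintype.card_pos
  have hm' : (0 : ℝ) < m := by exact_mod_cast hm0
  have h1 : (∑ φ : X → X, (nper φ : ℝ)) ≤ 2 * J * (m : ℝ) ^ m := by
    have h2 := T5_total (X := X)
    have h3 : ((∑ φ : X → X, nper φ : ℕ) : ℝ) ≤
        ((∑ j ∈ Finset.Icc 1 m, m ^ (m - j) * m.descFactorial j : ℕ) : ℝ) := by
      exact_mod_cast h2
    rw [Nat.cast_sum, Nat.cast_sum] at h3
    refine h3.trans ?_
    rw [Finset.sum_congr rfl (fun j hj => T5_desc m j hm0 (Finset.mem_Icc.1 hj).2),
      ← Finset.mul_sum]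
    have h4 := T5_sum m J hm0 hJ
    have h5 : (0 : ℝ) ≤ (m : ℝ) ^ m := by positivity
    nlinarith
  have hlog : Real.log r ≤ 0 := Real.log_nonpos hr.le hr1
  have h6 : ∀ φ : X → X, r ^ (2 * J) * (1 + ((nper φ : ℝ) - 2 * J) * Real.log r) ≤
      r ^ nper φ := by
    intro φ
    have e1 : r ^ nper φ = Real.exp ((nper φ : ℝ) * Real.log r) := by
      rw [mul_comm, Real.exp_mul, Real.exp_log hr, Real.rpow_natCast]
    have e2 : r ^ (2 * J) = Real.exp ((2 * J : ℝ) * Real.log r) := by
      have e0 : Real.exp ((2 * J : ℝ) * Real.log r) = r ^ (2 * J : ℝ) := by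
        rw [Real.rpow_def_of_pos hr, mul_comm]
      rw [e0]
      have : (2 * J : ℝ) = ((2 * J : ℕ) : ℝ) := by push_cast; ring
      rw [this, Real.rpow_natCast]
    have e3 : Real.exp ((nper φ : ℝ) * Real.log r) = Real.exp ((2 * J : ℝ) * Real.log r) *
        Real.exp (((nper φ : ℝ) - 2 * J) * Real.log r) := by
      rw [← Real.exp_add]; congr 1; ring
    rw [e1, e3, e2]
    refine mul_le_mul_of_nonneg_left ?_ (Real.exp_pos _).le
    have := Real.add_one_le_exp (((nper φ : ℝ) - 2 * J) * Real.log r)
    linarith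
  have h7 : ∑ φ : X → X, r ^ (2 * J) * (1 + ((nper φ : ℝ) - 2 * J) * Real.log r) ≤
      ∑ φ : X → X, r ^ nper φ := Finset.sum_le_sum fun φ _ => h6 φ
  refine le_trans ?_ h7
  rw [← Finset.mul_sum, Finset.sum_add_distrib, ← Finset.sum_mul, Finset.sum_sub_distrib]
  have hcard : (Finset.univ : Finset (X → X)).card = m ^ m := by
    rw [Finset.card_univ, Fintype.card_fun]
  rw [Finset.sum_const, Finset.sum_const, hcard, nsmul_eq_mul, nsmul_eq_mul]
  push_cast
  have h8 : ((∑ φ : X → X, (nper φ : ℝ)) - (m : ℝ) ^ m * (2 * J)) * Real.log r ≥ 0 := by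
    apply mul_nonneg_of_nonpos_of_nonpos _ hlog
    linarith
  have h9 : r ^ (2 * J + 1) ≤ r ^ (2 * J) := pow_le_pow_of_le_one hr.le hr1 (Nat.le_succ _)
  have h10 : (0 : ℝ) ≤ (m : ℝ) ^ m := by positivity
  calc r ^ (2 * J + 1) * (m : ℝ) ^ m ≤ r ^ (2 * J) * (m : ℝ) ^ m :=
        mul_le_mul_of_nonneg_right h9 h10
    _ ≤ r ^ (2 * J) * ((m : ℝ) ^ m * 1 +
        ((∑ φ : X → X, (nper φ : ℝ)) - (m : ℝ) ^ m * (2 * J)) * Real.log r) := by
        apply mul_le_mul_of_nonneg_left _ (pow_nonneg hr.le _)
        linarith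

end Pool.Agent.H927R2.RD
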