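import Pool.Agent.H927R2.RD.Defs

set_option autoImplicit false

/-!
T6: the number of self-maps with at most `J` periodic points (helper423).
-/

namespace Pool.Agent.H927R2.RD

namespace T6

open Finset

variable {X : Type}

/-- Iterating `f` from the point leaves the set `W`. -/
inductive Exits (f : X → X) (W : Set X) : X → Prop
  | out (z : X) (h : z ∉ W) : Exits f W z
  | step (z : X) (h : Exits f W (f z)) : Exits f W z

theorem exits_congr {f f' : X → X} {W : Set X} (h : ∀ z ∈ W, f z = f' z) {z : X}
    (hz : Exits f W z) : Exits f' W z := by
  induction hz with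
  | out z hz => exact .out z hz
  | step z hz ih =>
    by_cases hW : z ∈ W
    · exact .step z (by rw [← h z hW]; exact ih)
    · exact .out z hW

theorem exits_insert {f f' : X → X} {W : Set X} {x : X} [DecidableEq X]
    (hf' : ∀ z, f' z = if f z = x then f x else f z) :
    (∀ z, Exits f (insert x W) z) ↔ f x ≠ x ∧ ∀ z, Exits f' W z := by
  constructor
  · intro H
    have h1 : f x ≠ x := by
      intro hfx
      have : ∀ z, Exits f (insert x W) z → z ≠ x := by
        intro z hz
        induction hz with
        | out z hz => exact fun h => hz (by rw [h]; exact Set.mem_insert _ _)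
        | step z hz ih => exact fun h => ih (by rw [h, hfx])
      exact this x (H x) rfl
    refine ⟨h1, fun z => ?_⟩
    have key : ∀ z, Exits f (insert x W) z →
        Exits f' W z ∧ (z = x → Exits f' W (f x)) := by
      intro z hz
      induction hz with
      | out z hz =>
        exact ⟨.out z fun h => hz (Set.mem_insert_of_mem _ h),
          fun h => absurd (by rw [h]; exact Set.mem_insert _ _) hz⟩
      | step z hz ih =>
        refine ⟨.step z ?_, fun h => by rw [← h]; exact ih.1⟩
        rw [hf']
        split_ifs with h
        · exact ih.2 h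
        · exact ih.1
    exact (key z (H z)).1
  · rintro ⟨h1, H⟩
    have key : ∀ z, Exits f' W z → z ≠ x → Exits f (insert x W) z := by
      intro z hz
      induction hz with
      | out z hz => exact fun hzx => .out z (by simp [hz, hzx])
      | step z hz ih =>
        intro hzx
        rw [hf'] at ih
        split_ifs at ih with h
        · exact .step z (by rw [h]; exact .step x (ih h1))
        · exact .step z (ih h)
    intro z
    by_cases hzx : z = x
    · rw [hzx]
      exact .step x (key _ (H _) h1)
    · exact key z (H z) hzx

variable [Fintype X] [DecidableEq X]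

theorem sum_update (F : (X → X) → ℕ) (x : X) :
    Fintype.card X * ∑ g : X → X, F g = ∑ g : X → X, ∑ c : X, F (Function.update g x c) := by
  have h1 : ∑ g : X → X, ∑ c : X, F (Function.update g x c)
      = ∑ q : (X → X) × X, F (Function.update q.1 x q.2) := by
    rw [Fintype.sum_prod_type]
  have h2 : Fintype.card X * ∑ g : X → X, F g = ∑ q : (X → X) × X, F q.1 := by
    rw [Fintype.sum_prod_type]
    simp [Finset.mul_sum]
  rw [h1, h2]
  have hinv : Function.Involutive
      (fun q : (X → X) × X => (Function.update q.1 x q.2, q.1 x)) := by
    rintro ⟨g, c⟩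
    simp
  exact (Fintype.sum_equiv hinv.toPerm _ _ (fun q => rfl)).symm

open Classical in
theorem forest (W : Finset X) : ∀ π : X → X,
    Fintype.card X * (univ.filter fun g : X → X => ∀ z, Exits (fun y => π (g y)) W z).card
      = (univ.filter fun z => π z ∉ W).card * Fintype.card X ^ Fintype.card X := by
  induction W using Finset.induction_on with
  | empty =>
    intro π
    have h1 : (univ.filter fun g : X → X =>
        ∀ z, Exits (fun y => π (g y)) (∅ : Finset X) z) = univ :=
      Finset.filter_true_of_mem fun g _ z => .out z (by simp)
    have h2 : (univ.filter fun z => π z ∉ (∅ : Finset X)) = univ :=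
      Finset.filter_true_of_mem fun z _ => by simp
    rw [h1, h2, Finset.card_univ, Finset.card_univ, Fintype.card_fun]
  | insert x W hx ih =>
    intro π
    by_cases hm : Fintype.card X = 0
    · exact absurd (Fintype.card_pos_iff.mpr ⟨x⟩) (by omega)
    have hm' : 0 < Fintype.card X := Nat.pos_of_ne_zero hm
    apply Nat.eq_of_mul_eq_mul_left hm'
    set m := Fintype.card X with hmdef
    -- the contracted root maps
    let π' : X → X → X := fun c z => if π z = x then π c else π z
    have step1 : m * (univ.filter fun g : X → X =>
        ∀ z, Exits (fun y => π (g y)) (insert x W : Finset X) z).card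
        = ∑ c ∈ univ.filter (fun c => π c ≠ x),
          (univ.filter fun g : X → X => ∀ z, Exits (fun y => π' c (g y)) W z).card := by
      rw [Finset.card_filter, sum_update _ x, Finset.sum_comm, Finset.sum_filter]
      refine Finset.sum_congr rfl fun c _ => ?_
      have hiff : ∀ g : X → X, (∀ z, Exits (fun y => π (Function.update g x c y))
          (insert x W : Finset X) z) ↔ π c ≠ x ∧ ∀ z, Exits (fun y => π' c (g y)) W z := by
        intro g
        rw [Finset.coe_insert]
        rw [exits_insert (f' := fun y => π' c (Function.update g x c y)) (x := x)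
          (by intro z; simp [π'])]
        simp only [Function.update_self]
        refine and_congr_right fun _ => forall_congr' fun z => ?_
        constructor
        · intro h
          refine exits_congr ?_ h
          intro z hz
          have : z ≠ x := fun h => hx (by rw [← h]; exact_mod_cast hz)
          simp [this]
        · intro h
          refine exits_congr ?_ h
          intro z hz
          have : z ≠ x := fun h => hx (by rw [← h]; exact_mod_cast hz)
          simp [this]
      simp only [hiff]
      by_cases hc : π c ≠ x
      · rw [if_pos hc, Finset.card_filter]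
        refine Finset.sum_congr rfl fun g _ => ?_
        simp only [hc, ne_eq, not_false_eq_true, true_and]
      · rw [if_neg hc]
        refine Finset.sum_eq_zero fun g _ => ?_
        rw [if_neg]
        exact fun h => hc h.1
    have step2 : m * (m * (univ.filter fun g : X → X =>
        ∀ z, Exits (fun y => π (g y)) (insert x W : Finset X) z).card)
        = ∑ c ∈ univ.filter (fun c => π c ≠ x),
          (univ.filter fun z => π' c z ∉ W).card * m ^ m := by
      rw [step1, Finset.mul_sum]
      exact Finset.sum_congr rfl fun c _ => ih (π' c)
    have step3 : ∑ c ∈ univ.filter (fun c => π c ≠ x), (univ.filter fun z => π' c z ∉ W).card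
        = m * (univ.filter fun z => π z ∉ insert x W).card := by
      have h1 : ∀ c ∈ univ.filter (fun c => π c ≠ x), (univ.filter fun z => π' c z ∉ W).card
          = (univ.filter fun z => π z ∉ insert x W).card
            + if π c ∉ W then (univ.filter fun z => π z = x).card else 0 := by
        intro c hc
        have hc' : π c ≠ x := (Finset.mem_filter.mp hc).2
        have e1 : (univ.filter fun z => π' c z ∉ W)
            = (univ.filter fun z => π z ∉ insert x W) ∪
              (univ.filter fun z => π z = x ∧ π c ∉ W) := by
          ext z
          simp only [Finset.mem_filter, Finset.mem_univ, true_and, Finset.mem_union,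
            Finset.mem_insert, π']
          by_cases hz : π z = x
          · simp [hz]
          · simp [hz]
        rw [e1, Finset.card_union_of_disjoint]
        · congr 1
          by_cases h : π c ∈ W
          · simp [h]
          · simp [h]
        · rw [Finset.disjoint_filter]
          rintro z - h1 ⟨h2, -⟩
          exact h1 (by rw [h2]; exact Finset.mem_insert_self _ _)
      rw [Finset.sum_congr rfl h1, Finset.sum_add_distrib, Finset.sum_const, smul_eq_mul,
        ← Finset.sum_filter, Finset.sum_const, smul_eq_mul, Finset.filter_filter]
      have e2 : (univ.filter fun c => π c ≠ x ∧ π c ∉ W)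
          = univ.filter fun z => π z ∉ insert x W := by
        ext z
        simp [Finset.mem_insert, not_or]
      rw [e2]
      have e3 : (univ.filter fun c => π c ≠ x).card + (univ.filter fun z => π z = x).card
          = m := by
        have := Finset.card_filter_add_card_filter_not (s := (univ : Finset X))
          (fun c => π c = x)
        rw [Finset.card_univ] at this
        rw [add_comm]
        exact this
      rw [mul_comm ((univ.filter fun z => π z ∉ insert x W).card)
        ((univ.filter fun z => π z = x).card), ← add_mul, e3]
    rw [step2, ← Finset.sum_mul, step3, mul_assoc]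

/-- The map which is a permutation on `C` and `g` elsewhere. -/
def glue (C : Finset X) (σ : Equiv.Perm C) (g : X → X) : X → X :=
  fun z => if h : z ∈ C then (σ ⟨z, h⟩ : X) else g z

omit [Fintype X] in
theorem glue_mem {C : Finset X} (σ : Equiv.Perm C) (g : X → X) (z : X) (h : z ∈ C) :
    glue C σ g z ∈ C := by
  unfold glue
  rw [dif_pos h]
  exact (σ ⟨z, h⟩).2

omit [Fintype X] in
theorem iter_mem {C : Finset X} (σ : Equiv.Perm C) (g : X → X) (n : ℕ) :
    ∀ z ∈ C, (glue C σ g)^[n] z ∈ C := by
  induction n with
  | zero => intro z h; exact h
  | succ n ih =>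
    intro z h
    rw [Function.iterate_succ_apply]
    exact ih _ (glue_mem σ g z h)

omit [Fintype X] in
theorem exists_iter {C : Finset X} (σ : Equiv.Perm C) (g : X → X) {z : X}
    (h : Exits g ((C : Set X)ᶜ) z) : ∃ n, (glue C σ g)^[n] z ∈ C := by
  induction h with
  | out z hz => exact ⟨0, by simpa using hz⟩
  | step z _ ih =>
    obtain ⟨n, hn⟩ := ih
    by_cases hz : z ∈ C
    · exact ⟨0, hz⟩
    · refine ⟨n + 1, ?_⟩
      rw [Function.iterate_succ_apply]
      have : glue C σ g z = g z := by unfold glue; rw [dif_neg hz]
      rw [this]
      exact hn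

omit [Fintype X] in
theorem periodicPts_glue {C : Finset X} (σ : Equiv.Perm C) (g : X → X)
    (h : ∀ z, Exits g ((C : Set X)ᶜ) z) :
    Function.periodicPts (glue C σ g) = (C : Set X) := by
  ext z
  constructor
  · rintro ⟨p, hp, hz⟩
    obtain ⟨n, hn⟩ := exists_iter σ g (h z)
    have h1 : (glue C σ g)^[n * p] z = z := by
      have := hz.const_mul n
      exact this
    have h2 : n * p = (n * p - n) + n := by
      have : n ≤ n * p := Nat.le_mul_of_pos_right n hp
      omega
    rw [h2, Function.iterate_add_apply] at h1
    have h3 := iter_mem σ g (n * p - n) _ hn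
    rw [h1] at h3
    exact_mod_cast h3
  · intro hz
    have hz' : z ∈ C := by exact_mod_cast hz
    have hs : Function.Semiconj (Subtype.val : C → X) σ (glue C σ g) := by
      rintro ⟨y, hy⟩
      simp [glue, hy]
    have h1 : (⟨z, hz'⟩ : C) ∈ Function.periodicPts σ := σ.injective.mem_periodicPts _
    exact hs.mapsTo_periodicPts h1

open Classical in
theorem card_core_ge (C : Finset X) :
    Nat.factorial C.card * (univ.filter fun g : X → X => ∀ z, Exits g ((C : Set X)ᶜ) z).card
      ≤ Fintype.card X ^ C.card *
        (univ.filter fun φ : X → X => Function.periodicPts φ = (C : Set X)).card := by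
  have h1 : Nat.factorial C.card = Fintype.card (Equiv.Perm C) := by
    rw [Fintype.card_perm, Fintype.card_coe]
  have h2 : Fintype.card X ^ C.card = Fintype.card (C → X) := by
    rw [Fintype.card_fun, Fintype.card_coe]
  rw [h1, h2, ← Finset.card_univ, ← Finset.card_univ, ← Finset.card_product,
    ← Finset.card_product]
  refine Finset.card_le_card_of_injOn
    (fun q : Equiv.Perm C × (X → X) => ((fun y : C => q.2 y), glue C q.1 q.2)) ?_ ?_
  · rintro ⟨σ, g⟩ hq
    have hq' : ∀ z, Exits g ((C : Set X)ᶜ) z := by simpa using hq
    simp only [Finset.coe_product, Finset.coe_univ, Finset.coe_filter, Finset.mem_univ,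
      true_and, Set.mem_prod, Set.mem_univ, Set.mem_setOf_eq]
    exact periodicPts_glue σ g hq'
  · rintro ⟨σ, g⟩ _ ⟨σ', g'⟩ _ h
    simp only [Prod.mk.injEq] at h
    obtain ⟨ha, hb⟩ := h
    have h1 : σ = σ' := by
      ext ⟨y, hy⟩
      have := congrFun hb y
      simpa [glue, hy] using this
    have h2 : g = g' := by
      funext z
      by_cases hz : z ∈ C
      · exact congrFun ha ⟨z, hz⟩
      · have := congrFun hb z
        simpa [glue, hz] using this
    rw [h1, h2]

open Classical in
theorem card_core_ge' [Nonempty X] (C : Finset X) :
    (Nat.factorial C.card * C.card : ℝ) * (Fintype.card X : ℝ) ^ Fintype.card X /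
        ((Fintype.card X : ℝ) ^ C.card * Fintype.card X)
      ≤ ((univ.filter fun φ : X → X => Function.periodicPts φ = (C : Set X)).card : ℝ) := by
  have h1 := card_core_ge C
  have h2 := forest (Cᶜ) (id : X → X)
  have hm : 0 < Fintype.card X := Fintype.card_pos
  have e1 : (univ.filter fun z : X => id z ∉ Cᶜ) = C := by
    ext z; simp
  rw [e1] at h2
  simp only [id_eq, Finset.coe_compl] at h2
  have hm' : (0 : ℝ) < Fintype.card X := by exact_mod_cast hm
  rw [div_le_iff₀ (by positivity)]
  have h1' : (Nat.factorial C.card : ℝ) *
      (univ.filter fun g : X → X => ∀ z, Exits g ((C : Set X)ᶜ) z).card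
      ≤ (Fintype.card X : ℝ) ^ C.card *
        (univ.filter fun φ : X → X => Function.periodicPts φ = (C : Set X)).card := by
    exact_mod_cast h1
  have h2' : (Fintype.card X : ℝ) *
      (univ.filter fun g : X → X => ∀ z, Exits g ((C : Set X)ᶜ) z).card
      = C.card * (Fintype.card X : ℝ) ^ Fintype.card X := by
    exact_mod_cast h2
  calc (Nat.factorial C.card * C.card : ℝ) * (Fintype.card X : ℝ) ^ Fintype.card X
      = (Nat.factorial C.card : ℝ) * (C.card * (Fintype.card X : ℝ) ^ Fintype.card X) := by ring
    _ = (Fintype.card X : ℝ) * ((Nat.factorial C.card : ℝ) *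
        (univ.filter fun g : X → X => ∀ z, Exits g ((C : Set X)ᶜ) z).card) := by
        rw [← h2']; ring
    _ ≤ (Fintype.card X : ℝ) * ((Fintype.card X : ℝ) ^ C.card *
        (univ.filter fun φ : X → X => Function.periodicPts φ = (C : Set X)).card) :=
        mul_le_mul_of_nonneg_left h1' hm'.le
    _ = _ := by ring

theorem descFactorial_eq [Nonempty X] (j : ℕ) :
    ((Fintype.card X).descFactorial j : ℝ)
      = (Fintype.card X : ℝ) ^ j * ∏ i ∈ Finset.range j, (1 - (i : ℝ) / Fintype.card X) := by
  have hm : (Fintype.card X : ℝ) ≠ 0 := by
    exact_mod_cast (Fintype.card_pos : 0 < Fintype.card X).ne'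
  induction j with
  | zero => simp
  | succ j ih =>
    rw [Nat.descFactorial_succ, Finset.prod_range_succ, pow_succ]
    by_cases hj : j ≤ Fintype.card X
    · rw [Nat.cast_mul, ih, Nat.cast_sub hj]
      field_simp
    · have h0 : (Fintype.card X).descFactorial j = 0 :=
        Nat.descFactorial_eq_zero_iff_lt.mpr (by omega)
      rw [h0, Nat.cast_zero] at ih
      have h3 : ∏ i ∈ Finset.range j, (1 - (i : ℝ) / Fintype.card X) = 0 := by
        rcases mul_eq_zero.mp ih.symm with h | h
        · exact absurd h (pow_ne_zero _ hm)
        · exact h
      rw [h0, h3]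
      simp

open Classical in
/-- The number of maps with exactly `k` periodic points. -/
theorem card_nper_ge [Nonempty X] (k : ℕ) :
    ((Fintype.card X : ℝ) ^ Fintype.card X) *
        (∏ i ∈ Finset.range k, (1 - (i : ℝ) / Fintype.card X)) * (k / Fintype.card X)
      ≤ ((univ.filter fun φ : X → X => nper φ = k).card : ℝ) := by
  have hm : (0 : ℝ) < Fintype.card X := by
    exact_mod_cast (Fintype.card_pos : 0 < Fintype.card X)
  have h1 : ∑ C ∈ Finset.powersetCard k (univ : Finset X),
      (univ.filter fun φ : X → X => Function.periodicPts φ = (C : Set X)).card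
      ≤ (univ.filter fun φ : X → X => nper φ = k).card := by
    rw [← Finset.card_biUnion]
    · apply Finset.card_le_card
      intro φ hφ
      simp only [Finset.mem_biUnion, Finset.mem_filter, Finset.mem_univ, true_and,
        Finset.mem_powersetCard, Finset.subset_univ] at hφ ⊢
      obtain ⟨C, hC, hφC⟩ := hφ
      unfold nper
      rw [hφC, Set.ncard_coe_finset, hC]
    · intro C _ C' _ hCC
      rw [Function.onFun, Finset.disjoint_filter]
      intro φ _ h1 h2
      apply hCC
      have : (C : Set X) = C' := by rw [← h1, ← h2]
      exact_mod_cast this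
  have h2 : (∑ C ∈ Finset.powersetCard k (univ : Finset X),
      ((univ.filter fun φ : X → X => Function.periodicPts φ = (C : Set X)).card : ℝ))
      ≤ ((univ.filter fun φ : X → X => nper φ = k).card : ℝ) := by exact_mod_cast h1
  refine le_trans ?_ h2
  have h3 : ∀ C ∈ Finset.powersetCard k (univ : Finset X),
      (Nat.factorial k * k : ℝ) * (Fintype.card X : ℝ) ^ Fintype.card X /
        ((Fintype.card X : ℝ) ^ k * Fintype.card X)
      ≤ ((univ.filter fun φ : X → X => Function.periodicPts φ = (C : Set X)).card : ℝ) := by
    intro C hC
    have hk : C.card = k := (Finset.mem_powersetCard.mp hC).2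
    have := card_core_ge' C
    rwa [hk] at this
  refine le_trans ?_ (Finset.sum_le_sum h3)
  rw [Finset.sum_const, Finset.card_powersetCard, Finset.card_univ, nsmul_eq_mul]
  have h4 : ((Fintype.card X).choose k : ℝ) * Nat.factorial k
      = (Fintype.card X : ℝ) ^ k * ∏ i ∈ Finset.range k, (1 - (i : ℝ) / Fintype.card X) := by
    rw [← descFactorial_eq, Nat.descFactorial_eq_factorial_mul_choose]
    push_cast
    ring
  have h5 : ((Fintype.card X).choose k : ℝ) * ((Nat.factorial k * k : ℝ) *
      (Fintype.card X : ℝ) ^ Fintype.card X / ((Fintype.card X : ℝ) ^ k * Fintype.card X))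
      = (((Fintype.card X).choose k : ℝ) * Nat.factorial k) * k *
        (Fintype.card X : ℝ) ^ Fintype.card X / ((Fintype.card X : ℝ) ^ k * Fintype.card X) := by
    ring
  rw [h5, h4]
  apply le_of_eq
  field_simp

end T6

/-- T6 (random maps, few periodic points; by counting forests). -/
theorem random_map_three {X : Type} [Fintype X] [DecidableEq X] [Nonempty X] (J : ℕ) :
    (1 - ∏ i ∈ Finset.range (J + 1), (1 - (i : ℝ) / Fintype.card X)) *
        (Fintype.card X : ℝ) ^ Fintype.card X ≤
      ((Finset.univ.filter fun φ : X → X => nper φ ≤ J).card : ℝ) := by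
  classical
  induction J with
  | zero => simp
  | succ J ih =>
    have h1 := T6.card_nper_ge (X := X) (J + 1)
    have h2 : ((Finset.univ.filter fun φ : X → X => nper φ ≤ J + 1).card : ℝ)
        = ((Finset.univ.filter fun φ : X → X => nper φ ≤ J).card : ℝ)
          + ((Finset.univ.filter fun φ : X → X => nper φ = J + 1).card : ℝ) := by
      rw [← Nat.cast_add, ← Finset.card_union_of_disjoint]
      · congr 2
        ext φ
        simp only [Finset.mem_filter, Finset.mem_univ, true_and, Finset.mem_union]
        omega
      · rw [Finset.disjoint_filter]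
        intro φ _ h3 h4
        omega
    have h6 : ((Finset.univ.filter fun φ : X → X => nper φ = J + 1).card : ℝ) ≥
        ((Fintype.card X : ℝ) ^ Fintype.card X) *
        (∏ i ∈ Finset.range (J + 1), (1 - (i : ℝ) / Fintype.card X)) *
          (((J + 1 : ℕ) : ℝ) / Fintype.card X) := by
      convert h1 using 3
    rw [Finset.prod_range_succ]
    convert le_trans (le_trans (le_of_eq ?_) (add_le_add ih h6)) (le_of_eq h2.symm) using 1
    ring

end Pool.Agent.H927R2.RD
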