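import Pool.Agent.H927R2.RD.Defs

set_option autoImplicit false

/-! T7: numerics -/

namespace Pool.Agent.H927R2.RD

open MvPolynomial Pool.Agent.H936R2

open scoped LinearAlgebra.Projectivization

theorem T7_base (p : ℕ) (hp : 2 ≤ p) : (1 / 8 : ℝ) ≤ (1 - 1 / (p : ℝ)) ^ p := by
  have hp' : (2 : ℝ) ≤ p := by exact_mod_cast hp
  have h1 : (0 : ℝ) < (p : ℝ) - 1 := by linarith
  have h2 : Real.exp (-(1 / ((p : ℝ) - 1))) ≤ 1 - 1 / (p : ℝ) := by
    rw [Real.exp_neg, inv_le_comm₀ (Real.exp_pos _)]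
    · have h3 := Real.add_one_le_exp (1 / ((p : ℝ) - 1))
      have h4 : (1 - 1 / (p : ℝ))⁻¹ = 1 / ((p : ℝ) - 1) + 1 := by
        field_simp
        ring
      rw [h4]
      exact h3
    · have : 1 / (p : ℝ) ≤ 1 / 2 := one_div_le_one_div_of_le (by norm_num) hp'
      linarith
  have h5 : Real.exp (-2) ≤ (1 - 1 / (p : ℝ)) ^ p := by
    calc Real.exp (-2) ≤ Real.exp (p * (-(1 / ((p : ℝ) - 1)))) := by
          apply Real.exp_le_exp.2
          have : (p : ℝ) * (1 / ((p : ℝ) - 1)) ≤ 2 := by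
            rw [mul_one_div, div_le_iff₀ h1]
            linarith
          linarith
      _ = Real.exp (-(1 / ((p : ℝ) - 1))) ^ p := by rw [← Real.exp_nat_mul]
      _ ≤ _ := pow_le_pow_left₀ (Real.exp_pos _).le h2 p
  refine le_trans ?_ h5
  rw [Real.exp_neg, one_div]
  apply inv_anti₀ (Real.exp_pos _)
  have h6 : Real.exp 2 = Real.exp 1 * Real.exp 1 := by
    rw [← Real.exp_add]
    norm_num
  rw [h6]
  have h7 := Real.exp_one_lt_d9
  have h8 := Real.exp_pos 1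
  nlinarith

theorem T7_q (p : ℕ) (hp : 2 ≤ p) : 0 < 1 - 1 / (p : ℝ) ∧ 1 - 1 / (p : ℝ) ≤ 1 := by
  have hp' : (2 : ℝ) ≤ p := by exact_mod_cast hp
  have : 1 / (p : ℝ) ≤ 1 / 2 := one_div_le_one_div_of_le (by norm_num) hp'
  have h0 : 0 < 1 / (p : ℝ) := by positivity
  constructor <;> linarith

theorem T7_le (p k : ℕ) (hp : 2 ≤ p) (hk : 1 ≤ k) : 1 - 1 / (p : ℝ) ≤ 1 - 1 / (p : ℝ) ^ k := by
  have hp' : (2 : ℝ) ≤ p := by exact_mod_cast hp
  have h1 : (p : ℝ) ≤ (p : ℝ) ^ k := le_self_pow₀ (by linarith) (by omega)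
  have := one_div_le_one_div_of_le (by linarith : (0 : ℝ) < p) h1
  linarith

/-- T7a (numerics for the plane). -/
theorem const_two (p : ℕ) (hp : 2 ≤ p) :
    (1 / 4 : ℝ) ^ 30 ≤ (1 - 1 / (p : ℝ) ^ 3) ^ (p ^ 2 + p + 1) * rr p 3 ^ (2 * (p + 1) + 1) := by
  have hp' : (2 : ℝ) ≤ p := by exact_mod_cast hp
  obtain ⟨hq0, hq1⟩ := T7_q p hp
  have hb := T7_base p hp
  set q : ℝ := 1 - 1 / (p : ℝ) with hq
  have hA : (1 / 8 : ℝ) ≤ (1 - 1 / (p : ℝ) ^ 3) ^ (p ^ 2 + p + 1) := by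
    have h0 : (1 : ℝ) / (p : ℝ) ^ 3 ≤ 1 := by
      rw [div_le_one (by positivity)]
      exact one_le_pow₀ (by linarith)
    have h1 := one_add_mul_le_pow (a := -(1 / (p : ℝ) ^ 3)) (by linarith) (p ^ 2 + p + 1)
    rw [← sub_eq_add_neg] at h1
    refine le_trans ?_ h1
    push_cast
    have h2 : ((p : ℝ) ^ 2 + p + 1) * (1 / (p : ℝ) ^ 3) ≤ 7 / 8 := by
      rw [mul_one_div, div_le_div_iff₀ (by positivity) (by norm_num)]
      nlinarith [mul_nonneg (by linarith : (0 : ℝ) ≤ (p : ℝ) - 2) (sq_nonneg (p : ℝ))]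
    linarith
  have hrr : q ^ 2 ≤ rr p 3 := by
    have h1 : rr p 3 = (1 - 1 / (p : ℝ)) * (1 - 1 / (p : ℝ) ^ 2) := by
      unfold rr
      rw [show 3 - 1 = 2 from rfl, Finset.prod_range_succ, Finset.prod_range_one]
      norm_num
    rw [h1, ← hq, sq]
    exact mul_le_mul_of_nonneg_left (T7_le p 2 hp (by norm_num)) hq0.le
  have hR : (1 / 8 : ℝ) ^ 7 ≤ rr p 3 ^ (2 * (p + 1) + 1) := by
    calc (1 / 8 : ℝ) ^ 7 ≤ (q ^ p) ^ 7 := pow_le_pow_left₀ (by norm_num) hb 7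
      _ = q ^ (p * 7) := by rw [← pow_mul]
      _ ≤ q ^ (2 * (2 * (p + 1) + 1)) := pow_le_pow_of_le_one hq0.le hq1 (by omega)
      _ = (q ^ 2) ^ (2 * (p + 1) + 1) := by rw [← pow_mul]
      _ ≤ _ := pow_le_pow_left₀ (by positivity) hrr _
  calc (1 / 4 : ℝ) ^ 30 ≤ (1 / 8) * (1 / 8 : ℝ) ^ 7 := by norm_num
    _ ≤ _ := mul_le_mul hA hR (by positivity) (by linarith)

/-- T7b (numerics for 3-space). -/
theorem const_three (p : ℕ) (hp : 2 ≤ p) :
    (1 / 4 : ℝ) ^ 10 / p ≤ (1 - 1 / (p : ℝ) ^ 4) ^ (p ^ 3 + p ^ 2 + p + 1) * rr p 4 ^ p *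
      (1 - ∏ i ∈ Finset.range (p + 1), (1 - (i : ℝ) / (p ^ 3 + p ^ 2 + p + 1 : ℕ))) := by
  have hp' : (2 : ℝ) ≤ p := by exact_mod_cast hp
  obtain ⟨hq0, hq1⟩ := T7_q p hp
  have hb := T7_base p hp
  set q : ℝ := 1 - 1 / (p : ℝ) with hq
  have hA : (1 / 16 : ℝ) ≤ (1 - 1 / (p : ℝ) ^ 4) ^ (p ^ 3 + p ^ 2 + p + 1) := by
    have h0 : (1 : ℝ) / (p : ℝ) ^ 4 ≤ 1 := by
      rw [div_le_one (by positivity)]
      exact one_le_pow₀ (by linarith)
    have h1 := one_add_mul_le_pow (a := -(1 / (p : ℝ) ^ 4)) (by linarith) (p ^ 3 + p ^ 2 + p + 1)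
    rw [← sub_eq_add_neg] at h1
    refine le_trans ?_ h1
    push_cast
    have h2 : ((p : ℝ) ^ 3 + (p : ℝ) ^ 2 + p + 1) * (1 / (p : ℝ) ^ 4) ≤ 15 / 16 := by
      rw [mul_one_div, div_le_div_iff₀ (by positivity) (by norm_num)]
      have e1 : 0 ≤ ((p : ℝ) - 2) * (p : ℝ) ^ 3 := mul_nonneg (by linarith) (by positivity)
      have e2 : 0 ≤ ((p : ℝ) - 2) * (p : ℝ) ^ 2 := mul_nonneg (by linarith) (by positivity)
      have e3 : 0 ≤ ((p : ℝ) - 2) * (p : ℝ) := mul_nonneg (by linarith) (by positivity)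
      nlinarith
    linarith
  have hrr : q ^ 3 ≤ rr p 4 := by
    have h1 : rr p 4 = (1 - 1 / (p : ℝ)) * (1 - 1 / (p : ℝ) ^ 2) * (1 - 1 / (p : ℝ) ^ 3) := by
      unfold rr
      rw [show 4 - 1 = 3 from rfl, Finset.prod_range_succ, Finset.prod_range_succ,
        Finset.prod_range_one]
      norm_num
    rw [h1, ← hq]
    have h2 := T7_le p 2 hp (by norm_num)
    have h3 := T7_le p 3 hp (by norm_num)
    rw [← hq] at h2 h3
    calc q ^ 3 = q * q * q := by ring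
      _ ≤ q * (1 - 1 / (p : ℝ) ^ 2) * (1 - 1 / (p : ℝ) ^ 3) :=
        mul_le_mul (mul_le_mul_of_nonneg_left h2 hq0.le) h3 hq0.le
          (mul_nonneg hq0.le (hq0.le.trans h2))
  have hR : (1 / 8 : ℝ) ^ 3 ≤ rr p 4 ^ p := by
    calc (1 / 8 : ℝ) ^ 3 ≤ (q ^ p) ^ 3 := pow_le_pow_left₀ (by norm_num) hb 3
      _ = (q ^ 3) ^ p := by rw [← pow_mul, ← pow_mul, mul_comm]
      _ ≤ _ := pow_le_pow_left₀ (by positivity) hrr _
  set m : ℝ := ((p ^ 3 + p ^ 2 + p + 1 : ℕ) : ℝ) with hm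
  have hmval : m = (p : ℝ) ^ 3 + (p : ℝ) ^ 2 + p + 1 := by rw [hm]; push_cast; ring
  have hmpos : 0 < m := by rw [hmval]; positivity
  have hmle : m ≤ 2 * (p : ℝ) ^ 3 := by
    rw [hmval]
    have e2 : 0 ≤ ((p : ℝ) - 2) * (p : ℝ) ^ 2 := mul_nonneg (by linarith) (by positivity)
    have e3 : 0 ≤ ((p : ℝ) - 2) * (p : ℝ) := mul_nonneg (by linarith) (by positivity)
    nlinarith
  have hprod : ∏ i ∈ Finset.range (p + 1), (1 - (i : ℝ) / m) ≤ 1 - 1 / (8 * (p : ℝ)) := by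
    have h1 : ∏ i ∈ Finset.range (p + 1), (1 - (i : ℝ) / m) ≤
        ∏ i ∈ Finset.range (p + 1), Real.exp (-((i : ℝ) / m)) := by
      apply Finset.prod_le_prod
      · intro i hi
        rw [Finset.mem_range] at hi
        have h2 : (i : ℝ) ≤ p := by exact_mod_cast (by omega : i ≤ p)
        have h3 : (i : ℝ) / m ≤ 1 := by
          rw [div_le_one hmpos, hmval]
          nlinarith [sq_nonneg (p : ℝ), pow_pos (by linarith : (0 : ℝ) < p) 3]
        linarith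
      · intro i _
        have := Real.add_one_le_exp (-((i : ℝ) / m))
        linarith
    rw [← Real.exp_sum, Finset.sum_neg_distrib, ← Finset.sum_div] at h1
    have hsum : ∑ i ∈ Finset.range (p + 1), (i : ℝ) = (p : ℝ) * (p + 1) / 2 := by
      have h2 := Finset.sum_range_id_mul_two (p + 1)
      have h3 : ((∑ i ∈ Finset.range (p + 1), i : ℕ) : ℝ) * 2 = ((p : ℝ) + 1) * p := by
        have h4 : ((((∑ i ∈ Finset.range (p + 1), i) * 2 : ℕ)) : ℝ) =
            (((p + 1) * (p + 1 - 1) : ℕ) : ℝ) := by rw [h2]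
        rw [Nat.add_sub_cancel] at h4
        push_cast at h4 ⊢
        exact h4
      push_cast at h3
      linarith
    rw [hsum] at h1
    set x : ℝ := 1 / (4 * (p : ℝ)) with hx
    have hx0 : 0 ≤ x := by positivity
    have hx1 : x ≤ 1 := by
      rw [hx, div_le_one (by positivity)]
      linarith
    have h5 : x ≤ (p : ℝ) * (p + 1) / 2 / m := by
      rw [hx, div_le_div_iff₀ (by positivity) hmpos]
      nlinarith [sq_nonneg (p : ℝ)]
    have h6 : Real.exp (-((p : ℝ) * (p + 1) / 2 / m)) ≤ Real.exp (-x) :=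
      Real.exp_le_exp.2 (by linarith)
    have h7 : Real.exp (-x) ≤ 1 - x / 2 := by
      rw [Real.exp_neg, inv_le_comm₀ (Real.exp_pos _) (by linarith)]
      have h8 := Real.add_one_le_exp x
      refine le_trans ?_ h8
      rw [inv_le_comm₀ (by linarith) (by linarith)]
      rw [← one_div, div_le_iff₀ (by linarith)]
      nlinarith
    have h9 : x / 2 = 1 / (8 * (p : ℝ)) := by
      rw [hx]
      field_simp
      norm_num
    rw [← h9]
    linarith
  have hlast : 1 / (8 * (p : ℝ)) ≤ 1 - ∏ i ∈ Finset.range (p + 1), (1 - (i : ℝ) / m) := by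
    linarith
  calc (1 / 4 : ℝ) ^ 10 / p ≤ (1 / 16) * (1 / 8 : ℝ) ^ 3 * (1 / (8 * (p : ℝ))) := by
        have : (1 / 16 : ℝ) * (1 / 8 : ℝ) ^ 3 * (1 / (8 * (p : ℝ))) = (1 / 2 ^ 16) / p := by
          field_simp
          norm_num
        rw [this]
        apply div_le_div_of_nonneg_right _ (by linarith)
        norm_num
    _ ≤ _ := by
        apply mul_le_mul _ hlast (by positivity) _
        · exact mul_le_mul hA hR (by positivity) (by linarith)
        · have : 0 ≤ rr p 4 := le_trans (by positivity) hrr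
          positivity

/-- T7c (number of points). -/
theorem card_PP (p n : ℕ) [Fact p.Prime] (hn : 0 < n) :
    Nat.card (PP p n) = ∑ i ∈ Finset.range n, p ^ i := by
  have h := Projectivization.card_of_finrank (ZMod p) (Fin n → ZMod p) (n := n) (by simp)
  rw [Nat.card_zmod] at h
  exact h

end Pool.Agent.H927R2.RD
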