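import Pool.Agent.H927R2.RD.Box
import Pool.Agent.H927R2.RD.Coeff
import Pool.Agent.H927R2.RD.T3
import Pool.Agent.H927R2.RD.T3b
import Pool.Agent.H927R2.RD.T4
import Pool.Agent.H927R2.RD.T5
import Pool.Agent.H927R2.RD.T6
import Pool.Agent.H927R2.RD.T7

set_option autoImplicit false

/-! Densities of systems of forms, and the probability of a good reduction. -/

namespace Pool.Agent.H927R2.RD

open MvPolynomial Pool.Agent.H936R2 Filter

theorem density_lemma (n d : ℕ) (Q : (Fin n → MvPolynomial (Fin n) ℤ) → Prop) (P : Finset ℕ)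
    (hP : ∀ p ∈ P, p.Prime) (G : ∀ p : ℕ, Set (Idx n d → ZMod p)) (δ : ℕ → ℝ)
    (hδ : ∀ p ∈ P, δ p ≤ 1)
    (hG : ∀ p ∈ P, δ p * (p : ℝ) ^ Fintype.card (Idx n d) ≤ (Nat.card (G p) : ℝ))
    (hQ : ∀ v : Idx n d → ℤ, ∀ p ∈ P, (fun i => (v i : ZMod p)) ∈ G p →
      Q (sys fun i κ => v (i, κ))) :
    ∃ H₀ : ℕ, ∀ H : ℕ, H₀ ≤ H →
      (({F | F ∈ Box n d H ∧ ¬ Q F} : Set (Fin n → MvPolynomial (Fin n) ℤ)).ncard : ℝ) ≤
        2 * (∏ p ∈ P, (1 - δ p)) * ((Box n d H).ncard : ℝ) := by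
  classical
  set I := Fintype.card (Idx n d) with hI
  set M : ℝ := ∏ p ∈ P, (p : ℝ) with hM
  have hM0 : 0 ≤ M := Finset.prod_nonneg fun p _ => Nat.cast_nonneg p
  have hlim : Tendsto (fun H : ℕ => ((2 * H + 1 : ℝ) + M) ^ I / (2 * H + 1 : ℝ) ^ I) atTop
      (nhds 1) := by
    have h1 : Tendsto (fun H : ℕ => (1 + M / (2 * H + 1 : ℝ)) ^ I) atTop (nhds ((1 + 0) ^ I)) := by
      apply Tendsto.pow
      apply Tendsto.const_add
      apply Tendsto.div_atTop tendsto_const_nhds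
      apply tendsto_atTop_add_const_right
      exact tendsto_natCast_atTop_atTop.const_mul_atTop (by norm_num)
    rw [add_zero, one_pow] at h1
    refine h1.congr fun H => ?_
    have h2 : (0 : ℝ) < 2 * H + 1 := by positivity
    rw [← div_pow]
    congr 1
    field_simp
  have hev : ∀ᶠ H : ℕ in atTop, ((2 * H + 1 : ℝ) + M) ^ I / (2 * H + 1 : ℝ) ^ I < 2 :=
    hlim.eventually_lt_const (by norm_num)
  obtain ⟨H₀, hH₀⟩ := eventually_atTop.1 hev
  refine ⟨H₀, fun H hH => ?_⟩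
  rw [ncard_box_filter, ncard_box]
  have hle : Nat.card {v : Idx n d → ℤ // (∀ i, |v i| ≤ (H : ℤ)) ∧ ¬ Q (sys fun i κ => v (i, κ))} ≤
      Nat.card {v : Idx n d → ℤ // (∀ i, |v i| ≤ (H : ℤ)) ∧
        ∀ p ∈ P, (fun i => (v i : ZMod p)) ∈ (fun p => (G p)ᶜ) p} := by
    haveI : Finite {v : Idx n d → ℤ // (∀ i, |v i| ≤ (H : ℤ)) ∧
        ∀ p ∈ P, (fun i => (v i : ZMod p)) ∈ (fun p => (G p)ᶜ) p} := by
      apply Set.Finite.subset (s := {v : Idx n d → ℤ | v ∈ Fintype.piFinset fun _ : Idx n d =>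
        Finset.Icc (-(H : ℤ)) H}) (Finset.finite_toSet _)
      rintro v ⟨h1, -⟩
      simp only [Set.mem_setOf_eq, Fintype.mem_piFinset, Finset.mem_Icc]
      intro i
      exact abs_le.1 (h1 i)
    apply Nat.card_le_card_of_injective (fun v => ⟨v.1, v.2.1, fun p hp h => v.2.2 (hQ v.1 p hp h)⟩)
    intro v w hvw
    apply Subtype.ext
    exact congrArg (fun z => z.1) hvw
  have hbox := box_count P hP (fun p => (G p)ᶜ) H
  have hprod : (∏ p ∈ P, (Nat.card ((fun p => (G p)ᶜ) p : Set (Idx n d → ZMod p)) : ℝ) /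
      (p : ℝ) ^ Fintype.card (Idx n d)) ≤ ∏ p ∈ P, (1 - δ p) := by
    apply Finset.prod_le_prod
    · intro p _
      positivity
    · intro p hp
      haveI : Fact p.Prime := ⟨hP p hp⟩
      have hp0 : (0 : ℝ) < (p : ℝ) ^ Fintype.card (Idx n d) := by
        have := (hP p hp).pos
        positivity
      rw [div_le_iff₀ hp0]
      have h1 : Nat.card ((G p)ᶜ : Set (Idx n d → ZMod p)) + Nat.card (G p) =
          p ^ Fintype.card (Idx n d) := by
        rw [Nat.card_coe_set_eq, Nat.card_coe_set_eq, Nat.add_comm, Set.ncard_add_ncard_compl,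
          Nat.card_eq_fintype_card, Fintype.card_fun, ZMod.card]
      have h2 : (Nat.card ((G p)ᶜ : Set (Idx n d → ZMod p)) : ℝ) + Nat.card (G p) =
          (p : ℝ) ^ Fintype.card (Idx n d) := by exact_mod_cast h1
      have h3 := hG p hp
      have h4 : ((fun p => (G p)ᶜ) p : Set (Idx n d → ZMod p)) = (G p)ᶜ := rfl
      rw [h4]
      linarith
  have hprod0 : 0 ≤ ∏ p ∈ P, (1 - δ p) := Finset.prod_nonneg fun p hp => by
    linarith [hδ p hp]
  have hH2 := hH₀ H hH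
  have hpos : (0 : ℝ) < (2 * H + 1 : ℝ) ^ I := by positivity
  rw [div_lt_iff₀ hpos] at hH2
  calc (Nat.card {v : Idx n d → ℤ // (∀ i, |v i| ≤ (H : ℤ)) ∧
        ¬ Q (sys fun i κ => v (i, κ))} : ℝ) ≤ _ := by exact_mod_cast hle
    _ ≤ _ := hbox
    _ ≤ (∏ p ∈ P, (1 - δ p)) * ((2 * H + 1 : ℝ) + M) ^ I := by
        apply mul_le_mul_of_nonneg_right hprod
        positivity
    _ ≤ (∏ p ∈ P, (1 - δ p)) * (2 * (2 * H + 1 : ℝ) ^ I) :=
        mul_le_mul_of_nonneg_left hH2.le hprod0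
    _ = 2 * (∏ p ∈ P, (1 - δ p)) * (((2 * H + 1) ^ I : ℕ) : ℝ) := by
        push_cast
        ring

/-- Good coefficient vectors modulo `p`. -/
def GoodCoeff (p n d : ℕ) [Fact p.Prime] : Set (Idx n d → ZMod p) :=
  {v | GoodTab (tab fun i κ => v (i, κ))}

/-- From tables to coefficients. -/
lemma card_of_tab {p : ℕ} [Fact p.Prime] (n d : ℕ) (hn : 0 < n)
    (hd : 2 * ((n - 1) * (p - 1)) + 3 ≤ d) (hpd : ¬ p ∣ d) (E : Set (Tab p n)) (δ : ℝ)
    (hE : δ * (Nat.card (Tab p n) : ℝ) ≤ (Nat.card E : ℝ)) :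
    δ * (p : ℝ) ^ Fintype.card (Idx n d) ≤
      (Nat.card ({v | tab (fun i κ => v (i, κ)) ∈ E} : Set (Idx n d → ZMod p)) : ℝ) := by
  classical
  have h0 : Nat.card ({v | tab (fun i κ => v (i, κ)) ∈ E} : Set (Idx n d → ZMod p)) =
      Nat.card {c : Fin n → Mono n d → ZMod p // tab c ∈ E} := by
    apply Nat.card_congr
    exact (Equiv.subtypeEquiv (Equiv.curry (Fin n) (Mono n d) (ZMod p)) fun v => Iff.rfl)
  have h1 : Nat.card (Fin n → Mono n d → ZMod p) = p ^ Fintype.card (Idx n d) := by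
    rw [← Nat.card_congr (Equiv.curry (Fin n) (Mono n d) (ZMod p)), Nat.card_eq_fintype_card,
      Fintype.card_fun, ZMod.card]
  have h2 := card_tab_preimage n d hn hd hpd E
  rw [← h0, h1] at h2
  have h3 : (0 : ℝ) < Nat.card (Tab p n) := by
    have : 0 < Nat.card (Tab p n) := Nat.card_pos
    exact_mod_cast this
  have h4 : (Nat.card ({v | tab (fun i κ => v (i, κ)) ∈ E} : Set (Idx n d → ZMod p)) : ℝ) *
      Nat.card (Tab p n) = Nat.card E * (p : ℝ) ^ Fintype.card (Idx n d) := by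
    exact_mod_cast h2
  have h5 : 0 ≤ (p : ℝ) ^ Fintype.card (Idx n d) := by positivity
  have h6 : δ * (p : ℝ) ^ Fintype.card (Idx n d) * Nat.card (Tab p n) ≤
      (Nat.card ({v | tab (fun i κ => v (i, κ)) ∈ E} : Set (Idx n d → ZMod p)) : ℝ) *
        Nat.card (Tab p n) := by
    rw [h4]
    calc δ * (p : ℝ) ^ Fintype.card (Idx n d) * Nat.card (Tab p n)
        = (δ * Nat.card (Tab p n)) * (p : ℝ) ^ Fintype.card (Idx n d) := by ring
      _ ≤ _ := mul_le_mul_of_nonneg_right hE h5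
  exact le_of_mul_le_mul_right h6 h3

lemma rr_nonneg (p n : ℕ) (hp : 1 ≤ p) : 0 ≤ rr p n := by
  apply Finset.prod_nonneg
  intro j _
  have h1 : (1 : ℝ) ≤ (p : ℝ) ^ (j + 1) := one_le_pow₀ (by exact_mod_cast hp)
  have h2 : 1 / (p : ℝ) ^ (j + 1) ≤ 1 := by
    rw [div_le_one (by linarith)]
    exact h1
  linarith

lemma rr_pos (p n : ℕ) (hp : 2 ≤ p) : 0 < rr p n := by
  apply Finset.prod_pos
  intro j _
  have h1 : (1 : ℝ) < (p : ℝ) ^ (j + 1) :=
    one_lt_pow₀ (by exact_mod_cast (by omega : 1 < p)) (by omega)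
  have h2 : 1 / (p : ℝ) ^ (j + 1) < 1 := by
    rw [div_lt_one (by linarith)]
    exact h1
  linarith

lemma rr_le_one (p n : ℕ) (hp : 1 ≤ p) : rr p n ≤ 1 := by
  apply Finset.prod_le_one
  · intro j _
    have h1 : (1 : ℝ) ≤ (p : ℝ) ^ (j + 1) := one_le_pow₀ (by exact_mod_cast hp)
    have h2 : 1 / (p : ℝ) ^ (j + 1) ≤ 1 := by
      rw [div_le_one (by linarith)]
      exact h1
    linarith
  · intro j _
    have : (0 : ℝ) ≤ 1 / (p : ℝ) ^ (j + 1) := by positivity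
    linarith

instance finite_PP (p n : ℕ) [Fact p.Prime] : Finite (PP p n) := by
  unfold PP Projectivization
  infer_instance

lemma card_PP_three (p : ℕ) [Fact p.Prime] : Nat.card (PP p 3) = p ^ 2 + p + 1 := by
  rw [card_PP p 3 (by norm_num)]
  simp only [Finset.sum_range_succ, Finset.sum_range_zero, pow_zero, pow_one, zero_add]
  ring

lemma card_PP_four (p : ℕ) [Fact p.Prime] : Nat.card (PP p 4) = p ^ 3 + p ^ 2 + p + 1 := by
  rw [card_PP p 4 (by norm_num)]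
  simp only [Finset.sum_range_succ, Finset.sum_range_zero, pow_zero, pow_one, zero_add]
  ring

theorem prob_two (p d : ℕ) [hp : Fact p.Prime] (hd : 2 * (2 * (p - 1)) + 3 ≤ d) (hpd : ¬ p ∣ d) :
    (1 / 4 : ℝ) ^ 30 * (p : ℝ) ^ Fintype.card (Idx 3 d) ≤ (Nat.card (GoodCoeff p 3 d) : ℝ) := by
  classical
  apply card_of_tab 3 d (by norm_num) (by simpa using hd) hpd {A | GoodTab A}
  letI : Fintype (PP p 3) := Fintype.ofFinite _
  have hm : Fintype.card (PP p 3) = p ^ 2 + p + 1 := by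
    rw [← Nat.card_eq_fintype_card, card_PP_three]
  haveI : Nonempty (PP p 3) := by
    rw [← Fintype.card_pos_iff, hm]
    omega
  have h1 := card_goodTab p 3 (by norm_num)
  have h2 := random_map_two (X := PP p 3) (rr p 3) (rr_pos p 3 hp.out.two_le)
    (rr_le_one p 3 hp.out.one_le) (p + 1) (by rw [hm]; nlinarith)
  have h3 := const_two p hp.out.two_le
  have hset : (Nat.card ({A | GoodTab A} : Set (Tab p 3)) : ℝ) =
      (Nat.card {A : Tab p 3 // GoodTab A} : ℝ) := rfl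
  rw [hset, h1, card_PP_three]
  rw [finsum_eq_sum_of_fintype]
  have hM : (0 : ℝ) < ((p ^ 2 + p + 1 : ℕ) : ℝ) ^ (p ^ 2 + p + 1) := by positivity
  rw [hm] at h2
  have h4 : rr p 3 ^ (2 * (p + 1) + 1) ≤
      (∑ φ : PP p 3 → PP p 3, rr p 3 ^ nper φ) / ((p ^ 2 + p + 1 : ℕ) : ℝ) ^ (p ^ 2 + p + 1) := by
    rw [le_div_iff₀ hM]
    exact h2
  have h5 : (0 : ℝ) ≤ (1 - 1 / (p : ℝ) ^ 3) ^ (p ^ 2 + p + 1) := by
    apply pow_nonneg
    have h1 : (1 : ℝ) ≤ (p : ℝ) ^ 3 := one_le_pow₀ (by exact_mod_cast hp.out.one_le)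
    have h2 : 1 / (p : ℝ) ^ 3 ≤ 1 := by
      rw [div_le_one (by linarith)]
      exact h1
    linarith
  calc (1 / 4 : ℝ) ^ 30 * (Nat.card (Tab p 3) : ℝ)
      ≤ ((1 - 1 / (p : ℝ) ^ 3) ^ (p ^ 2 + p + 1) * rr p 3 ^ (2 * (p + 1) + 1)) *
          (Nat.card (Tab p 3) : ℝ) := by
        apply mul_le_mul_of_nonneg_right h3
        positivity
    _ ≤ ((1 - 1 / (p : ℝ) ^ 3) ^ (p ^ 2 + p + 1) *
          ((∑ φ : PP p 3 → PP p 3, rr p 3 ^ nper φ) /
            ((p ^ 2 + p + 1 : ℕ) : ℝ) ^ (p ^ 2 + p + 1))) * (Nat.card (Tab p 3) : ℝ) := by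
        apply mul_le_mul_of_nonneg_right _ (by positivity)
        exact mul_le_mul_of_nonneg_left h4 h5
    _ = _ := by ring

theorem prob_three (p d : ℕ) [hp : Fact p.Prime] (hd : 2 * (3 * (p - 1)) + 3 ≤ d)
    (hpd : ¬ p ∣ d) :
    (1 / 4 : ℝ) ^ 10 / p * (p : ℝ) ^ Fintype.card (Idx 4 d) ≤
      (Nat.card (GoodCoeff p 4 d) : ℝ) := by
  classical
  apply card_of_tab 4 d (by norm_num) (by simpa using hd) hpd {A | GoodTab A}
  letI : Fintype (PP p 4) := Fintype.ofFinite _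
  have hm : Fintype.card (PP p 4) = p ^ 3 + p ^ 2 + p + 1 := by
    rw [← Nat.card_eq_fintype_card, card_PP_four]
  haveI : Nonempty (PP p 4) := by
    rw [← Fintype.card_pos_iff, hm]
    omega
  have h1 := card_goodTab p 4 (by norm_num)
  have h2 := random_map_three (X := PP p 4) p
  have h3 := const_three p hp.out.two_le
  have hset : (Nat.card ({A | GoodTab A} : Set (Tab p 4)) : ℝ) =
      (Nat.card {A : Tab p 4 // GoodTab A} : ℝ) := rfl
  rw [hset, h1, card_PP_four]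
  rw [finsum_eq_sum_of_fintype]
  have hM : (0 : ℝ) < ((p ^ 3 + p ^ 2 + p + 1 : ℕ) : ℝ) ^ (p ^ 3 + p ^ 2 + p + 1) := by positivity
  rw [hm] at h2
  have hr0 := rr_nonneg p 4 hp.out.one_le
  have hr1 := rr_le_one p 4 hp.out.one_le
  have h6 : rr p 4 ^ p * ((Finset.univ.filter fun φ : PP p 4 → PP p 4 => nper φ ≤ p).card : ℝ) ≤
      ∑ φ : PP p 4 → PP p 4, rr p 4 ^ nper φ := by
    calc rr p 4 ^ p * ((Finset.univ.filter fun φ : PP p 4 → PP p 4 => nper φ ≤ p).card : ℝ)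
        = ∑ φ ∈ Finset.univ.filter (fun φ : PP p 4 → PP p 4 => nper φ ≤ p), rr p 4 ^ p := by
          rw [Finset.sum_const, nsmul_eq_mul, mul_comm]
      _ ≤ ∑ φ ∈ Finset.univ.filter (fun φ : PP p 4 → PP p 4 => nper φ ≤ p), rr p 4 ^ nper φ := by
          apply Finset.sum_le_sum
          intro φ hφ
          exact pow_le_pow_of_le_one hr0 hr1 (Finset.mem_filter.1 hφ).2
      _ ≤ _ := Finset.sum_le_sum_of_subset_of_nonneg (Finset.filter_subset _ _)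
          fun φ _ _ => pow_nonneg hr0 _
  have h4 : rr p 4 ^ p *
      (1 - ∏ i ∈ Finset.range (p + 1), (1 - (i : ℝ) / (p ^ 3 + p ^ 2 + p + 1 : ℕ))) ≤
      (∑ φ : PP p 4 → PP p 4, rr p 4 ^ nper φ) /
        ((p ^ 3 + p ^ 2 + p + 1 : ℕ) : ℝ) ^ (p ^ 3 + p ^ 2 + p + 1) := by
    rw [le_div_iff₀ hM]
    calc _ = rr p 4 ^ p * ((1 - ∏ i ∈ Finset.range (p + 1),
          (1 - (i : ℝ) / (p ^ 3 + p ^ 2 + p + 1 : ℕ))) *
            ((p ^ 3 + p ^ 2 + p + 1 : ℕ) : ℝ) ^ (p ^ 3 + p ^ 2 + p + 1)) := by ring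
      _ ≤ _ := le_trans (mul_le_mul_of_nonneg_left h2 (pow_nonneg hr0 _)) h6
  have h5 : (0 : ℝ) ≤ (1 - 1 / (p : ℝ) ^ 4) ^ (p ^ 3 + p ^ 2 + p + 1) := by
    apply pow_nonneg
    have h1 : (1 : ℝ) ≤ (p : ℝ) ^ 4 := one_le_pow₀ (by exact_mod_cast hp.out.one_le)
    have h2 : 1 / (p : ℝ) ^ 4 ≤ 1 := by
      rw [div_le_one (by linarith)]
      exact h1
    linarith
  calc (1 / 4 : ℝ) ^ 10 / p * (Nat.card (Tab p 4) : ℝ)
      ≤ ((1 - 1 / (p : ℝ) ^ 4) ^ (p ^ 3 + p ^ 2 + p + 1) * rr p 4 ^ p *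
          (1 - ∏ i ∈ Finset.range (p + 1), (1 - (i : ℝ) / (p ^ 3 + p ^ 2 + p + 1 : ℕ)))) *
          (Nat.card (Tab p 4) : ℝ) := by
        apply mul_le_mul_of_nonneg_right h3
        positivity
    _ = ((1 - 1 / (p : ℝ) ^ 4) ^ (p ^ 3 + p ^ 2 + p + 1) * (rr p 4 ^ p *
          (1 - ∏ i ∈ Finset.range (p + 1), (1 - (i : ℝ) / (p ^ 3 + p ^ 2 + p + 1 : ℕ))))) *
          (Nat.card (Tab p 4) : ℝ) := by ring
    _ ≤ ((1 - 1 / (p : ℝ) ^ 4) ^ (p ^ 3 + p ^ 2 + p + 1) *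
          ((∑ φ : PP p 4 → PP p 4, rr p 4 ^ nper φ) /
            ((p ^ 3 + p ^ 2 + p + 1 : ℕ) : ℝ) ^ (p ^ 3 + p ^ 2 + p + 1))) *
              (Nat.card (Tab p 4) : ℝ) := by
        apply mul_le_mul_of_nonneg_right _ (by positivity)
        exact mul_le_mul_of_nonneg_left h4 h5
    _ = _ := by ring

/-- `L` embeds into `ℚ_p`, as a subfield of `ℂ`. -/
def Emb (L : Subfield ℂ) (p : ℕ) [Fact p.Prime] : Prop :=
  ∃ τ : ℂ →+* PadicAlgCl p, ∀ x ∈ L, ∃ y : ℚ_[p], τ x = algebraMap ℚ_[p] (PadicAlgCl p) y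

/-- The Dynamical Mordell-Lang property for all points over `L`. -/
def DMLOver {N : ℕ} (L : Subfield ℂ) (F : Fin (N + 1) → MvPolynomial (Fin (N + 1)) ℤ) : Prop :=
  ∀ α : Fin (N + 1) → ℂ, α ≠ 0 → (∀ i, α i ∈ L) → DMLAt F α

theorem dml_of_goodCoeff {p : ℕ} [hp : Fact p.Prime] {N d : ℕ} (hpd : ¬ p ∣ d)
    (L : Subfield ℂ) (hL : Emb L p) (v : Idx (N + 1) d → ℤ)
    (hv : (fun i => (v i : ZMod p)) ∈ GoodCoeff p (N + 1) d) :
    DMLOver L (sys fun i κ => v (i, κ)) := by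
  intro α hα hαL
  obtain ⟨τ, hτ⟩ := hL
  obtain ⟨h1, h2⟩ := good_tab_conditions (N + 1) d hpd (fun i κ => ((v (i, κ) : ℤ) : ZMod p)) hv
  apply dml_of_mod (p := p) _ (fun i => sys_isHomogeneous _ i) _ _ α hα τ (fun i => hτ _ (hαL i))
  · rw [overR_sys]
    exact h1
  · rw [overR_sys]
    exact h2

end Pool.Agent.H927R2.RD
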