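import Pool.Agent.H927R2.RD.Density

set_option autoImplicit false

/-! Densities over a set of primes, planes and 3-spaces. -/

namespace Pool.Agent.H927R2.RD

open MvPolynomial Pool.Agent.H936R2 Filter

lemma prod_le_exp (P : Finset ℕ) (δ : ℕ → ℝ) (hδ : ∀ p ∈ P, δ p ≤ 1) :
    ∏ p ∈ P, (1 - δ p) ≤ Real.exp (-∑ p ∈ P, δ p) := by
  rw [← Finset.sum_neg_distrib, Real.exp_sum]
  apply Finset.prod_le_prod
  · intro p hp
    linarith [hδ p hp]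
  · intro p _
    have := Real.add_one_le_exp (-δ p)
    linarith

/-- Good coefficients, for every modulus. -/
def GC (n d p : ℕ) : Set (Idx n d → ZMod p) := {v | ∃ h : Fact p.Prime, v ∈ @GoodCoeff p n d h}

lemma GC_eq (n d p : ℕ) [h : Fact p.Prime] : GC n d p = GoodCoeff p n d := by
  ext v
  exact ⟨fun ⟨_, h'⟩ => h', fun h' => ⟨h, h'⟩⟩

theorem density_two (L : Subfield ℂ) (d : ℕ) (P : Finset ℕ)
    (hP : ∀ p ∈ P, ¬ p ∣ d ∧ 2 * (2 * (p - 1)) + 3 ≤ d ∧ ∃ _ : Fact p.Prime, Emb L p) :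
    ∃ H₀ : ℕ, ∀ H : ℕ, H₀ ≤ H →
      (({F | F ∈ Box 3 d H ∧ ¬ DMLOver L F} : Set (Fin 3 → MvPolynomial (Fin 3) ℤ)).ncard : ℝ) ≤
        2 * Real.exp (-((1 / 4 : ℝ) ^ 30 * P.card)) * ((Box 3 d H).ncard : ℝ) := by
  obtain ⟨H₀, hH₀⟩ := density_lemma 3 d (fun F => DMLOver (N := 2) L F) P
    (fun p hp => by obtain ⟨-, -, h, -⟩ := hP p hp; exact h.out) (GC 3 d)
    (fun _ => (1 / 4 : ℝ) ^ 30) (fun p _ => by norm_num)
    (fun p hp => by
      obtain ⟨h1, h2, h, -⟩ := hP p hp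
      rw [GC_eq]
      exact prob_two p d h2 h1)
    (fun v p hp hv => by
      obtain ⟨h1, h2, h, h3⟩ := hP p hp
      rw [GC_eq] at hv
      exact dml_of_goodCoeff h1 L h3 v hv)
  refine ⟨H₀, fun H hH => (hH₀ H hH).trans ?_⟩
  apply mul_le_mul_of_nonneg_right _ (Nat.cast_nonneg _)
  apply mul_le_mul_of_nonneg_left _ (by norm_num)
  refine (prod_le_exp P (fun _ => (1 / 4 : ℝ) ^ 30) (fun p _ => by norm_num)).trans ?_
  rw [Finset.sum_const, nsmul_eq_mul, mul_comm]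

theorem density_three (L : Subfield ℂ) (d : ℕ) (P : Finset ℕ)
    (hP : ∀ p ∈ P, ¬ p ∣ d ∧ 2 * (3 * (p - 1)) + 3 ≤ d ∧ ∃ _ : Fact p.Prime, Emb L p) :
    ∃ H₀ : ℕ, ∀ H : ℕ, H₀ ≤ H →
      (({F | F ∈ Box 4 d H ∧ ¬ DMLOver L F} : Set (Fin 4 → MvPolynomial (Fin 4) ℤ)).ncard : ℝ) ≤
        2 * Real.exp (-((1 / 4 : ℝ) ^ 10 * ∑ p ∈ P, 1 / (p : ℝ))) * ((Box 4 d H).ncard : ℝ) := by
  have hδ : ∀ p ∈ P, (1 / 4 : ℝ) ^ 10 / p ≤ 1 := by
    intro p hp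
    obtain ⟨-, -, h, -⟩ := hP p hp
    have h1 : (1 : ℝ) ≤ p := by exact_mod_cast h.out.one_le
    rw [div_le_one (by linarith)]
    refine le_trans ?_ h1
    norm_num
  obtain ⟨H₀, hH₀⟩ := density_lemma 4 d (fun F => DMLOver (N := 3) L F) P
    (fun p hp => by obtain ⟨-, -, h, -⟩ := hP p hp; exact h.out) (GC 4 d)
    (fun p => (1 / 4 : ℝ) ^ 10 / p) hδ
    (fun p hp => by
      obtain ⟨h1, h2, h, -⟩ := hP p hp
      rw [GC_eq]
      exact prob_three p d h2 h1)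
    (fun v p hp hv => by
      obtain ⟨h1, h2, h, h3⟩ := hP p hp
      rw [GC_eq] at hv
      exact dml_of_goodCoeff h1 L h3 v hv)
  refine ⟨H₀, fun H hH => (hH₀ H hH).trans ?_⟩
  apply mul_le_mul_of_nonneg_right _ (Nat.cast_nonneg _)
  apply mul_le_mul_of_nonneg_left _ (by norm_num)
  refine (prod_le_exp P (fun p => (1 / 4 : ℝ) ^ 10 / p) hδ).trans ?_
  rw [Finset.mul_sum]
  apply le_of_eq
  congr 2
  apply Finset.sum_congr rfl
  intro p _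
  ring

end Pool.Agent.H927R2.RD
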