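import Mathlib
import Pool.Agent.H927R2.RD.Defs2

set_option autoImplicit false

/-! T10a: the harmonic sum over the ideals of a number field. -/

namespace Pool.Agent.H927R2.RD

open NumberField

namespace T10a

variable (K : Type) [Field K] [NumberField K]

/-- The nonzero ideals of norm at most `x`. -/
def idealSet (x : ℕ) : Set (Ideal (RingOfIntegers K)) :=
  {I | 1 ≤ Ideal.absNorm I ∧ Ideal.absNorm I ≤ x}

theorem idealSet_finite (x : ℕ) : (idealSet K x).Finite :=
  (Ideal.finite_setOfPred_absNorm_le x).subset fun _ h => h.2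

/-- The nonzero ideals of norm at most `x`. -/
noncomputable def idealFin (x : ℕ) : Finset (Ideal (RingOfIntegers K)) :=
  (idealSet_finite K x).toFinset

theorem mem_idealFin (x : ℕ) (I : Ideal (RingOfIntegers K)) :
    I ∈ idealFin K x ↔ 1 ≤ Ideal.absNorm I ∧ Ideal.absNorm I ≤ x := by
  rw [idealFin, Set.Finite.mem_toFinset]
  rfl

theorem card_ge_mathlib (m : ℕ) :
    Nat.card {I : nonZeroDivisors (Ideal (RingOfIntegers K)) //
      (Ideal.absNorm (I : Ideal (RingOfIntegers K)) : ℝ) ≤ (m : ℝ)} ≤ (idealFin K m).card := by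
  classical
  have h : ∀ I : {I : nonZeroDivisors (Ideal (RingOfIntegers K)) //
      (Ideal.absNorm (I : Ideal (RingOfIntegers K)) : ℝ) ≤ (m : ℝ)},
      (I.1 : Ideal (RingOfIntegers K)) ∈ idealFin K m := by
    intro I
    rw [mem_idealFin]
    refine ⟨?_, by exact_mod_cast I.2⟩
    have : Ideal.absNorm (I.1 : Ideal (RingOfIntegers K)) ≠ 0 :=
      Ideal.absNorm_ne_zero_iff_mem_nonZeroDivisors.mpr I.1.2
    omega
  have h2 : Nat.card (idealFin K m) = (idealFin K m).card := by simp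
  rw [← h2]
  refine Nat.card_le_card_of_injective (fun I => (⟨I.1, h I⟩ : idealFin K m)) ?_
  intro I J hIJ
  apply Subtype.ext
  apply Subtype.ext
  exact congrArg (fun z : idealFin K m => (z : Ideal (RingOfIntegers K))) hIJ

theorem card_pos (m : ℕ) (hm : 1 ≤ m) : 1 ≤ (idealFin K m).card := by
  rw [Nat.one_le_iff_ne_zero, Finset.card_ne_zero]
  refine ⟨⊤, ?_⟩
  rw [mem_idealFin, Ideal.absNorm_top]
  exact ⟨le_rfl, hm⟩

theorem card_lower : ∃ c : ℝ, 0 < c ∧ ∀ m : ℕ, c * m ≤ ((idealFin K m).card : ℝ) := by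
  have h := NumberField.Ideal.tendsto_norm_le_div_atTop₀ K
  have hpos := NumberField.dedekindZeta_residue_pos K
  rw [NumberField.dedekindZeta_residue_def] at hpos
  set L := (2 ^ InfinitePlace.nrRealPlaces K * (2 * Real.pi) ^ InfinitePlace.nrComplexPlaces K *
    Units.regulator K * classNumber K) /
    (Units.torsionOrder K * Real.sqrt |(discr K : ℝ)|) with hL
  have h1 := h.eventually (lt_mem_nhds (show L / 2 < L by linarith))
  rw [Filter.eventually_atTop] at h1
  obtain ⟨s₀, hs₀⟩ := h1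
  obtain ⟨n₀, hn₀⟩ := exists_nat_ge (max s₀ 1)
  have hn1 : (1 : ℝ) ≤ n₀ := le_trans (le_max_right _ _) hn₀
  have hn2 : s₀ ≤ n₀ := le_trans (le_max_left _ _) hn₀
  refine ⟨min (L / 2) (1 / n₀), lt_min (by linarith) (by positivity), ?_⟩
  intro m
  rcases Nat.eq_zero_or_pos m with rfl | hm
  · simp
  have hm' : (0 : ℝ) < m := by exact_mod_cast hm
  rcases le_total n₀ m with hle | hle
  · have h2 : s₀ ≤ (m : ℝ) := le_trans hn2 (by exact_mod_cast hle)
    have h3 := hs₀ m h2
    rw [lt_div_iff₀ hm'] at h3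
    have h4 := card_ge_mathlib K m
    have h5 : ((Nat.card {I : nonZeroDivisors (Ideal (RingOfIntegers K)) //
      (Ideal.absNorm (I : Ideal (RingOfIntegers K)) : ℝ) ≤ (m : ℝ)} : ℕ) : ℝ) ≤
      ((idealFin K m).card : ℝ) := by exact_mod_cast h4
    calc min (L / 2) (1 / n₀) * m ≤ L / 2 * m := by
          apply mul_le_mul_of_nonneg_right (min_le_left _ _) hm'.le
      _ ≤ _ := h3.le.trans h5
  · have h2 : (1 : ℝ) ≤ ((idealFin K m).card : ℝ) := by exact_mod_cast card_pos K m hm
    calc min (L / 2) (1 / n₀) * m ≤ 1 / n₀ * m := by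
          apply mul_le_mul_of_nonneg_right (min_le_right _ _) hm'.le
      _ ≤ 1 := by
          rw [one_div, inv_mul_le_iff₀ (by linarith), mul_one]
          exact_mod_cast hle
      _ ≤ _ := h2

/-- The harmonic sum over the ideals. -/
noncomputable def harm (x : ℕ) : ℝ :=
  ∑ I ∈ idealFin K x, 1 / (Ideal.absNorm I : ℝ)

theorem harm_succ (x : ℕ) :
    harm K (x + 1) = harm K x +
      (((idealFin K (x + 1)).card : ℝ) - ((idealFin K x).card : ℝ)) / ((x : ℝ) + 1) := by
  classical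
  have hsub : idealFin K x ⊆ idealFin K (x + 1) := by
    intro I hI
    rw [mem_idealFin] at hI ⊢
    exact ⟨hI.1, hI.2.trans (Nat.le_succ x)⟩
  have h1 := Finset.sum_sdiff (f := fun I : Ideal (RingOfIntegers K) =>
    1 / (Ideal.absNorm I : ℝ)) hsub
  have h2 : ∑ I ∈ idealFin K (x + 1) \ idealFin K x, 1 / (Ideal.absNorm I : ℝ) =
      ∑ I ∈ idealFin K (x + 1) \ idealFin K x, 1 / ((x : ℝ) + 1) := by
    apply Finset.sum_congr rfl
    intro I hI
    rw [Finset.mem_sdiff, mem_idealFin, mem_idealFin] at hI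
    have : Ideal.absNorm I = x + 1 := by
      by_contra hne
      exact hI.2 ⟨hI.1.1, by omega⟩
    rw [this]
    push_cast
    ring
  have h3 : ((idealFin K (x + 1) \ idealFin K x).card : ℝ) =
      ((idealFin K (x + 1)).card : ℝ) - ((idealFin K x).card : ℝ) := by
    rw [Finset.card_sdiff_of_subset hsub, Nat.cast_sub (Finset.card_le_card hsub)]
  rw [harm, harm, ← h1, h2, Finset.sum_const, nsmul_eq_mul, h3]
  ring

theorem harm_lower (c : ℝ) (hc : 0 < c) (h : ∀ m : ℕ, c * m ≤ ((idealFin K m).card : ℝ))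
    (x : ℕ) : ((idealFin K x).card : ℝ) / ((x : ℝ) + 1) + c * Real.log (((x : ℝ) + 2) / 2) ≤
      harm K x := by
  induction x with
  | zero =>
    have h0 : idealFin K 0 = ∅ := by
      rw [Finset.eq_empty_iff_forall_notMem]
      intro I hI
      rw [mem_idealFin] at hI
      omega
    simp [harm, h0]
  | succ x ih =>
    rw [harm_succ]
    have hA := h (x + 1)
    push_cast at hA
    set a := ((idealFin K x).card : ℝ)
    set b := ((idealFin K (x + 1)).card : ℝ)
    have hx : (0 : ℝ) ≤ x := Nat.cast_nonneg x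
    have hlog : Real.log (((x : ℝ) + 1 + 2) / 2) ≤
        Real.log (((x : ℝ) + 2) / 2) + 1 / ((x : ℝ) + 2) := by
      have e : ((x : ℝ) + 1 + 2) / 2 = ((x : ℝ) + 2) / 2 * (1 + 1 / ((x : ℝ) + 2)) := by
        field_simp
        ring
      rw [e, Real.log_mul (by positivity) (by positivity)]
      have := Real.log_le_sub_one_of_pos (show (0 : ℝ) < 1 + 1 / ((x : ℝ) + 2) by positivity)
      linarith
    have h1 : b / ((x : ℝ) + 1) = b / ((x : ℝ) + 1 + 1) + b / (((x : ℝ) + 1) * ((x : ℝ) + 2)) := by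
      field_simp
      ring
    have h2 : c / ((x : ℝ) + 2) ≤ b / (((x : ℝ) + 1) * ((x : ℝ) + 2)) := by
      rw [div_le_div_iff₀ (by positivity) (by positivity)]
      have : c * (((x : ℝ) + 1) * ((x : ℝ) + 2)) = (c * ((x : ℝ) + 1)) * ((x : ℝ) + 2) := by ring
      rw [this]
      exact mul_le_mul_of_nonneg_right hA (by positivity)
    have h3 : (b - a) / ((x : ℝ) + 1) = b / ((x : ℝ) + 1) - a / ((x : ℝ) + 1) := by ring
    have h4 : c * Real.log (((x : ℝ) + 1 + 2) / 2) ≤
        c * Real.log (((x : ℝ) + 2) / 2) + c / ((x : ℝ) + 2) := by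
      calc _ ≤ c * (Real.log (((x : ℝ) + 2) / 2) + 1 / ((x : ℝ) + 2)) :=
            mul_le_mul_of_nonneg_left hlog hc.le
        _ = _ := by ring
    push_cast
    rw [h3]
    linarith

end T10a

/-- T10a (ideals of bounded norm: the harmonic sum). -/
theorem sum_ideals (K : Type) [Field K] [NumberField K] : ∃ c > (0 : ℝ), ∀ x : ℕ, 2 ≤ x →
    c * Real.log x ≤ ∑ᶠ I ∈ {I : Ideal (NumberField.RingOfIntegers K) |
      1 ≤ Ideal.absNorm I ∧ Ideal.absNorm I ≤ x}, 1 / (Ideal.absNorm I : ℝ) := by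
  obtain ⟨c, hc, h⟩ := T10a.card_lower K
  refine ⟨c / 2, by positivity, ?_⟩
  intro x hx
  have h1 := T10a.harm_lower K c hc h x
  have e : ∑ᶠ I ∈ {I : Ideal (NumberField.RingOfIntegers K) |
      1 ≤ Ideal.absNorm I ∧ Ideal.absNorm I ≤ x}, 1 / (Ideal.absNorm I : ℝ) = T10a.harm K x :=
    finsum_mem_eq_finite_toFinset_sum _ (T10a.idealSet_finite K x)
  rw [e]
  have hx' : (2 : ℝ) ≤ x := by exact_mod_cast hx
  have h2 : Real.log x ≤ 2 * Real.log (((x : ℝ) + 2) / 2) := by
    have h3 : Real.log ((((x : ℝ) + 2) / 2) ^ 2) = 2 * Real.log (((x : ℝ) + 2) / 2) := by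
      rw [Real.log_pow]
      norm_num
    rw [← h3]
    apply Real.log_le_log (by linarith)
    nlinarith
  have h4 : (0 : ℝ) ≤ ((T10a.idealFin K x).card : ℝ) / ((x : ℝ) + 1) := by positivity
  calc c / 2 * Real.log x ≤ c / 2 * (2 * Real.log (((x : ℝ) + 2) / 2)) :=
        mul_le_mul_of_nonneg_left h2 (by positivity)
    _ = c * Real.log (((x : ℝ) + 2) / 2) := by ring
    _ ≤ _ := by linarith

end Pool.Agent.H927R2.RD
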