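import Mathlib
import Pool.Agent.H927R2.RD.Defs2

set_option autoImplicit false

/-!
T10b: from ideals to primes of degree one.
-/

namespace Pool.Agent.H927R2.RD

open NumberField

section aux

variable (K : Type) [Field K] [NumberField K]

/-- The prime ideals of norm at most `x`. -/
noncomputable def primesLe (x : ℕ) : Finset (Ideal (𝓞 K)) :=
  ((Ideal.finite_setOfPred_absNorm_le (S := 𝓞 K) x).subset
    (t := {P : Ideal (𝓞 K) | P.IsPrime ∧ P ≠ ⊥ ∧ Ideal.absNorm P ≤ x})
      (fun _ h => h.2.2)).toFinset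

variable {K}

lemma mem_primesLe {x : ℕ} {P : Ideal (𝓞 K)} :
    P ∈ primesLe K x ↔ P.IsPrime ∧ P ≠ ⊥ ∧ Ideal.absNorm P ≤ x := by
  simp [primesLe]

lemma two_le_absNorm {P : Ideal (𝓞 K)} (h : P.IsPrime) (h0 : P ≠ ⊥) : 2 ≤ Ideal.absNorm P := by
  have h1 : Ideal.absNorm P ≠ 1 := Ideal.absNorm_eq_one_iff.not.mpr h.ne_top
  have h2 : Ideal.absNorm P ≠ 0 := by
    simpa [Ideal.absNorm_eq_zero_iff] using h0
  omega

open UniqueFactorizationMonoid in
lemma absNorm_eq_prod {x : ℕ} {I : Ideal (𝓞 K)} (h0 : I ≠ ⊥) (hx : Ideal.absNorm I ≤ x) :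
    Ideal.absNorm I = ∏ P : {P // P ∈ primesLe K x},
      Ideal.absNorm P.1 ^ (Multiset.count P.1 (normalizedFactors I)) := by
  classical
  have h1 : (normalizedFactors I).prod = I := by
    have := prod_normalizedFactors h0
    exact associated_iff_eq.mp this
  have hsub : (normalizedFactors I).toFinset ⊆ primesLe K x := by
    intro P hP
    rw [Multiset.mem_toFinset] at hP
    have hp := prime_of_normalized_factor P hP
    rw [mem_primesLe]
    refine ⟨Ideal.isPrime_of_prime hp, hp.ne_zero, ?_⟩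
    refine le_trans ?_ hx
    refine Nat.le_of_dvd ?_ ?_
    · have : Ideal.absNorm I ≠ 0 := by simpa [Ideal.absNorm_eq_zero_iff] using h0
      omega
    · exact map_dvd Ideal.absNorm (dvd_of_mem_normalizedFactors hP)
  rw [Finset.prod_coe_sort (primesLe K x)
    (fun P => Ideal.absNorm P ^ (Multiset.count P (normalizedFactors I)))]
  conv_lhs => rw [← h1]
  rw [map_multiset_prod, Finset.prod_multiset_map_count]
  refine Finset.prod_subset hsub ?_
  intro P _ hP
  rw [Multiset.mem_toFinset] at hP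
  rw [Multiset.count_eq_zero_of_notMem hP, pow_zero]

open UniqueFactorizationMonoid in
/-- The sum over ideals is at most the product over primes. -/
lemma sum_le_prod (x : ℕ) :
    ∑ᶠ I ∈ {I : Ideal (𝓞 K) | 1 ≤ Ideal.absNorm I ∧ Ideal.absNorm I ≤ x},
      1 / (Ideal.absNorm I : ℝ) ≤
    ∏ P ∈ primesLe K x, (1 - 1 / (Ideal.absNorm P : ℝ))⁻¹ := by
  classical
  have hfin : {I : Ideal (𝓞 K) | 1 ≤ Ideal.absNorm I ∧ Ideal.absNorm I ≤ x}.Finite :=
    (Ideal.finite_setOfPred_absNorm_le (S := 𝓞 K) x).subset (fun _ h => h.2)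
  rw [finsum_mem_eq_finite_toFinset_sum _ hfin]
  set T := primesLe K x
  let e : Ideal (𝓞 K) → ({P // P ∈ T} → ℕ) := fun I P => Multiset.count P.1 (normalizedFactors I)
  let box : Finset ({P // P ∈ T} → ℕ) := Fintype.piFinset (fun _ => Finset.range (x + 1))
  have hmem : ∀ I ∈ hfin.toFinset, I ≠ ⊥ ∧ Ideal.absNorm I ≤ x := by
    intro I hI
    rw [Set.Finite.mem_toFinset] at hI
    refine ⟨?_, hI.2⟩
    rintro rfl
    have := hI.1
    simp at this
  have hbox : ∀ I ∈ hfin.toFinset, e I ∈ box := by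
    intro I hI
    obtain ⟨h0, hx⟩ := hmem I hI
    rw [Fintype.mem_piFinset]
    intro P
    rw [Finset.mem_range]
    have hP := mem_primesLe.mp P.2
    have h2 := two_le_absNorm hP.1 hP.2.1
    have hle : Ideal.absNorm P.1 ^ (e I P) ≤ x := by
      refine le_trans ?_ hx
      rw [absNorm_eq_prod h0 hx]
      refine Nat.le_of_dvd ?_ ?_
      · refine Finset.prod_pos ?_
        intro Q _
        have := two_le_absNorm (mem_primesLe.mp Q.2).1 (mem_primesLe.mp Q.2).2.1
        positivity
      · exact Finset.dvd_prod_of_mem (fun P : {P // P ∈ T} =>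
          Ideal.absNorm P.1 ^ (Multiset.count P.1 (normalizedFactors I))) (Finset.mem_univ P)
    have h3 : e I P < 2 ^ e I P := Nat.lt_two_pow_self
    have h4 : 2 ^ e I P ≤ Ideal.absNorm P.1 ^ e I P := Nat.pow_le_pow_left h2 _
    omega
  have hinj : Set.InjOn e hfin.toFinset := by
    intro I hI J hJ hIJ
    obtain ⟨hI0, hIx⟩ := hmem I hI
    obtain ⟨hJ0, hJx⟩ := hmem J hJ
    have hc : ∀ (L : Ideal (𝓞 K)), L ≠ ⊥ → Ideal.absNorm L ≤ x → ∀ P, P ∉ T →
        Multiset.count P (normalizedFactors L) = 0 := by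
      intro L hL0 hLx P hP
      rw [Multiset.count_eq_zero]
      intro hPm
      apply hP
      have hp := prime_of_normalized_factor P hPm
      rw [mem_primesLe]
      refine ⟨Ideal.isPrime_of_prime hp, hp.ne_zero, ?_⟩
      refine le_trans ?_ hLx
      refine Nat.le_of_dvd ?_ ?_
      · have : Ideal.absNorm L ≠ 0 := by simpa [Ideal.absNorm_eq_zero_iff] using hL0
        omega
      · exact map_dvd Ideal.absNorm (dvd_of_mem_normalizedFactors hPm)
    have hnf : normalizedFactors I = normalizedFactors J := by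
      ext P
      by_cases hP : P ∈ T
      · exact congrFun hIJ ⟨P, hP⟩
      · rw [hc I hI0 hIx P hP, hc J hJ0 hJx P hP]
    have h1 : (normalizedFactors I).prod = I := associated_iff_eq.mp (prod_normalizedFactors hI0)
    have h2 : (normalizedFactors J).prod = J := associated_iff_eq.mp (prod_normalizedFactors hJ0)
    rw [← h1, ← h2, hnf]
  have hval : ∀ I ∈ hfin.toFinset, 1 / (Ideal.absNorm I : ℝ) =
      ∏ P : {P // P ∈ T}, (1 / (Ideal.absNorm P.1 : ℝ)) ^ (e I P) := by
    intro I hI
    obtain ⟨h0, hx⟩ := hmem I hI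
    rw [absNorm_eq_prod h0 hx]
    push_cast
    rw [one_div, ← Finset.prod_inv_distrib]
    refine Finset.prod_congr rfl ?_
    intro P _
    rw [one_div, inv_pow]
  rw [Finset.sum_congr rfl hval]
  calc ∑ I ∈ hfin.toFinset, ∏ P : {P // P ∈ T}, (1 / (Ideal.absNorm P.1 : ℝ)) ^ (e I P)
      = ∑ f ∈ hfin.toFinset.image e, ∏ P : {P // P ∈ T}, (1 / (Ideal.absNorm P.1 : ℝ)) ^ (f P) := by
        rw [Finset.sum_image hinj]
    _ ≤ ∑ f ∈ box, ∏ P : {P // P ∈ T}, (1 / (Ideal.absNorm P.1 : ℝ)) ^ (f P) := by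
        refine Finset.sum_le_sum_of_subset_of_nonneg ?_ ?_
        · intro f hf
          obtain ⟨I, hI, rfl⟩ := Finset.mem_image.mp hf
          exact hbox I hI
        · intro f _ _
          positivity
    _ = ∏ P : {P // P ∈ T}, ∑ v ∈ Finset.range (x + 1), (1 / (Ideal.absNorm P.1 : ℝ)) ^ v := by
        rw [Finset.prod_univ_sum]
    _ ≤ ∏ P : {P // P ∈ T}, (1 - 1 / (Ideal.absNorm P.1 : ℝ))⁻¹ := by
        refine Finset.prod_le_prod ?_ ?_
        · intro P _
          positivity
        · intro P _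
          have h2 := two_le_absNorm (mem_primesLe.mp P.2).1 (mem_primesLe.mp P.2).2.1
          have h2' : (2 : ℝ) ≤ (Ideal.absNorm P.1 : ℝ) := by exact_mod_cast h2
          have h3 : 1 / (Ideal.absNorm P.1 : ℝ) < 1 := by
            rw [div_lt_one (by linarith)]
            linarith
          have h4 : 0 ≤ 1 / (Ideal.absNorm P.1 : ℝ) := by positivity
          have := (summable_geometric_of_lt_one h4 h3).sum_le_tsum (Finset.range (x + 1))
            (fun i _ => by positivity)
          rwa [tsum_geometric_of_lt_one h4 h3] at this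
    _ = ∏ P ∈ T, (1 - 1 / (Ideal.absNorm P : ℝ))⁻¹ := by
        rw [Finset.prod_coe_sort T (fun P => (1 - 1 / (Ideal.absNorm P : ℝ))⁻¹)]


/-- The rational prime below a prime ideal. -/
lemma norm_prime_power {P : Ideal (𝓞 K)} (h : P.IsPrime) (h0 : P ≠ ⊥) :
    ∃ (p : ℕ) (f : ℕ), p.Prime ∧ 1 ≤ f ∧ Ideal.absNorm P = p ^ f ∧
      P.LiesOver (Ideal.span {(p : ℤ)}) := by
  classical
  have hmax : P.IsMaximal := h.isMaximal h0
  have := hmax
  obtain ⟨p, hp⟩ : ∃ p : ℤ, Ideal.span {p} = P.under ℤ := by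
    obtain ⟨p, hp⟩ := (IsPrincipalIdealRing.principal (P.under ℤ)).principal
    exact ⟨p, hp.symm⟩
  have hne : P.under ℤ ≠ ⊥ := by
    intro hb
    exact h0 (Ideal.eq_bot_of_comap_eq_bot hb)
  have hpp : Prime p := by
    have hpr : (P.under ℤ).IsPrime := inferInstance
    rw [← hp] at hpr hne
    exact (Ideal.span_singleton_prime (by simpa using hne)).mp hpr
  have hlo : P.LiesOver (Ideal.span {(p.natAbs : ℤ)}) := by
    constructor
    rw [← hp]
    simp
  have hnp : p.natAbs.Prime := Int.prime_iff_natAbs_prime.mp hpp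
  refine ⟨p.natAbs, (Ideal.span {(p.natAbs : ℤ)}).inertiaDeg' P, hnp, ?_, ?_, hlo⟩
  · have h1 := Ideal.absNorm_eq_pow_inertiaDeg' P hnp
    have h2 := two_le_absNorm h h0
    by_contra h3
    have h4 : (Ideal.span {(p.natAbs : ℤ)}).inertiaDeg' P = 0 := by omega
    rw [h4, pow_zero] at h1
    omega
  · exact Ideal.absNorm_eq_pow_inertiaDeg' P hnp

/-- At most `[K : ℚ]` primes over `p`. -/
lemma card_over_le {p : ℕ} (hp : p.Prime) (A : Finset (Ideal (𝓞 K)))
    (hA : ∀ P ∈ A, P.IsPrime ∧ P.LiesOver (Ideal.span {(p : ℤ)})) :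
    A.card ≤ Module.finrank ℚ K := by
  classical
  have hp0 : Ideal.span {(p : ℤ)} ≠ ⊥ := by
    simpa using hp.ne_zero
  have hpr : (Ideal.span {(p : ℤ)}).IsPrime := by
    rw [Ideal.span_singleton_prime (by exact_mod_cast hp.ne_zero)]
    exact Nat.prime_iff_prime_int.mp hp
  have : (Ideal.span {(p : ℤ)}).IsMaximal := hpr.isMaximal hp0
  refine le_trans (Finset.card_le_card ?_)
    (Ideal.card_primesOverFinset_le_finrank (S := 𝓞 K) (K := ℚ) (L := K) hp0)
  intro P hP
  rw [IsDedekindDomain.mem_primesOverFinset_iff hp0]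
  exact ⟨(hA P hP).1, (hA P hP).2⟩


lemma inv_one_sub_le_exp {t : ℝ} (h0 : 0 ≤ t) (h1 : t ≤ 1 / 2) :
    (1 - t)⁻¹ ≤ Real.exp (2 * t) := by
  have h2 : (1 - t)⁻¹ ≤ 2 * t + 1 := by
    rw [inv_le_comm₀ (by linarith) (by linarith)]
    rw [inv_eq_one_div, div_le_iff₀ (by linarith)]
    nlinarith
  exact h2.trans (Real.add_one_le_exp _)

lemma telescope (x : ℕ) (hx : 1 ≤ x) :
    ∏ k ∈ Finset.Icc 2 x, (1 - 1 / (k : ℝ) ^ 2)⁻¹ = 2 * (x : ℝ) / ((x : ℝ) + 1) := by
  induction x, hx using Nat.le_induction with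
  | base => norm_num
  | succ n hn ih =>
    rw [Finset.prod_Icc_succ_top (by omega), ih]
    have hn' : (1 : ℝ) ≤ n := by exact_mod_cast hn
    push_cast
    have h1 : (1 : ℝ) - 1 / ((n : ℝ) + 1) ^ 2 = n * (n + 2) / (n + 1) ^ 2 := by
      field_simp
      ring
    rw [h1, inv_div]
    field_simp
    ring

/-- The product over the primes is controlled by the primes of degree one. -/
lemma prod_le (x : ℕ) (hx : 2 ≤ x) [DecidablePred (DegOne K)] :
    ∏ P ∈ primesLe K x, (1 - 1 / (Ideal.absNorm P : ℝ))⁻¹ ≤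
      (2 * Real.exp (2 * ∑ p ∈ (Finset.range (x + 1)).filter (DegOne K), 1 / (p : ℝ))) ^
        (Module.finrank ℚ K) := by
  classical
  set D := Module.finrank ℚ K
  let g : ℕ → ℝ := fun p => if DegOne K p then (1 - 1 / (p : ℝ))⁻¹ else 1
  let h : ℕ → ℝ := fun p => (1 - 1 / (p : ℝ) ^ 2)⁻¹
  let π : Ideal (𝓞 K) → ℕ := fun P => (Ideal.absNorm P).minFac
  set Q := (Finset.range (x + 1)).filter Nat.Prime
  have hπ : ∀ P ∈ primesLe K x, ∃ f : ℕ, 1 ≤ f ∧ (π P).Prime ∧ Ideal.absNorm P = (π P) ^ f ∧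
      P.LiesOver (Ideal.span {((π P : ℕ) : ℤ)}) := by
    intro P hP
    obtain ⟨h1, h2, h3⟩ := mem_primesLe.mp hP
    obtain ⟨p, f, hp, hf, hn, hl⟩ := norm_prime_power h1 h2
    have : π P = p := by
      show (Ideal.absNorm P).minFac = p
      rw [hn]
      exact hp.pow_minFac (by omega)
    rw [this]
    exact ⟨f, hf, hp, hn, hl⟩
  have hg1 : ∀ p : ℕ, p.Prime → 1 ≤ g p := by
    intro p hp
    have h2 : (2 : ℝ) ≤ p := by exact_mod_cast hp.two_le
    simp only [g]
    split_ifs
    · rw [one_le_inv₀]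
      · have : 0 ≤ 1 / (p : ℝ) := by positivity
        linarith
      · have : 1 / (p : ℝ) ≤ 1 / 2 := by
          apply one_div_le_one_div_of_le <;> linarith
        linarith
    · exact le_rfl
  have hh1 : ∀ p : ℕ, 2 ≤ p → 1 ≤ h p := by
    intro p hp
    have h2 : (2 : ℝ) ≤ p := by exact_mod_cast hp
    simp only [h]
    rw [one_le_inv₀]
    · have : 0 ≤ 1 / (p : ℝ) ^ 2 := by positivity
      linarith
    · have : 1 / (p : ℝ) ^ 2 ≤ 1 / 4 := by
        apply one_div_le_one_div_of_le
        · norm_num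
        · nlinarith
      linarith
  have hmaps : ∀ P ∈ primesLe K x, π P ∈ Q := by
    intro P hP
    obtain ⟨f, hf, hp, hn, hl⟩ := hπ P hP
    have hle := (mem_primesLe.mp hP).2.2
    rw [Finset.mem_filter, Finset.mem_range]
    refine ⟨?_, hp⟩
    have : π P ≤ Ideal.absNorm P := by
      rw [hn]
      exact Nat.le_self_pow (by omega) _
    omega
  have hterm : ∀ P ∈ primesLe K x, (1 - 1 / (Ideal.absNorm P : ℝ))⁻¹ ≤ g (π P) * h (π P) := by
    intro P hP
    obtain ⟨f, hf, hp, hn, hl⟩ := hπ P hP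
    have h2 : (2 : ℝ) ≤ π P := by exact_mod_cast hp.two_le
    rcases Nat.lt_or_ge 1 f with hf2 | hf1
    · -- degree at least two
      have h3 : (1 - 1 / (Ideal.absNorm P : ℝ))⁻¹ ≤ h (π P) := by
        simp only [h]
        have h4 : ((π P : ℕ) : ℝ) ^ 2 ≤ (Ideal.absNorm P : ℝ) := by
          rw [hn]
          push_cast
          exact pow_le_pow_right₀ (by linarith) hf2
        have h5 : (0 : ℝ) < ((π P : ℕ) : ℝ) ^ 2 := by positivity
        have h6 : 1 / (Ideal.absNorm P : ℝ) ≤ 1 / ((π P : ℕ) : ℝ) ^ 2 :=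
          one_div_le_one_div_of_le h5 h4
        have h7 : 1 / ((π P : ℕ) : ℝ) ^ 2 ≤ 1 / 4 := by
          apply one_div_le_one_div_of_le
          · norm_num
          · nlinarith
        apply inv_anti₀ <;> linarith
      refine h3.trans ?_
      have := hg1 (π P) hp
      have := hh1 (π P) hp.two_le
      nlinarith
    · have hf' : f = 1 := by omega
      rw [hf', pow_one] at hn
      have hdeg : DegOne K (π P) := ⟨hp, P, hn⟩
      have h3 : (1 - 1 / (Ideal.absNorm P : ℝ))⁻¹ = g (π P) := by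
        simp only [g]
        rw [if_pos hdeg, ← hn]
      rw [h3]
      have := hg1 (π P) hp
      have := hh1 (π P) hp.two_le
      nlinarith
  have hpos : ∀ P ∈ primesLe K x, 0 ≤ (1 - 1 / (Ideal.absNorm P : ℝ))⁻¹ := by
    intro P hP
    have h2 := two_le_absNorm (mem_primesLe.mp hP).1 (mem_primesLe.mp hP).2.1
    have h2' : (2 : ℝ) ≤ (Ideal.absNorm P : ℝ) := by exact_mod_cast h2
    have h3 : 1 / (Ideal.absNorm P : ℝ) ≤ 1 := by
      rw [div_le_one (by linarith)]
      linarith
    apply inv_nonneg.mpr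
    linarith
  calc ∏ P ∈ primesLe K x, (1 - 1 / (Ideal.absNorm P : ℝ))⁻¹
      ≤ ∏ P ∈ primesLe K x, (g (π P) * h (π P)) := Finset.prod_le_prod hpos hterm
    _ = ∏ p ∈ Q, ∏ P ∈ primesLe K x with π P = p, (g (π P) * h (π P)) :=
        (Finset.prod_fiberwise_of_maps_to hmaps _).symm
    _ = ∏ p ∈ Q, (g p * h p) ^ ((primesLe K x).filter (fun P => π P = p)).card := by
        refine Finset.prod_congr rfl ?_
        intro p _
        rw [← Finset.prod_const]
        refine Finset.prod_congr rfl ?_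
        intro P hP
        rw [(Finset.mem_filter.mp hP).2]
    _ ≤ ∏ p ∈ Q, (g p * h p) ^ D := by
        refine Finset.prod_le_prod ?_ ?_
        · intro p hp
          have hpp := (Finset.mem_filter.mp hp).2
          have := hg1 p hpp
          have := hh1 p hpp.two_le
          positivity
        · intro p hp
          have hpp := (Finset.mem_filter.mp hp).2
          have h1 := hg1 p hpp
          have h2 := hh1 p hpp.two_le
          refine pow_le_pow_right₀ (by nlinarith) ?_
          refine card_over_le hpp _ ?_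
          intro P hP
          obtain ⟨hP1, hP2⟩ := Finset.mem_filter.mp hP
          obtain ⟨f, hf, hp', hn, hl⟩ := hπ P hP1
          rw [hP2] at hl
          exact ⟨(mem_primesLe.mp hP1).1, hl⟩
    _ = ((∏ p ∈ Q, g p) * (∏ p ∈ Q, h p)) ^ D := by
        rw [Finset.prod_pow, Finset.prod_mul_distrib]
    _ ≤ (2 * Real.exp (2 * ∑ p ∈ (Finset.range (x + 1)).filter (DegOne K), 1 / (p : ℝ))) ^ D := by
        have hgQ : ∏ p ∈ Q, g p ≤
            Real.exp (2 * ∑ p ∈ (Finset.range (x + 1)).filter (DegOne K), 1 / (p : ℝ)) := by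
          have h1 : ∏ p ∈ Q, g p = ∏ p ∈ (Finset.range (x + 1)).filter (DegOne K),
              (1 - 1 / (p : ℝ))⁻¹ := by
            simp only [g]
            rw [← Finset.prod_filter]
            refine Finset.prod_congr ?_ (fun _ _ => rfl)
            ext p
            simp only [Q, Finset.mem_filter, Finset.mem_range]
            constructor
            · rintro ⟨⟨h1, _⟩, h3⟩
              exact ⟨h1, h3⟩
            · rintro ⟨h1, h3⟩
              exact ⟨⟨h1, h3.1⟩, h3⟩
          rw [h1, Finset.mul_sum, Real.exp_sum]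
          refine Finset.prod_le_prod ?_ ?_
          · intro p hp
            have hpp := (Finset.mem_filter.mp hp).2.1
            have h2 : (2 : ℝ) ≤ p := by exact_mod_cast hpp.two_le
            have h3 : 1 / (p : ℝ) ≤ 1 := by
              rw [div_le_one (by linarith)]
              linarith
            apply inv_nonneg.mpr
            linarith
          · intro p hp
            have hpp := (Finset.mem_filter.mp hp).2.1
            have h2 : (2 : ℝ) ≤ p := by exact_mod_cast hpp.two_le
            refine inv_one_sub_le_exp (by positivity) ?_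
            apply one_div_le_one_div_of_le <;> linarith
        have hhQ : ∏ p ∈ Q, h p ≤ 2 := by
          have h1 : ∏ p ∈ Q, h p ≤ ∏ k ∈ Finset.Icc 2 x, (1 - 1 / (k : ℝ) ^ 2)⁻¹ := by
            have hsub : Q ⊆ Finset.Icc 2 x := by
              intro p hp
              obtain ⟨h1, h2⟩ := Finset.mem_filter.mp hp
              rw [Finset.mem_Icc]
              exact ⟨h2.two_le, by have := Finset.mem_range.mp h1; omega⟩
            rw [← Finset.prod_sdiff hsub]
            have h3 : 1 ≤ ∏ k ∈ Finset.Icc 2 x \ Q, (1 - 1 / (k : ℝ) ^ 2)⁻¹ := by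
              refine Finset.prod_induction _ (fun y : ℝ => 1 ≤ y) ?_ le_rfl ?_
              · intro a b ha hb
                nlinarith
              · intro k hk
                exact hh1 k (Finset.mem_Icc.mp (Finset.mem_sdiff.mp hk).1).1
            have h4 : 0 ≤ ∏ p ∈ Q, h p := by
              refine Finset.prod_nonneg ?_
              intro p hp
              have := hh1 p (Finset.mem_filter.mp hp).2.two_le
              linarith
            calc ∏ p ∈ Q, h p = 1 * ∏ p ∈ Q, h p := by ring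
              _ ≤ _ := mul_le_mul_of_nonneg_right h3 h4
          refine h1.trans ?_
          rw [telescope x (by omega), div_le_iff₀ (by positivity)]
          nlinarith
        have hg0 : 0 ≤ ∏ p ∈ Q, g p := by
          refine Finset.prod_nonneg ?_
          intro p hp
          have := hg1 p (Finset.mem_filter.mp hp).2
          linarith
        have hh0 : 0 ≤ ∏ p ∈ Q, h p := by
          refine Finset.prod_nonneg ?_
          intro p hp
          have := hh1 p (Finset.mem_filter.mp hp).2.two_le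
          linarith
        refine pow_le_pow_left₀ (mul_nonneg hg0 hh0) ?_ _
        calc (∏ p ∈ Q, g p) * (∏ p ∈ Q, h p)
            ≤ Real.exp (2 * ∑ p ∈ (Finset.range (x + 1)).filter (DegOne K), 1 / (p : ℝ)) * 2 := by
              gcongr
          _ = _ := by ring

end aux

/-- T10b (from ideals to primes of degree one). -/
theorem recip_deg_one (K : Type) [Field K] [NumberField K] [DecidablePred (DegOne K)]
    (h : ∃ c > (0 : ℝ), ∀ x : ℕ, 2 ≤ x →
      c * Real.log x ≤ ∑ᶠ I ∈ {I : Ideal (NumberField.RingOfIntegers K) |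
        1 ≤ Ideal.absNorm I ∧ Ideal.absNorm I ≤ x}, 1 / (Ideal.absNorm I : ℝ)) :
    ∃ c > (0 : ℝ), ∃ C : ℝ, ∀ x : ℕ, 2 ≤ x →
      c * Real.log (Real.log x) - C ≤
        ∑ p ∈ (Finset.range (x + 1)).filter (DegOne K), 1 / (p : ℝ) := by
  obtain ⟨c, hc, h⟩ := h
  have hD : 0 < Module.finrank ℚ K := Module.finrank_pos
  have hD' : (0 : ℝ) < Module.finrank ℚ K := by exact_mod_cast hD
  set D := Module.finrank ℚ K
  refine ⟨1 / (2 * D), by positivity, (D * Real.log 2 - Real.log c) / (2 * D), ?_⟩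
  intro x hx
  have hx' : (2 : ℝ) ≤ x := by exact_mod_cast hx
  have hlog : 0 < Real.log x := Real.log_pos (by linarith)
  have h1 := (h x hx).trans ((sum_le_prod x).trans (prod_le (K := K) x hx))
  set S := ∑ p ∈ (Finset.range (x + 1)).filter (DegOne K), 1 / (p : ℝ)
  have h2 := Real.log_le_log (by positivity) h1
  rw [Real.log_mul hc.ne' hlog.ne', Real.log_pow, Real.log_mul (by norm_num) (Real.exp_pos _).ne',
    Real.log_exp] at h2
  rw [div_mul_eq_mul_div, one_mul, ← sub_div, div_le_iff₀ (by positivity)]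
  have h3 : (D : ℝ) * (Real.log 2 + 2 * S) = D * Real.log 2 + S * (2 * D) := by ring
  linarith

end Pool.Agent.H927R2.RD
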