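import Pool.Agent.H927R2.RD.Defs2
import Pool.Agent.Helper256.KM.Mertens

set_option autoImplicit false

namespace Pool.Agent.H927R2.RD

open Filter Asymptotics

private theorem t11_sum_union_le (s t : Finset ℕ) (f : ℕ → ℝ) (hf : ∀ p, 0 ≤ f p) :
    ∑ p ∈ s ∪ t, f p ≤ ∑ p ∈ s, f p + ∑ p ∈ t, f p := by
  rw [← Finset.sum_union_inter]
  have := Finset.sum_nonneg (s := s ∩ t) (fun p _ => hf p)
  linarith

private theorem t11_two_pow_omega_le {d : ℕ} (hd : d ≠ 0) : 2 ^ d.primeFactors.card ≤ d := by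
  calc 2 ^ d.primeFactors.card = ∏ p ∈ d.primeFactors, 2 := by simp
    _ ≤ ∏ p ∈ d.primeFactors, p := by
        apply Finset.prod_le_prod' 
        intro p hp
        exact (Nat.prime_of_mem_primeFactors hp).two_le
    _ ≤ d := Nat.le_of_dvd (Nat.pos_of_ne_zero hd) (Nat.prod_primeFactors_dvd d)

private theorem t11_omega_le {d : ℕ} (hd : d ≠ 0) :
    (d.primeFactors.card : ℝ) ≤ 2 * Real.log d := by
  have h := t11_two_pow_omega_le hd
  have h1 : ((2:ℝ) ^ d.primeFactors.card) ≤ d := by exact_mod_cast h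
  have h2 := Real.log_le_log (by positivity) h1
  rw [Real.log_pow] at h2
  have := Real.log_two_gt_d9
  have h0 : (0:ℝ) ≤ d.primeFactors.card := by positivity
  nlinarith

private theorem t11_ev (c : ℝ) (hc : 0 < c) (K : ℝ) : ∀ᶠ x : ℝ in atTop,
    K ≤ c * Real.log (Real.log (x / 9)) - Real.log (Real.log (Real.log x + 1)) := by
  have hL : Tendsto (fun x : ℝ => Real.log (Real.log x)) atTop atTop :=
    Real.tendsto_log_atTop.comp Real.tendsto_log_atTop
  have h1 : ∀ᶠ x : ℝ in atTop, Real.log x / 2 ≤ Real.log (x / 9) := by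
    filter_upwards [eventually_ge_atTop (81:ℝ)] with x hx
    have hx0 : 0 < x := by linarith
    rw [Real.log_div (by positivity) (by norm_num)]
    have : Real.log 81 ≤ Real.log x := Real.log_le_log (by norm_num) hx
    have h49 : Real.log 81 = 2 * Real.log 9 := by
      rw [show (81:ℝ) = 9 ^ 2 by norm_num, Real.log_pow]; norm_num
    linarith
  have h2 : ∀ᶠ x : ℝ in atTop, Real.log (x + 1) ≤ x ^ (c / 2) := by
    have h := (isLittleO_log_rpow_atTop (show (0:ℝ) < c / 2 by positivity)).bound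
      (c := 1/2) (by norm_num)
    filter_upwards [h, eventually_ge_atTop (2:ℝ)] with x hx hx2
    have hl : 0 < Real.log x := Real.log_pos (by linarith)
    rw [Real.norm_of_nonneg hl.le, Real.norm_of_nonneg (by positivity)] at hx
    have h3 : Real.log (x + 1) ≤ 2 * Real.log x := by
      have : Real.log (x + 1) ≤ Real.log (x ^ 2) := Real.log_le_log (by positivity) (by nlinarith)
      rw [Real.log_pow] at this
      exact_mod_cast this
    linarith
  have h3 := Real.tendsto_log_atTop.eventually h2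
  have h4 : ∀ᶠ x : ℝ in atTop, 2 * (K + c) / c ≤ Real.log (Real.log x) :=
    hL.eventually_ge_atTop _
  have h5 : ∀ᶠ x : ℝ in atTop, 2 ≤ Real.log x := Real.tendsto_log_atTop.eventually_ge_atTop 2
  filter_upwards [h1, h3, h4, h5] with x hx1 hx3 hx4 hx5
  have hlx : 0 < Real.log x := by linarith
  have ha : Real.log (Real.log x / 2) ≤ Real.log (Real.log (x / 9)) :=
    Real.log_le_log (by positivity) hx1
  rw [Real.log_div hlx.ne' (by norm_num)] at ha
  have hb0 : 0 < Real.log (Real.log x + 1) := Real.log_pos (by linarith)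
  have hb : Real.log (Real.log (Real.log x + 1)) ≤ (c/2) * Real.log (Real.log x) := by
    have := Real.log_le_log hb0 hx3
    rwa [Real.log_rpow hlx] at this
  have hl2 : Real.log 2 ≤ 1 := by
    have := Real.log_two_lt_d9; linarith
  rw [div_le_iff₀ hc] at hx4
  have ha' : c * (Real.log (Real.log x) - Real.log 2) ≤ c * Real.log (Real.log (x / 9)) :=
    mul_le_mul_of_nonneg_left ha hc.le
  nlinarith

/-- T11 (primes dividing `d` do not matter). -/
theorem sum_recip_of_rate (S : ℕ → Prop) [DecidablePred S] (hS : ∀ p, S p → p.Prime)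
    (c C : ℝ) (hc : 0 < c) (h : ∀ x : ℕ, 2 ≤ x → c * Real.log (Real.log x) - C ≤
      ∑ p ∈ (Finset.range (x + 1)).filter S, 1 / (p : ℝ)) (M : ℝ) :
    ∃ d₀ : ℕ, ∀ d : ℕ, d₀ ≤ d →
      M ≤ ∑ p ∈ (Finset.range (d + 1)).filter (fun p => S p ∧ ¬ p ∣ d ∧ 8 * p ≤ d),
        1 / (p : ℝ) := by
  obtain ⟨C1, hC1⟩ := Pool.Agent.Helper256.KM.mertens_inv
  suffices h : ∀ᶠ d : ℕ in atTop, M ≤ ∑ p ∈ (Finset.range (d + 1)).filter
      (fun p => S p ∧ ¬ p ∣ d ∧ 8 * p ≤ d), 1 / (p : ℝ) by
    obtain ⟨D, hD⟩ := h.exists_forall_of_atTop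
    exact ⟨D, hD⟩
  have hlog3 : ∀ᶠ x : ℝ in atTop, 3 ≤ Real.log x := Real.tendsto_log_atTop.eventually_ge_atTop 3
  filter_upwards [tendsto_natCast_atTop_atTop.eventually (t11_ev c hc (M + C + C1 + 2)),
    tendsto_natCast_atTop_atTop.eventually hlog3,
    eventually_ge_atTop 72] with d hd1 hd2 hd72
  set X : ℕ := d / 8 with hX
  set y : ℕ := ⌈Real.log d⌉₊ with hy
  have hyge : Real.log d ≤ y := Nat.le_ceil _
  have hylt : (y:ℝ) < Real.log d + 1 := Nat.ceil_lt_add_one (by linarith)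
  have hy3 : 3 ≤ y := by
    have : (3:ℝ) ≤ y := hd2.trans hyge
    exact_mod_cast this
  have hXge : (d:ℝ) / 9 ≤ X := by
    have : d ≤ 9 * X := by omega
    have h : (d:ℝ) ≤ 9 * X := by exact_mod_cast this
    linarith
  have hX2 : 2 ≤ X := by omega
  have hCX := h X hX2
  have hCy := abs_le.mp (hC1 y hy3)
  have hd7 : Real.log 1 < Real.log ((d:ℝ) / 9) := by
    apply Real.log_lt_log one_pos
    rw [lt_div_iff₀ (by norm_num)]
    have : (72:ℝ) ≤ d := by exact_mod_cast hd72
    linarith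
  rw [Real.log_one] at hd7
  have hd0 : (0:ℝ) < d / 9 := by
    have : (72:ℝ) ≤ d := by exact_mod_cast hd72
    positivity
  have hllX : c * Real.log (Real.log ((d:ℝ) / 9)) ≤ c * Real.log (Real.log X) :=
    mul_le_mul_of_nonneg_left
      (Real.log_le_log hd7 (Real.log_le_log hd0 hXge)) hc.le
  have hy0 : (0:ℝ) < y := by exact_mod_cast (by omega : 0 < y)
  have hlly : Real.log (Real.log y) ≤ Real.log (Real.log (Real.log d + 1)) := by
    apply Real.log_le_log
    · apply Real.log_pos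
      exact_mod_cast (by omega : 1 < y)
    · exact Real.log_le_log hy0 hylt.le
  have hfil : (Finset.range (X + 1)).filter S ⊆ (Finset.Icc 1 y).filter Nat.Prime ∪
      (((Finset.range (d + 1)).filter
        (fun p => S p ∧ ¬ p ∣ d ∧ 8 * p ≤ d)) ∪
        d.primeFactors.filter (fun p => y < p)) := by
    intro p hp
    rw [Finset.mem_filter, Finset.mem_range] at hp
    obtain ⟨hp1, hp2⟩ := hp
    have hpp := hS p hp2
    have hp0 := hpp.pos
    simp only [Finset.mem_union, Finset.mem_filter, Finset.mem_Icc, Finset.mem_range,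
      Nat.mem_primeFactors]
    by_cases h1 : p ≤ y
    · left; exact ⟨⟨hp0, h1⟩, hpp⟩
    · right
      by_cases h2 : p ∣ d
      · right; exact ⟨⟨hpp, h2, by omega⟩, by omega⟩
      · left; exact ⟨by omega, hp2, h2, by omega⟩
  have hnn : ∀ p : ℕ, 0 ≤ 1 / (p:ℝ) := fun p => by positivity
  have hsum : ∑ p ∈ (Finset.range (X + 1)).filter S, 1 / (p:ℝ) ≤
      ∑ p ∈ (Finset.Icc 1 y).filter Nat.Prime, 1 / (p:ℝ) +
      (∑ p ∈ (Finset.range (d + 1)).filter
        (fun p => S p ∧ ¬ p ∣ d ∧ 8 * p ≤ d), 1 / (p:ℝ) +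
       ∑ p ∈ d.primeFactors.filter (fun p => y < p), 1 / (p:ℝ)) := by
    refine (Finset.sum_le_sum_of_subset_of_nonneg hfil (fun p _ _ => hnn p)).trans ?_
    refine (t11_sum_union_le _ _ _ hnn).trans ?_
    gcongr
    exact t11_sum_union_le _ _ _ hnn
  have hom : ∑ p ∈ d.primeFactors.filter (fun p => y < p), 1 / (p:ℝ) ≤ 2 := by
    have h1 : ∀ p ∈ d.primeFactors.filter (fun p => y < p), 1 / (p:ℝ) ≤ 1 / Real.log d := by
      intro p hp
      rw [Finset.mem_filter] at hp
      have : (y:ℝ) ≤ p := by exact_mod_cast hp.2.le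
      gcongr
      linarith
    have h2 := Finset.sum_le_card_nsmul _ _ _ h1
    refine h2.trans ?_
    rw [nsmul_eq_mul]
    have h3 : ((d.primeFactors.filter (fun p => y < p)).card : ℝ) ≤ 2 * Real.log d := by
      refine le_trans ?_ (t11_omega_le (show d ≠ 0 by omega))
      exact_mod_cast Finset.card_filter_le _ _
    rw [mul_one_div, div_le_iff₀ (by linarith)]
    exact h3
  linarith [hCX, hCy.2]

end Pool.Agent.H927R2.RD
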