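import Mathlib
import Pool.Agent.H927R2.RD.Defs2

set_option autoImplicit false

/-! T12: a simple root modulo the primes of degree one of a number field. -/

namespace Pool.Agent.H927R2.RD

open Polynomial

private theorem T12_mod {K : Type} [Field K] [NumberField K] (f : Polynomial ℤ)
    (hdeg : 0 < f.natDegree) (θ : K) (hθ : aeval θ f = 0) (p : ℕ) (hp : DegOne K p)
    (hpb : ¬ (p : ℤ) ∣ f.leadingCoeff) : ∃ a : ℤ, (p : ℤ) ∣ f.eval a := by
  obtain ⟨hpp, I, hI⟩ := hp
  have : Fact p.Prime := ⟨hpp⟩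
  have hint : IsIntegral ℤ (f.leadingCoeff • θ) := isIntegral_leadingCoeff_smul f θ hθ
  let w : NumberField.RingOfIntegers K := ⟨f.leadingCoeff • θ, hint⟩
  have hw0 : (integralNormalization f).eval₂ (algebraMap ℤ (NumberField.RingOfIntegers K)) w
      = 0 := by
    apply NumberField.RingOfIntegers.coe_injective
    have e1 : (algebraMap (NumberField.RingOfIntegers K) K).comp
        (algebraMap ℤ (NumberField.RingOfIntegers K)) = algebraMap ℤ K :=
      RingHom.ext_int _ _
    have e2 : algebraMap (NumberField.RingOfIntegers K) K w = algebraMap ℤ K f.leadingCoeff * θ := by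
      rw [← Algebra.smul_def]; rfl
    change algebraMap (NumberField.RingOfIntegers K) K _ = algebraMap (NumberField.RingOfIntegers K) K 0
    rw [hom_eval₂, e1, e2, integralNormalization_eval₂_leadingCoeff_mul hdeg, map_zero]
    rw [show f.eval₂ (algebraMap ℤ K) θ = 0 from hθ, mul_zero]
  have hcard : Nat.card (NumberField.RingOfIntegers K ⧸ I) = p := by
    rw [← hI, Ideal.absNorm_apply, Submodule.cardQuot_apply]
  have : Finite (NumberField.RingOfIntegers K ⧸ I) :=
    Nat.finite_of_card_ne_zero (by rw [hcard]; exact hpp.ne_zero)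
  have := Fintype.ofFinite (NumberField.RingOfIntegers K ⧸ I)
  let e : ZMod p ≃+* (NumberField.RingOfIntegers K ⧸ I) :=
    ZMod.ringEquivOfPrime _ hpp (by rw [← Nat.card_eq_fintype_card]; exact hcard)
  let ψ : NumberField.RingOfIntegers K →+* ZMod p :=
    (e.symm : (NumberField.RingOfIntegers K ⧸ I) →+* ZMod p).comp (Ideal.Quotient.mk I)
  have hψ : ψ.comp (algebraMap ℤ (NumberField.RingOfIntegers K)) = Int.castRingHom (ZMod p) :=
    RingHom.ext_int _ _
  have h1 : (integralNormalization f).eval₂ (Int.castRingHom (ZMod p)) (ψ w) = 0 := by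
    rw [← hψ, ← hom_eval₂, hw0, map_zero]
  have hb : (f.leadingCoeff : ZMod p) ≠ 0 := by
    intro h
    exact hpb ((ZMod.intCast_zmod_eq_zero_iff_dvd _ _).1 h)
  set a1 : ZMod p := (f.leadingCoeff : ZMod p)⁻¹ * ψ w with ha1
  have h2 : ψ w = (Int.castRingHom (ZMod p)) f.leadingCoeff * a1 := by
    rw [ha1, eq_intCast, mul_inv_cancel_left₀ hb]
  rw [h2, integralNormalization_eval₂_leadingCoeff_mul hdeg] at h1
  have h3 : f.eval₂ (Int.castRingHom (ZMod p)) a1 = 0 := by
    rcases mul_eq_zero.1 h1 with h | h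
    · exact absurd (eq_zero_of_pow_eq_zero h) (by simpa using hb)
    · exact h
  refine ⟨(a1.val : ℤ), ?_⟩
  rw [← ZMod.intCast_zmod_eq_zero_iff_dvd]
  have h4 : ((a1.val : ℤ) : ZMod p) = a1 := by simp
  have h5 : ((f.eval (a1.val : ℤ) : ℤ) : ZMod p) = f.eval₂ (Int.castRingHom (ZMod p))
      (((a1.val : ℤ) : ZMod p)) := by
    rw [← eq_intCast (Int.castRingHom (ZMod p)) (f.eval (a1.val : ℤ)), ← eval₂_at_apply]
    simp
  rw [h5, h4, h3]

theorem exists_simple_root (f u v : Polynomial ℤ) (h : ℤ) (hh : h ≠ 0) (hdeg : 0 < f.natDegree)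
    (hb : u * f + v * Polynomial.derivative f = Polynomial.C h) :
    ∃ (K : Type) (_ : Field K) (_ : NumberField K) (S : Finset ℕ), ∀ p : ℕ, p ∉ S →
      DegOne K p → ∃ a : ℤ, (p : ℤ) ∣ f.eval a ∧ ¬ (p : ℤ) ∣ (Polynomial.derivative f).eval a := by
  have hf0 : f ≠ 0 := by rintro rfl; simp at hdeg
  obtain ⟨θ, hθ⟩ : ∃ θ : ℂ, aeval θ f = 0 := by
    apply IsAlgClosed.exists_aeval_eq_zero_of_injective
    · exact (algebraMap ℤ ℂ).injective_int
    · exact (natDegree_pos_iff_degree_pos.1 hdeg).ne'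
  have hint : IsIntegral ℚ θ := by
    rw [← isAlgebraic_iff_isIntegral]
    refine ⟨f.map (Int.castRingHom ℚ), ?_, ?_⟩
    · rw [Ne, Polynomial.map_eq_zero_iff (Int.castRingHom ℚ).injective_int]
      exact hf0
    · rw [← hθ, aeval_def, aeval_def, eval₂_map]
      congr 1
  have : FiniteDimensional ℚ (IntermediateField.adjoin ℚ {θ}) :=
    IntermediateField.adjoin.finiteDimensional hint
  have : NumberField (IntermediateField.adjoin ℚ {θ}) := ⟨⟩
  refine ⟨IntermediateField.adjoin ℚ {θ}, inferInstance, inferInstance,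
    (f.leadingCoeff * h).natAbs.divisors, ?_⟩
  intro p hpS hp
  have hbh : f.leadingCoeff * h ≠ 0 := mul_ne_zero (leadingCoeff_ne_zero.2 hf0) hh
  have hpbh : ¬ (p : ℤ) ∣ f.leadingCoeff * h := by
    intro hd
    apply hpS
    rw [Nat.mem_divisors]
    exact ⟨Int.natCast_dvd.1 hd, by simpa using hbh⟩
  have hroot : aeval (IntermediateField.AdjoinSimple.gen ℚ θ) f = 0 := by
    apply (algebraMap (IntermediateField.adjoin ℚ {θ}) ℂ).injective
    rw [map_zero, ← aeval_algebraMap_apply]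
    exact hθ
  obtain ⟨a, ha⟩ := T12_mod f hdeg _ hroot p hp (fun hd => hpbh (Dvd.dvd.mul_right hd _))
  refine ⟨a, ha, fun hd => hpbh ?_⟩
  apply Dvd.dvd.mul_left
  have h1 := congrArg (Polynomial.eval a) hb
  rw [eval_add, eval_mul, eval_mul, eval_C] at h1
  rw [← h1]
  exact dvd_add (Dvd.dvd.mul_left ha _) (Dvd.dvd.mul_left hd _)

end Pool.Agent.H927R2.RD
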