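import Mathlib
import Pool.Agent.H927R2.RD.Defs2

set_option autoImplicit false

/-! T13: algebraically independent `p`-adic integers with given residues. -/

namespace Pool.Agent.H927R2.RD

open Cardinal in
theorem t13_uncountable (p : ℕ) [Fact p.Prime] : ¬ Countable ℤ_[p] := by
  intro h
  have h1 : Countable ℚ_[p] := by
    refine Function.Surjective.countable (f := fun z : ℤ_[p] × ℤ_[p] => (z.1 : ℚ_[p]) / (z.2 : ℚ_[p])) ?_
    intro x
    obtain ⟨a, b, -, h⟩ := IsFractionRing.div_surjective (A := ℤ_[p]) x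
    exact ⟨(a, b), h⟩
  have h2 : Cardinal.continuum ≤ Cardinal.mk ℚ_[p] :=
    continuum_le_cardinal_of_nontriviallyNormedField ℚ_[p]
  have h3 : Cardinal.mk ℚ_[p] ≤ ℵ₀ := Cardinal.mk_le_aleph0_iff.2 h1
  exact absurd (h2.trans h3) (not_le.2 Cardinal.aleph0_lt_continuum)

theorem t13_countable {r : ℕ} {A : Type} [CommRing A] [Algebra ℚ A] (x : Fin r → A)
    (hx : AlgebraicIndependent ℚ x) : Countable (Algebra.adjoin ℚ (Set.range x)) := by
  have h1 : Countable (MvPolynomial (Fin r) ℚ) := by
    rw [← Cardinal.mk_le_aleph0_iff]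
    refine MvPolynomial.cardinalMk_le_max_lift.trans ?_
    simp
  exact hx.aevalEquiv.surjective.countable

theorem exists_indep (p : ℕ) [Fact p.Prime] (r : ℕ) (a : Fin r → ℤ) :
    ∃ t : Fin r → ℤ_[p], AlgebraicIndependent ℚ (fun i => (t i : ℚ_[p])) ∧
      ∀ i, (PadicInt.toZMod (t i) : ZMod p) = (a i : ZMod p) := by
  induction r with
  | zero =>
    refine ⟨Fin.elim0, ?_, fun i => i.elim0⟩
    rw [algebraicIndependent_empty_type_iff]
    exact (algebraMap ℚ ℚ_[p]).injective
  | succ r ih =>
    obtain ⟨t, ht, hta⟩ := ih (fun i => a i.succ)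
    have hc := t13_countable _ ht
    have key : ∃ y : ℤ_[p], Transcendental
        (Algebra.adjoin ℚ (Set.range (fun i => (t i : ℚ_[p]))))
        ((((a 0 : ℤ) : ℤ_[p]) + (p : ℤ_[p]) * y : ℤ_[p]) : ℚ_[p]) := by
      by_contra hcon
      push Not at hcon
      apply t13_uncountable p
      have h2 := Algebraic.countable
        (Algebra.adjoin ℚ (Set.range (fun i => (t i : ℚ_[p])))) ℚ_[p]
      have h3 := h2.to_subtype
      refine Function.Injective.countable (f := fun y : ℤ_[p] =>
        (⟨((((a 0 : ℤ) : ℤ_[p]) + (p : ℤ_[p]) * y : ℤ_[p]) : ℚ_[p]), by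
          have := hcon y
          rwa [Transcendental, not_not] at this⟩ :
          {x : ℚ_[p] | IsAlgebraic (Algebra.adjoin ℚ (Set.range (fun i => (t i : ℚ_[p])))) x})) ?_
      intro y z hyz
      have h4 := congrArg Subtype.val hyz
      simp only at h4
      have h5 : ((a 0 : ℤ) : ℤ_[p]) + (p : ℤ_[p]) * y = ((a 0 : ℤ) : ℤ_[p]) + (p : ℤ_[p]) * z :=
        Subtype.coe_injective h4
      have h6 := add_left_cancel h5
      have hp : (p : ℤ_[p]) ≠ 0 := by
        exact_mod_cast (Fact.out : p.Prime).ne_zero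
      exact mul_left_cancel₀ hp h6
    obtain ⟨y, hy⟩ := key
    refine ⟨Fin.cons (((a 0 : ℤ) : ℤ_[p]) + (p : ℤ_[p]) * y) t, ?_, ?_⟩
    · have h1 := (ht.option_iff_transcendental _).2 hy
      have h2 := h1.comp (finSuccEquiv r) (finSuccEquiv r).injective
      convert h2 using 1
      funext i
      refine Fin.cases ?_ (fun j => ?_) i
      · simp
      · simp
    · intro i
      refine Fin.cases ?_ (fun j => ?_) i
      · rw [Fin.cons_zero, map_add, map_mul, map_intCast, map_natCast]
        simp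
      · rw [Fin.cons_succ]
        exact hta j

end Pool.Agent.H927R2.RD
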