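import Mathlib
import Pool.Agent.H927R2.RD.Defs2

set_option autoImplicit false

/-! T14: presentation of a finitely generated subfield of `ℂ`. -/

namespace Pool.Agent.H927R2.RD

open Polynomial

attribute [local instance] MvPolynomial.algebraMvPolynomial in
/-- Clearing the denominators of a rational polynomial. -/
theorem T14.clear {r : ℕ} (p : MvPolynomial (Fin r) ℚ) :
    ∃ (n : ℤ) (q : MvPolynomial (Fin r) ℤ), n ≠ 0 ∧
      q.map (Int.castRingHom ℚ) = MvPolynomial.C (n : ℚ) * p := by
  obtain ⟨⟨_, b, hb, rfl⟩, q, h⟩ := IsLocalization.exists_integer_multiple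
    (Submonoid.map (MvPolynomial.C (σ := Fin r)) (nonZeroDivisors ℤ)) p
  refine ⟨b, q, mem_nonZeroDivisors_iff_ne_zero.mp hb, ?_⟩
  rw [MvPolynomial.algebraMap_def] at h
  rw [show (Int.castRingHom ℚ) = algebraMap ℤ ℚ from rfl, h]
  simp only [Algebra.smul_def, MvPolynomial.algebraMap_def, MvPolynomial.map_C]
  rfl

theorem T14.coe_toAdj {r : ℕ} (t : Fin r → ℂ) (q : MvPolynomial (Fin r) ℤ) :
    ((toAdj t q : IntermediateField.adjoin ℚ (Set.range t)) : ℂ) =
      MvPolynomial.aeval t (q.map (Int.castRingHom ℚ)) := by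
  induction q using MvPolynomial.induction_on with
  | C a => simp [toAdj]
  | add p q hp hq => rw [map_add, map_add, map_add, ← hp, ← hq]; rfl
  | mul_X p i hp =>
    rw [map_mul, map_mul, map_mul, ← hp]
    simp [toAdj]

theorem T14.toAdj_injective {r : ℕ} (t : Fin r → ℂ) (ht : AlgebraicIndependent ℚ t) :
    Function.Injective (toAdj t) := by
  intro p q h
  have h1 : MvPolynomial.aeval t (p.map (Int.castRingHom ℚ)) =
      MvPolynomial.aeval t (q.map (Int.castRingHom ℚ)) := by
    rw [← T14.coe_toAdj, ← T14.coe_toAdj, h]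
  have h2 := ht h1
  exact MvPolynomial.map_injective _ (RingHom.injective_int _) h2

theorem T14.toAdj_surj {r : ℕ} (t : Fin r → ℂ)
    (z : IntermediateField.adjoin ℚ (Set.range t)) :
    ∃ x y : MvPolynomial (Fin r) ℤ, z = toAdj t x / toAdj t y := by
  obtain ⟨p, q, h⟩ := (IntermediateField.mem_adjoin_range_iff ℚ t (z : ℂ)).mp z.2
  obtain ⟨n, p', hn, hp⟩ := T14.clear p
  obtain ⟨m, q', hm, hq⟩ := T14.clear q
  refine ⟨MvPolynomial.C m * p', MvPolynomial.C n * q', ?_⟩
  apply Subtype.ext
  have e : ((toAdj t (MvPolynomial.C m * p') / toAdj t (MvPolynomial.C n * q') :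
      IntermediateField.adjoin ℚ (Set.range t)) : ℂ) =
      ((toAdj t (MvPolynomial.C m * p') : IntermediateField.adjoin ℚ (Set.range t)) : ℂ) /
      ((toAdj t (MvPolynomial.C n * q') : IntermediateField.adjoin ℚ (Set.range t)) : ℂ) := rfl
  rw [e, T14.coe_toAdj, T14.coe_toAdj, h]
  simp only [map_mul, hp, hq, MvPolynomial.map_C, MvPolynomial.aeval_C]
  have h1 : (m : ℂ) ≠ 0 := by exact_mod_cast hm
  have h2 : (n : ℂ) ≠ 0 := by exact_mod_cast hn
  simp
  field_simp

/-- T14 (presentation of a finitely generated field). -/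
theorem exists_presentation (s : Finset ℂ) :
    ∃ (r : ℕ) (t : Fin r → ℂ) (θ : ℂ) (P u v : Polynomial (MvPolynomial (Fin r) ℤ))
      (g h : MvPolynomial (Fin r) ℤ), AlgebraicIndependent ℚ t ∧ g ≠ 0 ∧ h ≠ 0 ∧
      IsIntegral (IntermediateField.adjoin ℚ (Set.range t)) θ ∧
      P.map (toAdj t) = Polynomial.C (toAdj t g) *
        minpoly (IntermediateField.adjoin ℚ (Set.range t)) θ ∧
      u * P + v * Polynomial.derivative P = Polynomial.C h ∧
      ∀ x ∈ s, x ∈ IntermediateField.adjoin (IntermediateField.adjoin ℚ (Set.range t)) {θ} := by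
  obtain ⟨B, hB⟩ := (AlgebraicIndependent.matroid ℚ ℂ).exists_isBasis (s : Set ℂ)
  rw [AlgebraicIndependent.matroid_isBasis_iff] at hB
  obtain ⟨hB1, hB2, hB3⟩ := hB
  have hfin : B.Finite := s.finite_toSet.subset hB2
  haveI : Fintype B := hfin.fintype
  set r := Fintype.card B with hr
  let e : Fin r ≃ B := (Fintype.equivFin B).symm
  let t : Fin r → ℂ := fun i => (e i : ℂ)
  have ht : AlgebraicIndependent ℚ t := by
    have := AlgebraicIndependent.comp hB1 e e.injective
    exact this
  have hrange : Set.range t = B := by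
    ext x
    constructor
    · rintro ⟨i, rfl⟩
      exact (e i).2
    · intro hx
      exact ⟨e.symm ⟨x, hx⟩, by simp [t]⟩
  set F := IntermediateField.adjoin ℚ (Set.range t) with hF
  have hint : ∀ x ∈ (s : Set ℂ), IsIntegral F x := by
    intro x hx
    have h1 := hB3 x hx
    rw [← hrange] at h1
    have h2 : IsAlgebraic F x := by
      obtain ⟨p, hp0, hp⟩ := h1
      let φ : Algebra.adjoin ℚ (Set.range t) →+* F :=
        (Subalgebra.inclusion (IntermediateField.algebra_adjoin_le_adjoin ℚ (Set.range t))).toRingHom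
      have hφ : Function.Injective φ := Subalgebra.inclusion_injective _
      refine ⟨p.map φ, ?_, ?_⟩
      · rwa [Ne, Polynomial.map_eq_zero_iff hφ]
      · rw [Polynomial.aeval_def, Polynomial.eval₂_map]
        rw [Polynomial.aeval_def] at hp
        exact hp
    exact h2.isIntegral
  haveI : FiniteDimensional F (IntermediateField.adjoin F (s : Set ℂ)) :=
    IntermediateField.finiteDimensional_adjoin hint
  obtain ⟨α, hα⟩ := Field.exists_primitive_element F (IntermediateField.adjoin F (s : Set ℂ))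
  let θ : ℂ := (α : ℂ)
  have hθ : IntermediateField.adjoin F {θ} = IntermediateField.adjoin F (s : Set ℂ) := by
    have := congr_arg IntermediateField.lift hα
    rw [IntermediateField.lift_adjoin_simple, IntermediateField.lift_top] at this
    exact this
  have hθint : IsIntegral F θ := by
    have h1 : IsIntegral F α := Algebra.IsIntegral.isIntegral α
    exact h1.map (IntermediateField.adjoin F (s : Set ℂ)).val
  letI : Algebra (MvPolynomial (Fin r) ℤ) F := (toAdj t).toAlgebra
  have halg : algebraMap (MvPolynomial (Fin r) ℤ) F = toAdj t := rfl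
  have hinj : Function.Injective (algebraMap (MvPolynomial (Fin r) ℤ) F) :=
    T14.toAdj_injective t ht
  haveI : FaithfulSMul (MvPolynomial (Fin r) ℤ) F :=
    (faithfulSMul_iff_algebraMap_injective _ _).mpr hinj
  haveI : IsFractionRing (MvPolynomial (Fin r) ℤ) F :=
    IsFractionRing.of_field _ _ (T14.toAdj_surj t)
  have hnorm : ∀ q : Polynomial F, ∃ (b : MvPolynomial (Fin r) ℤ)
      (q' : Polynomial (MvPolynomial (Fin r) ℤ)), b ≠ 0 ∧
      q'.map (toAdj t) = Polynomial.C (toAdj t b) * q := by
    intro q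
    obtain ⟨b, hb, h⟩ := IsLocalization.integerNormalization_spec
      (nonZeroDivisors (MvPolynomial (Fin r) ℤ)) q
    refine ⟨b, _, mem_nonZeroDivisors_iff_ne_zero.mp hb, h.trans ?_⟩
    rw [Algebra.smul_def]
    rfl
  have hsep : IsCoprime (minpoly F θ) (derivative (minpoly F θ)) :=
    (minpoly.irreducible hθint).separable
  obtain ⟨A, A', hAA⟩ := hsep
  obtain ⟨g, P, hg, hP⟩ := hnorm (minpoly F θ)
  have hg' : toAdj t g ≠ 0 := by
    intro h0
    exact hg (hinj (by rw [halg, h0, map_zero]))
  obtain ⟨a, u₀, ha, hu₀⟩ := hnorm (A * Polynomial.C (toAdj t g)⁻¹)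
  obtain ⟨b, v₀, hb, hv₀⟩ := hnorm (A' * Polynomial.C (toAdj t g)⁻¹)
  refine ⟨r, t, θ, P, Polynomial.C b * u₀, Polynomial.C a * v₀, g, a * b, ht, hg,
    mul_ne_zero ha hb, hθint, hP, ?_, ?_⟩
  · apply Polynomial.map_injective (toAdj t) hinj
    rw [Polynomial.map_add, Polynomial.map_mul, Polynomial.map_mul, Polynomial.map_mul,
      Polynomial.map_mul, Polynomial.map_C, Polynomial.map_C, Polynomial.map_C,
      ← Polynomial.derivative_map, hu₀, hv₀, hP, Polynomial.derivative_mul,
      Polynomial.derivative_C, zero_mul, zero_add, map_mul, map_mul]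
    have hc : (Polynomial.C (toAdj t g)⁻¹ : Polynomial F) * Polynomial.C (toAdj t g) = 1 := by
      rw [← map_mul, inv_mul_cancel₀ hg', map_one]
    linear_combination (Polynomial.C (toAdj t a) * Polynomial.C (toAdj t b)) * hAA +
      (Polynomial.C (toAdj t a) * Polynomial.C (toAdj t b)) *
        (A * minpoly F θ + A' * derivative (minpoly F θ)) * hc
  · intro x hx
    rw [hθ]
    exact IntermediateField.subset_adjoin F _ hx

end Pool.Agent.H927R2.RD
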