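import Mathlib
import Pool.Agent.H927R2.RD.Defs2

set_option autoImplicit false

/-! T15 (Cassels embedding), first part: the embedding given the statements of T12, T13, T14. -/

namespace Pool.Agent.H927R2.RD

open MvPolynomial Pool.Agent.H936R2

theorem T15.exists_eval_ne {r : ℕ} (q : MvPolynomial (Fin r) ℤ) (hq : q ≠ 0) :
    ∃ a : Fin r → ℤ, MvPolynomial.eval a q ≠ 0 := by
  by_contra hcon
  push Not at hcon
  apply hq
  apply MvPolynomial.funext
  intro a
  rw [hcon a, map_zero]

/-- the embedding of the rational function field -/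
noncomputable def T15.psi {F E E' ι : Type} [Field F] [Field E] [Field E'] [Algebra F E]
    [Algebra F E'] {t : ι → E} (ht : AlgebraicIndependent F t) {t' : ι → E'}
    (ht' : AlgebraicIndependent F t') :
    IntermediateField.adjoin F (Set.range t) →ₐ[F] E' :=
  (IntermediateField.val _).comp
    ((ht.aevalEquivField.symm.trans ht'.aevalEquivField).toAlgHom)

theorem T15.psi_apply {F E E' ι : Type} [Field F] [Field E] [Field E'] [Algebra F E]
    [Algebra F E'] {t : ι → E} (ht : AlgebraicIndependent F t) {t' : ι → E'}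
    (ht' : AlgebraicIndependent F t') (i : ι) (x : IntermediateField.adjoin F (Set.range t))
    (hx : (x : E) = t i) : T15.psi ht ht' x = t' i := by
  have h1 : x = ht.aevalEquivField (algebraMap _ _ (X i : MvPolynomial ι F)) := by
    apply Subtype.ext
    rw [hx]
    simp
  rw [h1]
  simp [T15.psi]

theorem T15.psi_toAdj {p : ℕ} [Fact p.Prime] {r : ℕ} {t : Fin r → ℂ}
    (ht : AlgebraicIndependent ℚ t) {t' : Fin r → ℚ_[p]} (ht' : AlgebraicIndependent ℚ t')
    (g : MvPolynomial (Fin r) ℤ) :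
    T15.psi ht ht' (toAdj t g) = MvPolynomial.eval₂ (Int.castRingHom ℚ_[p]) t' g := by
  have h : (T15.psi ht ht' : IntermediateField.adjoin ℚ (Set.range t) →+* ℚ_[p]).comp (toAdj t) =
      MvPolynomial.eval₂Hom (Int.castRingHom ℚ_[p]) t' := by
    apply MvPolynomial.ringHom_ext
    · intro n
      simp [toAdj]
    · intro i
      simp only [RingHom.comp_apply, coe_eval₂Hom, eval₂_X, RingHom.coe_coe]
      apply T15.psi_apply
      simp [toAdj]
  exact congrArg (fun f : MvPolynomial (Fin r) ℤ →+* ℚ_[p] => f g) h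

theorem T15.toAdj_injective {r : ℕ} {t : Fin r → ℂ} (ht : AlgebraicIndependent ℚ t) :
    Function.Injective (toAdj t) := by
  rw [injective_iff_map_eq_zero]
  intro g hg
  have h1 : ((toAdj t g : IntermediateField.adjoin ℚ (Set.range t)) : ℂ) =
      MvPolynomial.aeval t (MvPolynomial.map (Int.castRingHom ℚ) g) := by
    have h : (algebraMap (IntermediateField.adjoin ℚ (Set.range t)) ℂ).comp (toAdj t) =
        ((MvPolynomial.aeval t : MvPolynomial (Fin r) ℚ →ₐ[ℚ] ℂ) : _ →+* ℂ).comp
          (MvPolynomial.map (Int.castRingHom ℚ)) := by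
      apply MvPolynomial.ringHom_ext
      · intro n
        simp [toAdj]
      · intro i
        simp only [RingHom.comp_apply, toAdj, coe_eval₂Hom, eval₂_X, map_X, RingHom.coe_coe,
          aeval_X]
        rfl
    exact congrArg (fun f : MvPolynomial (Fin r) ℤ →+* ℂ => f g) h
  rw [hg] at h1
  have h2 : MvPolynomial.aeval t (MvPolynomial.map (Int.castRingHom ℚ) g) = 0 := h1.symm
  have h3 := (algebraicIndependent_iff.1 ht) _ h2
  have h4 : Function.Injective (MvPolynomial.map (σ := Fin r) (Int.castRingHom ℚ)) :=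
    MvPolynomial.map_injective _ Int.cast_injective
  exact h4 (by rw [h3, map_zero])

/-- the core: a simple root modulo `p` gives the embedding -/
theorem T15.core {s : Finset ℂ} {r : ℕ} {t : Fin r → ℂ} {θ : ℂ}
    {P : Polynomial (MvPolynomial (Fin r) ℤ)} {g : MvPolynomial (Fin r) ℤ}
    (ht : AlgebraicIndependent ℚ t) (hg : g ≠ 0)
    (hθ : IsIntegral (IntermediateField.adjoin ℚ (Set.range t)) θ)
    (hP : P.map (toAdj t) = Polynomial.C (toAdj t g) *
        minpoly (IntermediateField.adjoin ℚ (Set.range t)) θ)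
    (hs : ∀ x ∈ s, x ∈ IntermediateField.adjoin (IntermediateField.adjoin ℚ (Set.range t)) {θ})
    (a : Fin r → ℤ) {p : ℕ} [Fact p.Prime] {b : ℤ}
    (hb : (p : ℤ) ∣ (P.map (MvPolynomial.eval a)).eval b)
    (hb' : ¬ (p : ℤ) ∣ (Polynomial.derivative (P.map (MvPolynomial.eval a))).eval b)
    (t' : Fin r → ℤ_[p]) (ht' : AlgebraicIndependent ℚ (fun i => (t' i : ℚ_[p])))
    (ht'a : ∀ i, (PadicInt.toZMod (t' i) : ZMod p) = (a i : ZMod p)) :
    Nonempty (Subfield.closure (s : Set ℂ) →+* ℚ_[p]) := by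
  classical
  set φ : MvPolynomial (Fin r) ℤ →+* ℤ_[p] := MvPolynomial.eval₂Hom (Int.castRingHom ℤ_[p]) t'
    with hφ
  set F : Polynomial ℤ_[p] := P.map φ with hF
  have hcomp : (PadicInt.toZMod (p := p)).comp φ =
      (Int.castRingHom (ZMod p)).comp (MvPolynomial.eval a) := by
    apply MvPolynomial.ringHom_ext
    · intro n
      simp [hφ]
    · intro i
      simp [hφ, ht'a]
  have hred : ∀ Q : Polynomial (MvPolynomial (Fin r) ℤ),
      PadicInt.toZMod ((Q.map φ).eval (b : ℤ_[p])) =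
        (((Q.map (MvPolynomial.eval a)).eval b : ℤ) : ZMod p) := by
    intro Q
    have h1 : PadicInt.toZMod ((Q.map φ).eval (b : ℤ_[p])) =
        ((Q.map φ).map PadicInt.toZMod).eval (PadicInt.toZMod (b : ℤ_[p])) := by
      rw [Polynomial.eval_map_apply]
    have h2 : (((Q.map (MvPolynomial.eval a)).eval b : ℤ) : ZMod p) =
        ((Q.map (MvPolynomial.eval a)).map (Int.castRingHom (ZMod p))).eval
          ((Int.castRingHom (ZMod p)) b) := by
      rw [Polynomial.eval_map_apply]; rfl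
    rw [h1, h2, Polynomial.map_map, Polynomial.map_map, hcomp]
    simp
  have hroot0 : ‖F.eval (b : ℤ_[p])‖ < 1 := by
    have h1 : PadicInt.toZMod (F.eval (b : ℤ_[p])) = 0 := by
      rw [hF, hred, ZMod.intCast_zmod_eq_zero_iff_dvd]
      exact hb
    have h2 : F.eval (b : ℤ_[p]) ∈ RingHom.ker (PadicInt.toZMod (p := p)) := h1
    rw [PadicInt.ker_toZMod, IsLocalRing.mem_maximalIdeal, PadicInt.mem_nonunits] at h2
    exact h2
  have hder1 : ‖F.derivative.eval (b : ℤ_[p])‖ = 1 := by
    have h1 : PadicInt.toZMod (F.derivative.eval (b : ℤ_[p])) ≠ 0 := by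
      rw [hF, Polynomial.derivative_map, hred, ← Polynomial.derivative_map, Ne,
        ZMod.intCast_zmod_eq_zero_iff_dvd]
      exact hb'
    by_contra hne
    apply h1
    have h2 : F.derivative.eval (b : ℤ_[p]) ∈ RingHom.ker (PadicInt.toZMod (p := p)) := by
      rw [PadicInt.ker_toZMod, IsLocalRing.mem_maximalIdeal, PadicInt.mem_nonunits]
      exact lt_of_le_of_ne (PadicInt.norm_le_one _) hne
    exact h2
  obtain ⟨z, hz, -⟩ := hensels_lemma (p := p) (F := F) (a := (b : ℤ_[p])) (by
    rw [Polynomial.coe_aeval_eq_eval]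
    show ‖F.eval (b : ℤ_[p])‖ < ‖F.derivative.eval (b : ℤ_[p])‖ ^ 2
    rw [hder1]
    simpa using hroot0)
  rw [Polynomial.coe_aeval_eq_eval] at hz
  -- the field embedding
  set K := IntermediateField.adjoin ℚ (Set.range t) with hK
  let ψ : K →+* ℚ_[p] := (T15.psi ht ht' : K →+* ℚ_[p])
  have hψ : ∀ g' : MvPolynomial (Fin r) ℤ, ψ (toAdj t g') = ((φ g' : ℤ_[p]) : ℚ_[p]) := by
    intro g'
    have h1 := T15.psi_toAdj ht ht' g'
    rw [show ψ (toAdj t g') = T15.psi ht ht' (toAdj t g') from rfl, h1]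
    have h2 : (PadicInt.Coe.ringHom (p := p)).comp φ =
        MvPolynomial.eval₂Hom (Int.castRingHom ℚ_[p]) (fun i => (t' i : ℚ_[p])) := by
      apply MvPolynomial.ringHom_ext
      · intro n
        simp [hφ]
      · intro i
        simp [hφ]
    exact (congrArg (fun f : MvPolynomial (Fin r) ℤ →+* ℚ_[p] => f g') h2).symm
  have hmin : ((minpoly K θ).map ψ).eval (z : ℚ_[p]) = 0 := by
    have h1 : (P.map (toAdj t)).map ψ = F.map (PadicInt.Coe.ringHom (p := p)) := by
      have hh : ψ.comp (toAdj t) = (PadicInt.Coe.ringHom (p := p)).comp φ := RingHom.ext hψ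
      rw [Polynomial.map_map, hF, Polynomial.map_map, hh]
    have h2 : ((P.map (toAdj t)).map ψ).eval (z : ℚ_[p]) = 0 := by
      rw [h1]
      have : (z : ℚ_[p]) = PadicInt.Coe.ringHom z := rfl
      rw [this, Polynomial.eval_map_apply, hz, map_zero]
    rw [hP, Polynomial.map_mul, Polynomial.map_C, Polynomial.eval_mul, Polynomial.eval_C] at h2
    have h3 : ψ (toAdj t g) ≠ 0 := by
      rw [Ne, map_eq_zero]
      intro h0
      exact hg (T15.toAdj_injective ht (by rw [h0, map_zero]))
    exact (mul_eq_zero.1 h2).resolve_left h3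
  let _ : Algebra K ℚ_[p] := ψ.toAlgebra
  have hmem : (z : ℚ_[p]) ∈ (minpoly K θ).aroots ℚ_[p] := by
    rw [Polynomial.mem_aroots]
    refine ⟨minpoly.ne_zero hθ, ?_⟩
    rw [Polynomial.aeval_def, Polynomial.eval₂_eq_eval_map]
    exact hmin
  let χ : IntermediateField.adjoin K {θ} →ₐ[K] ℚ_[p] :=
    (IntermediateField.algHomAdjoinIntegralEquiv K hθ).symm ⟨(z : ℚ_[p]), hmem⟩
  have hle : Subfield.closure (s : Set ℂ) ≤ (IntermediateField.adjoin K {θ}).toSubfield := by
    rw [Subfield.closure_le]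
    intro x hx
    exact hs x hx
  exact ⟨(χ : IntermediateField.adjoin K {θ} →+* ℚ_[p]).comp (Subfield.inclusion hle)⟩

/-- T15 (embedding into `ℚ_p`), with the statements of T12, T13, T14 as hypotheses. -/
theorem T15.exists_padic_embedding_of
    (H12 : ∀ (f u v : Polynomial ℤ) (h : ℤ), h ≠ 0 → 0 < f.natDegree →
      u * f + v * Polynomial.derivative f = Polynomial.C h →
      ∃ (K : Type) (_ : Field K) (_ : NumberField K) (S : Finset ℕ), ∀ p : ℕ, p ∉ S →
        DegOne K p →
          ∃ a : ℤ, (p : ℤ) ∣ f.eval a ∧ ¬ (p : ℤ) ∣ (Polynomial.derivative f).eval a)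
    (H13 : ∀ (p : ℕ) [Fact p.Prime] (r : ℕ) (a : Fin r → ℤ),
      ∃ t : Fin r → ℤ_[p], AlgebraicIndependent ℚ (fun i => (t i : ℚ_[p])) ∧
        ∀ i, (PadicInt.toZMod (t i) : ZMod p) = (a i : ZMod p))
    (H14 : ∀ s : Finset ℂ,
      ∃ (r : ℕ) (t : Fin r → ℂ) (θ : ℂ) (P u v : Polynomial (MvPolynomial (Fin r) ℤ))
        (g h : MvPolynomial (Fin r) ℤ), AlgebraicIndependent ℚ t ∧ g ≠ 0 ∧ h ≠ 0 ∧
        IsIntegral (IntermediateField.adjoin ℚ (Set.range t)) θ ∧
        P.map (toAdj t) = Polynomial.C (toAdj t g) *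
          minpoly (IntermediateField.adjoin ℚ (Set.range t)) θ ∧
        u * P + v * Polynomial.derivative P = Polynomial.C h ∧
        ∀ x ∈ s, x ∈ IntermediateField.adjoin (IntermediateField.adjoin ℚ (Set.range t)) {θ})
    (s : Finset ℂ) :
    ∃ (K : Type) (_ : Field K) (_ : NumberField K) (S : Finset ℕ), ∀ (p : ℕ) [Fact p.Prime],
      p ∉ S → DegOne K p → Nonempty (Subfield.closure (s : Set ℂ) →+* ℚ_[p]) := by
  obtain ⟨r, t, θ, P, u, v, g, h, ht, hg, hh, hθ, hP, hbez, hs⟩ := H14 s
  obtain ⟨a, ha⟩ := T15.exists_eval_ne (g * h) (mul_ne_zero hg hh)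
  rw [map_mul] at ha
  have hga : MvPolynomial.eval a g ≠ 0 := left_ne_zero_of_mul ha
  have hha : MvPolynomial.eval a h ≠ 0 := right_ne_zero_of_mul ha
  have hinj := T15.toAdj_injective ht
  have hgt : toAdj t g ≠ 0 := by
    intro h0
    exact hg (hinj (by rw [h0, map_zero]))
  have hnat : P.natDegree = (minpoly (IntermediateField.adjoin ℚ (Set.range t)) θ).natDegree := by
    rw [← Polynomial.natDegree_map_eq_of_injective hinj, hP, Polynomial.natDegree_C_mul hgt]
  have hlead : P.leadingCoeff = g := by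
    apply hinj
    rw [← Polynomial.leadingCoeff_map_of_injective hinj, hP, Polynomial.leadingCoeff_mul,
      Polynomial.leadingCoeff_C, (minpoly.monic hθ).leadingCoeff, mul_one]
  have hdeg : 0 < (P.map (MvPolynomial.eval a)).natDegree := by
    rw [Polynomial.natDegree_map_of_leadingCoeff_ne_zero _ (by rw [hlead]; exact hga), hnat]
    exact minpoly.natDegree_pos hθ
  have hb : u.map (MvPolynomial.eval a) * P.map (MvPolynomial.eval a) +
      v.map (MvPolynomial.eval a) * Polynomial.derivative (P.map (MvPolynomial.eval a)) =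
      Polynomial.C (MvPolynomial.eval a h) := by
    rw [Polynomial.derivative_map, ← Polynomial.map_mul, ← Polynomial.map_mul,
      ← Polynomial.map_add, hbez, Polynomial.map_C]
  obtain ⟨K, hK1, hK2, S, hS⟩ := H12 _ _ _ _ hha hdeg hb
  refine ⟨K, hK1, hK2, S, ?_⟩
  intro p hp hpS hdeg1
  obtain ⟨b, hb1, hb2⟩ := hS p hpS hdeg1
  obtain ⟨t', ht', ht'a⟩ := H13 p r a
  exact T15.core ht hg hθ hP hs a hb1 hb2 t' ht' ht'a

end Pool.Agent.H927R2.RD
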