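import Mathlib
import Pool.Agent.H927R2.RD.T12
import Pool.Agent.H927R2.RD.T13
import Pool.Agent.H927R2.RD.T14
import Pool.Agent.H927R2.RD.T15a

set_option autoImplicit false

/-! T15 (Cassels embedding). -/

namespace Pool.Agent.H927R2.RD

/-- T15 (embedding into `ℚ_p`, given T12, T13, T14). -/
theorem exists_padic_embedding (s : Finset ℂ) :
    ∃ (K : Type) (_ : Field K) (_ : NumberField K) (S : Finset ℕ), ∀ (p : ℕ) [Fact p.Prime],
      p ∉ S → DegOne K p → Nonempty (Subfield.closure (s : Set ℂ) →+* ℚ_[p]) :=
  T15.exists_padic_embedding_of exists_simple_root exists_indep exists_presentation s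

end Pool.Agent.H927R2.RD
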