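import Mathlib
import Pool.Agent.H927R2.RD.Defs2
import Pool.Agent.H936R2.Crit2

set_option autoImplicit false

/-! T16: extension of embeddings of countable fields to `ℂ`. -/

namespace Pool.Agent.H927R2.RD

open Pool.Agent.H936R2

theorem t16_card_padic (p : ℕ) [hp : Fact p.Prime] :
    Cardinal.mk (PadicAlgCl p) = Cardinal.continuum := by
  have h2 : Cardinal.continuum ≤ Cardinal.mk ℚ_[p] :=
    continuum_le_cardinal_of_nontriviallyNormedField ℚ_[p]
  have h3 : Cardinal.mk ℚ_[p] ≤ Cardinal.continuum := by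
    have h4 : Cardinal.mk ℚ_[p] ≤ Cardinal.mk (CauSeq ℚ (padicNorm p)) :=
      Cardinal.mk_le_of_surjective (f := fun x => (Quotient.mk _ x : ℚ_[p])) (by
        intro y
        exact Quotient.exists_rep y)
    refine h4.trans ?_
    have h5 : Cardinal.mk (CauSeq ℚ (padicNorm p)) ≤ Cardinal.mk (ℕ → ℚ) :=
      Cardinal.mk_le_of_injective (f := fun x => (x : ℕ → ℚ)) (by
        intro x y hxy
        exact Subtype.ext hxy)
    refine h5.trans ?_
    simp
  have h6 : Cardinal.mk ℚ_[p] = Cardinal.continuum := le_antisymm h3 h2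
  apply le_antisymm
  · have := Algebra.IsAlgebraic.cardinalMk_le_max ℚ_[p] (PadicAlgCl p)
    rw [h6, max_eq_left Cardinal.aleph0_le_continuum] at this
    exact this
  · rw [← h6]
    exact Cardinal.mk_le_of_injective (algebraMap ℚ_[p] (PadicAlgCl p)).injective

/-- abstract version -/
theorem t16_extend {L K M : Type} [Field L] [Field K] [Field M] [Algebra L K] [Algebra L M]
    [IsAlgClosed M] (hL : Cardinal.mk L ≤ Cardinal.aleph0)
    (hM : Cardinal.aleph0 < Cardinal.mk M) (hKM : Cardinal.mk K ≤ Cardinal.mk M) :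
    Nonempty (K →ₐ[L] M) := by
  obtain ⟨s, hs⟩ := exists_isTranscendenceBasis L K
  obtain ⟨s', hs'⟩ := exists_isTranscendenceBasis L M
  have h1 := IsAlgClosed.cardinal_eq_cardinal_transcendence_basis_of_aleph0_lt _ hs' hL hM
  simp only [Cardinal.lift_id] at h1
  have h2 : Cardinal.mk s ≤ Cardinal.mk s' := by
    rw [← h1]
    exact (Cardinal.mk_set_le s).trans hKM
  obtain ⟨e⟩ := Cardinal.le_def _ _ |>.1 h2
  have hw : AlgebraicIndependent L (fun i : s => ((e i : s') : M)) := hs'.1.comp e e.injective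
  let A := Algebra.adjoin L (Set.range ((↑) : s → K))
  let ψ : A →ₐ[L] M := (MvPolynomial.aeval (fun i : s => ((e i : s') : M))).comp
    (hs.1.aevalEquiv.symm : A →ₐ[L] MvPolynomial s L)
  have hψ : Function.Injective ψ := by
    have := hw
    rw [algebraicIndependent_iff_injective_aeval] at this
    exact this.comp hs.1.aevalEquiv.symm.injective
  let _ : Algebra A M := ψ.toRingHom.toAlgebra
  have hf : FaithfulSMul A M := (faithfulSMul_iff_algebraMap_injective A M).2 hψ
  have halg : Algebra.IsAlgebraic A K := hs.isAlgebraic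
  let τ : K →ₐ[A] M := IsAlgClosed.lift
  refine ⟨{ τ.toRingHom with commutes' := fun x => ?_ }⟩
  have e1 : algebraMap L K x = algebraMap A K (algebraMap L A x) := rfl
  have e2 : τ (algebraMap A K (algebraMap L A x)) = ψ (algebraMap L A x) := τ.commutes _
  change τ (algebraMap L K x) = _
  rw [e1, e2, AlgHom.commutes]

theorem extend_embedding (p : ℕ) [Fact p.Prime] (L : Subfield ℂ) (hL : Countable L)
    (φ : L →+* ℚ_[p]) :
    ∃ τ : ℂ →+* PadicAlgCl p, ∀ x : L, τ x = algebraMap ℚ_[p] (PadicAlgCl p) (φ x) := by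
  let _ : Algebra L (PadicAlgCl p) := ((algebraMap ℚ_[p] (PadicAlgCl p)).comp φ).toAlgebra
  have h1 : Cardinal.aleph0 < Cardinal.mk (PadicAlgCl p) := by
    rw [t16_card_padic]
    exact Cardinal.aleph0_lt_continuum
  have h2 : Cardinal.mk ℂ ≤ Cardinal.mk (PadicAlgCl p) := by
    rw [t16_card_padic, Cardinal.mk_complex]
  obtain ⟨τ⟩ := t16_extend (L := L) (K := ℂ) (M := PadicAlgCl p)
    (Cardinal.mk_le_aleph0_iff.2 hL) h1 h2
  exact ⟨τ.toRingHom, fun x => τ.commutes x⟩

end Pool.Agent.H927R2.RD
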