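import Mathlib
import Pool.Agent.Helper256.KM.Mertens

set_option autoImplicit false

namespace Pool.Agent.H927R2.RD

open Filter Asymptotics

private theorem sum_union_le' (s t : Finset ℕ) (f : ℕ → ℝ) (hf : ∀ p, 0 ≤ f p) :
    ∑ p ∈ s ∪ t, f p ≤ ∑ p ∈ s, f p + ∑ p ∈ t, f p := by
  rw [← Finset.sum_union_inter]
  have := Finset.sum_nonneg (s := s ∩ t) (fun p _ => hf p)
  linarith

private theorem two_pow_omega_le {d : ℕ} (hd : d ≠ 0) : 2 ^ d.primeFactors.card ≤ d := by
  calc 2 ^ d.primeFactors.card = ∏ p ∈ d.primeFactors, 2 := by simp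
    _ ≤ ∏ p ∈ d.primeFactors, p := by
        apply Finset.prod_le_prod' 
        intro p hp
        exact (Nat.prime_of_mem_primeFactors hp).two_le
    _ ≤ d := Nat.le_of_dvd (Nat.pos_of_ne_zero hd) (Nat.prod_primeFactors_dvd d)

private theorem omega_le {d : ℕ} (hd : d ≠ 0) : (d.primeFactors.card : ℝ) ≤ 2 * Real.log d := by
  have h := two_pow_omega_le hd
  have h1 : ((2:ℝ) ^ d.primeFactors.card) ≤ d := by exact_mod_cast h
  have h2 := Real.log_le_log (by positivity) h1
  rw [Real.log_pow] at h2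
  have := Real.log_two_gt_d9
  have h0 : (0:ℝ) ≤ d.primeFactors.card := by positivity
  nlinarith

private theorem ev1 : ∀ᶠ x : ℝ in atTop, (Real.log x) ^ 2 * 2 + 2 * Real.log x ≤ x / 16 := by
  have h1 := (Real.isLittleO_pow_log_id_atTop (n := 2)).bound (c := 1/64) (by norm_num)
  have h2 := (Real.isLittleO_pow_log_id_atTop (n := 1)).bound (c := 1/64) (by norm_num)
  filter_upwards [h1, h2, eventually_ge_atTop (1:ℝ)] with x hx hx2 hx1
  rw [id, Real.norm_of_nonneg (by positivity), Real.norm_of_nonneg (by linarith)] at hx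
  rw [id, pow_one, Real.norm_of_nonneg (Real.log_nonneg hx1), Real.norm_of_nonneg (by linarith)] at hx2
  linarith

private theorem many_aux : ∀ᶠ d : ℕ in atTop, (1/16:ℝ) * d / Real.log d ≤
      ((Finset.range (d + 1)).filter fun p => p.Prime ∧ ¬ p ∣ d ∧ 2 * (2 * (p - 1)) + 3 ≤ d).card := by
  filter_upwards [tendsto_natCast_atTop_atTop.eventually ev1, eventually_ge_atTop 12] with d hd hd12
  set x : ℕ := (d + 1) / 4 with hx
  have hx1 : 2 ≤ x := by omega
  have hx2 : (d:ℝ) / 5 ≤ x := by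
    have : d ≤ 5 * x := by omega
    have h : (d:ℝ) ≤ 5 * x := by exact_mod_cast this
    linarith
  have hxd : x + 1 ≤ d := by omega
  have hsub : (Nat.primesLE x) \ d.primeFactors ⊆
      (Finset.range (d + 1)).filter fun p => p.Prime ∧ ¬ p ∣ d ∧ 2 * (2 * (p - 1)) + 3 ≤ d := by
    intro p hp
    rw [Finset.mem_sdiff, Nat.mem_primesLE, Nat.mem_primeFactors] at hp
    obtain ⟨⟨h1, h2⟩, h3⟩ := hp
    rw [Finset.mem_filter, Finset.mem_range]
    have h2' := h2.two_le
    refine ⟨by omega, h2, ?_, by omega⟩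
    intro h
    exact h3 ⟨h2, h, by omega⟩
  have hcard := Finset.card_le_card hsub
  have hcard2 : Nat.primeCounting x ≤ ((Nat.primesLE x) \ d.primeFactors).card + d.primeFactors.card := by
    rw [← Nat.primesLE_card_eq_primeCounting]
    have := Finset.le_card_sdiff d.primeFactors (Nat.primesLE x)
    omega
  have hcard3 : (Nat.primeCounting x : ℝ) ≤
      ((Finset.range (d + 1)).filter fun p => p.Prime ∧ ¬ p ∣ d ∧ 2 * (2 * (p - 1)) + 3 ≤ d).card
        + d.primeFactors.card := by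
    have : Nat.primeCounting x ≤
      ((Finset.range (d + 1)).filter fun p => p.Prime ∧ ¬ p ∣ d ∧ 2 * (2 * (p - 1)) + 3 ≤ d).card
        + d.primeFactors.card := by omega
    exact_mod_cast this
  have hpi := Chebyshev.pi_ge x
  have hlogx : 0 < Real.log x := Real.log_pos (by exact_mod_cast (by omega : 1 < x))
  have hxle : (x:ℝ) ≤ d := by exact_mod_cast (by omega : x ≤ d)
  have hxpos : (0:ℝ) < x := by exact_mod_cast (by omega : 0 < x)
  have hlogd : Real.log x ≤ Real.log d := Real.log_le_log hxpos hxle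
  have hlogdpos : 0 < Real.log d := lt_of_lt_of_le hlogx hlogd
  have hlogx1 : Real.log (x + 1) ≤ Real.log d :=
    Real.log_le_log (by positivity) (by exact_mod_cast hxd)
  have hom := omega_le (show d ≠ 0 by omega)
  have h1 : x * Real.log 2 - Real.log (x + 1) ≤ (Nat.primeCounting x : ℝ) * Real.log d := by
    rw [div_le_iff₀ hlogx] at hpi
    refine hpi.trans ?_
    gcongr
  have h2 : (d:ℝ) / 8 - Real.log d ≤ x * Real.log 2 - Real.log (x + 1) := by
    have := Real.log_two_gt_d9
    nlinarith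
  rw [div_le_iff₀ hlogdpos]
  nlinarith

theorem many_primes : ∃ c > (0 : ℝ), ∃ C : ℝ, ∀ d : ℕ, 2 ≤ d →
    c * d / Real.log d - C ≤
      ((Finset.range (d + 1)).filter fun p => p.Prime ∧ ¬ p ∣ d ∧ 2 * (2 * (p - 1)) + 3 ≤ d).card := by
  obtain ⟨D, hD⟩ := many_aux.exists_forall_of_atTop
  refine ⟨1/16, by norm_num, (1/16) * D / Real.log 2, ?_⟩
  intro d hd
  by_cases h : D ≤ d
  · have h1 := hD d h
    have h2 : 0 ≤ (1/16) * (D:ℝ) / Real.log 2 := by
      have := Real.log_two_gt_d9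
      positivity
    linarith
  · push Not at h
    have h0 : (0:ℝ) ≤ ((Finset.range (d + 1)).filter fun p => p.Prime ∧ ¬ p ∣ d ∧ 2 * (2 * (p - 1)) + 3 ≤ d).card := by
      positivity
    have hl2 : 0 < Real.log 2 := by have := Real.log_two_gt_d9; linarith
    have hl : Real.log 2 ≤ Real.log d := Real.log_le_log (by norm_num) (by exact_mod_cast hd)
    have h3 : (1/16:ℝ) * d / Real.log d ≤ (1/16) * D / Real.log 2 := by
      have : (d:ℝ) ≤ D := by exact_mod_cast h.le
      gcongr
    linarith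

private theorem ev2 (K : ℝ) : ∀ᶠ x : ℝ in atTop,
    K ≤ Real.log (Real.log (x / 7)) - Real.log (Real.log (Real.log x + 1)) := by
  -- log log (x/7) - log log (log x + 1) -> infinity
  have hL : Tendsto (fun x : ℝ => Real.log (Real.log x)) atTop atTop :=
    Real.tendsto_log_atTop.comp Real.tendsto_log_atTop
  -- x / 7 >= sqrt x, so log (x/7) >= (1/2) log x; and log (log x + 1) <= (log x)^(1/2)
  have h1 : ∀ᶠ x : ℝ in atTop, Real.log x / 2 ≤ Real.log (x / 7) := by
    filter_upwards [eventually_ge_atTop (49:ℝ)] with x hx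
    have hx0 : 0 < x := by linarith
    rw [Real.log_div (by positivity) (by norm_num)]
    have : Real.log 49 ≤ Real.log x := Real.log_le_log (by norm_num) hx
    have h49 : Real.log 49 = 2 * Real.log 7 := by
      rw [show (49:ℝ) = 7 ^ 2 by norm_num, Real.log_pow]; norm_num
    linarith
  have h2 : ∀ᶠ x : ℝ in atTop, Real.log (x + 1) ≤ x ^ (1/2:ℝ) := by
    have h := (isLittleO_log_rpow_atTop (show (0:ℝ) < 1/2 by norm_num)).bound (c := 1/2) (by norm_num)
    filter_upwards [h, eventually_ge_atTop (2:ℝ)] with x hx hx2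
    have hl : 0 < Real.log x := Real.log_pos (by linarith)
    rw [Real.norm_of_nonneg hl.le, Real.norm_of_nonneg (by positivity)] at hx
    have h3 : Real.log (x + 1) ≤ 2 * Real.log x := by
      have : Real.log (x + 1) ≤ Real.log (x ^ 2) := Real.log_le_log (by positivity) (by nlinarith)
      rw [Real.log_pow] at this
      exact_mod_cast this
    linarith
  have h3 := Real.tendsto_log_atTop.eventually h2
  have h4 : ∀ᶠ x : ℝ in atTop, 2 * (K + 1) ≤ Real.log (Real.log x) := hL.eventually_ge_atTop _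
  have h5 : ∀ᶠ x : ℝ in atTop, 2 ≤ Real.log x := Real.tendsto_log_atTop.eventually_ge_atTop 2
  filter_upwards [h1, h3, h4, h5] with x hx1 hx3 hx4 hx5
  have hlx : 0 < Real.log x := by linarith
  have ha : Real.log (Real.log x / 2) ≤ Real.log (Real.log (x / 7)) :=
    Real.log_le_log (by positivity) hx1
  rw [Real.log_div hlx.ne' (by norm_num)] at ha
  have hb0 : 0 < Real.log (Real.log x + 1) := Real.log_pos (by linarith)
  have hb : Real.log (Real.log (Real.log x + 1)) ≤ (1/2) * Real.log (Real.log x) := by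
    have := Real.log_le_log hb0 hx3
    rwa [Real.log_rpow hlx] at this
  have hl2 : Real.log 2 ≤ 1 := by
    have := Real.log_two_lt_d9; linarith
  linarith

theorem sum_recip (M : ℝ) : ∃ d₀ : ℕ, ∀ d : ℕ, d₀ ≤ d →
    M ≤ ∑ p ∈ (Finset.range (d + 1)).filter
      (fun p => p.Prime ∧ ¬ p ∣ d ∧ 2 * (3 * (p - 1)) + 3 ≤ d), 1 / (p : ℝ) := by
  obtain ⟨C, hC⟩ := Pool.Agent.Helper256.KM.mertens_inv
  suffices h : ∀ᶠ d : ℕ in atTop, M ≤ ∑ p ∈ (Finset.range (d + 1)).filter
      (fun p => p.Prime ∧ ¬ p ∣ d ∧ 2 * (3 * (p - 1)) + 3 ≤ d), 1 / (p : ℝ) by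
    obtain ⟨D, hD⟩ := h.exists_forall_of_atTop
    exact ⟨D, hD⟩
  have hlog3 : ∀ᶠ x : ℝ in atTop, 3 ≤ Real.log x := Real.tendsto_log_atTop.eventually_ge_atTop 3
  have hlogle : ∀ᶠ x : ℝ in atTop, Real.log x + 1 ≤ x / 7 := by
    have h := (Real.isLittleO_pow_log_id_atTop (n := 1)).bound (c := 1/14) (by norm_num)
    filter_upwards [h, eventually_ge_atTop (14:ℝ)] with x hx hx1
    rw [id, pow_one, Real.norm_of_nonneg (Real.log_nonneg (by linarith)),
      Real.norm_of_nonneg (by linarith)] at hx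
    linarith
  filter_upwards [tendsto_natCast_atTop_atTop.eventually (ev2 (M + 2 * C + 2)),
    tendsto_natCast_atTop_atTop.eventually hlog3, tendsto_natCast_atTop_atTop.eventually hlogle,
    eventually_ge_atTop 21] with d hd1 hd2 hd3 hd21
  set X : ℕ := (d + 3) / 6 with hX
  set y : ℕ := ⌈Real.log d⌉₊ with hy
  have hyge : Real.log d ≤ y := Nat.le_ceil _
  have hylt : (y:ℝ) < Real.log d + 1 := Nat.ceil_lt_add_one (by linarith)
  have hy3 : 3 ≤ y := by
    have : (3:ℝ) ≤ y := hd2.trans hyge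
    exact_mod_cast this
  have hXge : (d:ℝ) / 7 ≤ X := by
    have : d ≤ 7 * X := by omega
    have h : (d:ℝ) ≤ 7 * X := by exact_mod_cast this
    linarith
  have hyX : y ≤ X := by
    have : (y:ℝ) ≤ X := by linarith
    exact_mod_cast this
  have hX3 : 3 ≤ X := hy3.trans hyX
  have hCX := abs_le.mp (hC X hX3)
  have hCy := abs_le.mp (hC y hy3)
  have hd7 : Real.log 1 < Real.log ((d:ℝ) / 7) := by
    apply Real.log_lt_log one_pos
    rw [lt_div_iff₀ (by norm_num)]
    have : (21:ℝ) ≤ d := by exact_mod_cast hd21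
    linarith
  rw [Real.log_one] at hd7
  have hd0 : (0:ℝ) < d / 7 := by
    have : (21:ℝ) ≤ d := by exact_mod_cast hd21
    positivity
  have hllX : Real.log (Real.log ((d:ℝ) / 7)) ≤ Real.log (Real.log X) :=
    Real.log_le_log hd7 (Real.log_le_log hd0 hXge)
  have hy0 : (0:ℝ) < y := by exact_mod_cast (by omega : 0 < y)
  have hlly : Real.log (Real.log y) ≤ Real.log (Real.log (Real.log d + 1)) := by
    apply Real.log_le_log
    · apply Real.log_pos
      exact_mod_cast (by omega : 1 < y)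
    · exact Real.log_le_log hy0 hylt.le
  -- split the sum up to X
  have hfil : (Finset.Icc 1 X).filter Nat.Prime ⊆ (Finset.Icc 1 y).filter Nat.Prime ∪
      (((Finset.range (d + 1)).filter
        (fun p => p.Prime ∧ ¬ p ∣ d ∧ 2 * (3 * (p - 1)) + 3 ≤ d)) ∪
        d.primeFactors.filter (fun p => y < p)) := by
    intro p hp
    rw [Finset.mem_filter, Finset.mem_Icc] at hp
    obtain ⟨⟨hp1, hp2⟩, hp3⟩ := hp
    simp only [Finset.mem_union, Finset.mem_filter, Finset.mem_Icc, Finset.mem_range,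
      Nat.mem_primeFactors]
    by_cases h1 : p ≤ y
    · left; exact ⟨⟨hp1, h1⟩, hp3⟩
    · right
      by_cases h2 : p ∣ d
      · right; exact ⟨⟨hp3, h2, by omega⟩, by omega⟩
      · left; exact ⟨by omega, hp3, h2, by omega⟩
  have hnn : ∀ p : ℕ, 0 ≤ 1 / (p:ℝ) := fun p => by positivity
  have hsum : ∑ p ∈ (Finset.Icc 1 X).filter Nat.Prime, 1 / (p:ℝ) ≤
      ∑ p ∈ (Finset.Icc 1 y).filter Nat.Prime, 1 / (p:ℝ) +
      (∑ p ∈ (Finset.range (d + 1)).filter
        (fun p => p.Prime ∧ ¬ p ∣ d ∧ 2 * (3 * (p - 1)) + 3 ≤ d), 1 / (p:ℝ) +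
       ∑ p ∈ d.primeFactors.filter (fun p => y < p), 1 / (p:ℝ)) := by
    refine (Finset.sum_le_sum_of_subset_of_nonneg hfil (fun p _ _ => hnn p)).trans ?_
    refine (sum_union_le' _ _ _ hnn).trans ?_
    gcongr
    exact sum_union_le' _ _ _ hnn
  have hom : ∑ p ∈ d.primeFactors.filter (fun p => y < p), 1 / (p:ℝ) ≤ 2 := by
    have h1 : ∀ p ∈ d.primeFactors.filter (fun p => y < p), 1 / (p:ℝ) ≤ 1 / Real.log d := by
      intro p hp
      rw [Finset.mem_filter] at hp
      have : (y:ℝ) ≤ p := by exact_mod_cast hp.2.le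
      gcongr
      linarith
    have h2 := Finset.sum_le_card_nsmul _ _ _ h1
    refine h2.trans ?_
    rw [nsmul_eq_mul]
    have h3 : ((d.primeFactors.filter (fun p => y < p)).card : ℝ) ≤ 2 * Real.log d := by
      refine le_trans ?_ (omega_le (show d ≠ 0 by omega))
      exact_mod_cast Finset.card_filter_le _ _
    rw [mul_one_div, div_le_iff₀ (by linarith)]
    exact h3
  linarith [hCX.1, hCy.2]

end Pool.Agent.H927R2.RD
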