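import Pool.Agent.H927R2.RD.Defs2
import Pool.Agent.H927R2.RD.T4
import Pool.Agent.H927R2.RD.T7

set_option autoImplicit false

/-! T9 (helper880): tables in `ℙ^4` that are good at a given point -/

namespace Pool.Agent.H927R2.RD

open MvPolynomial Pool.Agent.H936R2

open scoped LinearAlgebra.Projectivization

/-- counting tables with prescribed conditions along an injective walk -/
theorem T9_card_walk {X M : Type} [Fintype X] [Fintype M] [Nonempty M] (k : ℕ)
    (w : ℕ → X) (hw : ∀ i ≤ k, ∀ j ≤ k, w i = w j → i = j) (P : ℕ → M → Prop) :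
    (Nat.card {A : X → M // ∀ j ≤ k, P j (A (w j))} : ℝ) =
      (Nat.card (X → M) : ℝ) *
        ∏ j ∈ Finset.range (k + 1), ((Nat.card {m // P j m} : ℝ) / Nat.card M) := by
  classical
  set Q : X → M → Prop := fun y m => ∀ j ≤ k, w j = y → P j m with hQ
  have hM : (Nat.card M : ℝ) ≠ 0 := by
    have : 0 < Nat.card M := Nat.card_pos
    positivity
  have e1 : Nat.card {A : X → M // ∀ j ≤ k, P j (A (w j))} = ∏ y, Nat.card {m // Q y m} := by
    rw [← Nat.card_pi, ← Nat.card_congr (Equiv.subtypePiEquivPi (p := fun (y : X) (m : M) => Q y m))]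
    refine Nat.card_congr (Equiv.subtypeEquivRight fun A => ?_)
    constructor
    · rintro h y j hj rfl
      exact h j hj
    · intro h j hj
      exact h (w j) j hj rfl
  set r : X → ℝ := fun y => (Nat.card {m // Q y m} : ℝ) / Nat.card M with hr
  have e2 : ∏ y, r y = ∏ j ∈ Finset.range (k + 1), ((Nat.card {m // P j m} : ℝ) / Nat.card M) := by
    have h1 : ∏ y, r y = ∏ y ∈ (Finset.range (k + 1)).image w, r y := by
      symm
      apply Finset.prod_subset (Finset.subset_univ _)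
      intro y _ hy
      have : ∀ m, Q y m := by
        intro m j hj hjy
        exact absurd (Finset.mem_image.2 ⟨j, Finset.mem_range.2 (by omega), hjy⟩) hy
      have h2 : Nat.card {m // Q y m} = Nat.card M :=
        Nat.card_congr (Equiv.subtypeUnivEquiv this)
      simp only [hr, h2]
      exact div_self hM
    rw [h1, Finset.prod_image]
    · refine Finset.prod_congr rfl fun j hj => ?_
      have hjk : j ≤ k := by
        rw [Finset.mem_range] at hj
        omega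
      have h2 : Nat.card {m // Q (w j) m} = Nat.card {m // P j m} := by
        refine Nat.card_congr (Equiv.subtypeEquivRight fun m => ?_)
        constructor
        · intro h
          exact h j hjk rfl
        · intro h j' hj' e
          rw [hw j' hj' j hjk e]
          exact h
      simp only [hr, h2]
    · intro i hi j hj e
      rw [Finset.mem_coe, Finset.mem_range] at hi hj
      exact hw i (by omega) j (by omega) e
  rw [← e2, e1, hr, Finset.prod_div_distrib, Finset.prod_const, Finset.card_univ, Nat.card_fun,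
    Nat.card_eq_fintype_card (α := X)]
  push_cast
  have : (Nat.card M : ℝ) ^ Fintype.card X ≠ 0 := pow_ne_zero _ hM
  field_simp

section

variable {p : ℕ} [Fact p.Prime]

/-- the induced self-map -/
noncomputable def T9F {n : ℕ} (A : Tab p n) (y : PP p n) : PP p n := by
  classical
  exact if h : (A y).mulVec y.rep ≠ 0 then Projectivization.mk (ZMod p) _ h else y

theorem T9F_eq {n : ℕ} {A : Tab p n} {y z : PP p n}
    (h : ∃ a : ZMod p, a ≠ 0 ∧ (A y).mulVec y.rep = a • z.rep) :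
    ∃ h0 : (A y).mulVec y.rep ≠ 0, T9F A y = Projectivization.mk (ZMod p) _ h0 ∧ T9F A y = z := by
  obtain ⟨a, ha, haz⟩ := h
  have h0 : (A y).mulVec y.rep ≠ 0 := by
    rw [haz]
    exact smul_ne_zero ha z.rep_nonzero
  have h1 : T9F A y = Projectivization.mk (ZMod p) _ h0 := by
    unfold T9F
    rw [dif_pos h0]
  refine ⟨h0, h1, ?_⟩
  rw [h1, ← z.mk_rep, Projectivization.mk_eq_mk_iff']
  exact ⟨a, haz.symm⟩

/-- next index -/
def T9nx (k c j : ℕ) : ℕ := if j = k then k - c else j + 1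

/-- the condition at time `j` for a walk `w` -/
def T9P {n : ℕ} (w : ℕ → PP p n) (k c j : ℕ) (M : Matrix (Fin n) (Fin n) (ZMod p)) : Prop :=
  (∃ a : ZMod p, a ≠ 0 ∧ M.mulVec (w j).rep = a • (w (T9nx k c j)).rep) ∧ (k - c ≤ j → M.det ≠ 0)

theorem T9_good {n : ℕ} {A : Tab p n} {w : ℕ → PP p n} {k c : ℕ}
    (h : ∀ j ≤ k, T9P w k c j (A (w j))) : GoodAt A (w 0) := by
  have hF : ∀ j ≤ k, T9F A (w j) = w (T9nx k c j) := fun j hj =>
    (T9F_eq (h j hj).1).choose_spec.2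
  have inv : ∀ n, ∃ j ≤ k, (T9F A)^[n] (w 0) = w j ∧ ((n ≤ k - c ∧ j = n) ∨ k - c ≤ j) := by
    intro n
    induction n with
    | zero => exact ⟨0, Nat.zero_le _, rfl, Or.inl ⟨Nat.zero_le _, rfl⟩⟩
    | succ n ih =>
      obtain ⟨j, hj, e, hcase⟩ := ih
      refine ⟨T9nx k c j, ?_, ?_, ?_⟩
      · unfold T9nx
        split_ifs <;> omega
      · rw [Function.iterate_succ_apply', e, hF j hj]
      · unfold T9nx
        split_ifs <;> omega
  have key : ∀ y : PP p n, (∃ j ≤ k, y = w j) → ∃ h0 : (A y).mulVec y.rep ≠ 0,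
      T9F A y = Projectivization.mk (ZMod p) _ h0 := by
    rintro y ⟨j, hj, rfl⟩
    obtain ⟨h0, h1, _⟩ := T9F_eq (h j hj).1
    exact ⟨h0, h1⟩
  refine ⟨fun n => (T9F A)^[n] (w 0), rfl, ?_, k - c, ?_⟩
  · intro i
    obtain ⟨j, hj, e, _⟩ := inv i
    obtain ⟨h0, h1⟩ := key _ ⟨j, hj, e⟩
    exact ⟨h0, (Function.iterate_succ_apply' _ _ _).trans h1⟩
  · intro i hi
    obtain ⟨j, hj, e, hcase⟩ := inv i
    simp only
    rw [e]
    exact (h j hj).2 (by omega)

theorem T9_walk {n : ℕ} {A : Tab p n} {w : ℕ → PP p n} {k c : ℕ}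
    (h : ∀ j ≤ k, T9P w k c j (A (w j))) :
    (∀ j ≤ k, (T9F A)^[j] (w 0) = w j) ∧ (T9F A)^[k + 1] (w 0) = w (k - c) := by
  have hF : ∀ j ≤ k, T9F A (w j) = w (T9nx k c j) := fun j hj =>
    (T9F_eq (h j hj).1).choose_spec.2
  have h1 : ∀ j ≤ k, (T9F A)^[j] (w 0) = w j := by
    intro j
    induction j with
    | zero => intro _; rfl
    | succ j ih =>
      intro hj
      rw [Function.iterate_succ_apply', ih (by omega), hF j (by omega)]
      unfold T9nx
      rw [if_neg (by omega)]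
  refine ⟨h1, ?_⟩
  rw [Function.iterate_succ_apply', h1 k le_rfl, hF k le_rfl]
  unfold T9nx
  rw [if_pos rfl]

/-- the walk of an embedding -/
noncomputable def T9w {n k : ℕ} (x : PP p n) (e : Fin k ↪ {y : PP p n // y ≠ x}) (j : ℕ) :
    PP p n :=
  if h : 0 < j ∧ j ≤ k then (e ⟨j - 1, by omega⟩ : PP p n) else x

theorem T9w_zero {n k : ℕ} (x : PP p n) (e : Fin k ↪ {y : PP p n // y ≠ x}) : T9w x e 0 = x := by
  unfold T9w
  rw [dif_neg (by omega)]

theorem T9w_succ {n k : ℕ} (x : PP p n) (e : Fin k ↪ {y : PP p n // y ≠ x}) (j : Fin k) :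
    T9w x e (j + 1) = e j := by
  unfold T9w
  rw [dif_pos ⟨by omega, by omega⟩]
  rfl

theorem T9w_inj {n k : ℕ} (x : PP p n) (e : Fin k ↪ {y : PP p n // y ≠ x}) :
    ∀ i ≤ k, ∀ j ≤ k, T9w x e i = T9w x e j → i = j := by
  intro i hi j hj h
  rcases Nat.eq_zero_or_pos i with rfl | hi0
  · rcases Nat.eq_zero_or_pos j with rfl | hj0
    · rfl
    · exfalso
      obtain ⟨j', rfl⟩ : ∃ j', j = j' + 1 := ⟨j - 1, by omega⟩
      rw [T9w_zero, show j' + 1 = ((⟨j', by omega⟩ : Fin k) : ℕ) + 1 from rfl, T9w_succ] at h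
      exact (e ⟨j', by omega⟩).2 h.symm
  · obtain ⟨i', rfl⟩ : ∃ i', i = i' + 1 := ⟨i - 1, by omega⟩
    rw [show i' + 1 = ((⟨i', by omega⟩ : Fin k) : ℕ) + 1 from rfl, T9w_succ] at h
    rcases Nat.eq_zero_or_pos j with rfl | hj0
    · rw [T9w_zero] at h
      exact absurd h (e ⟨i', by omega⟩).2
    · obtain ⟨j', rfl⟩ : ∃ j', j = j' + 1 := ⟨j - 1, by omega⟩
      rw [show j' + 1 = ((⟨j', by omega⟩ : Fin k) : ℕ) + 1 from rfl, T9w_succ] at h
      have h2 := e.injective (Subtype.ext h)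
      have h3 := congrArg Fin.val h2
      simp only at h3
      omega

/-- counts at one point -/
theorem T9_count (w : ℕ → PP p 5) (k c j : ℕ) :
    (Nat.card {M : Matrix (Fin 5) (Fin 5) (ZMod p) // T9P w k c j M} : ℝ) /
      Nat.card (Matrix (Fin 5) (Fin 5) (ZMod p)) =
      (1 - 1 / (p : ℝ) ^ 5) / Nat.card (PP p 5) * (if k - c ≤ j then rr p 5 else 1) := by
  have hp2 := (Fact.out : p.Prime).two_le
  have hp : (2 : ℝ) ≤ p := by exact_mod_cast hp2
  set N : ℕ := Nat.card (PP p 5) with hN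
  have hNp : (N : ℝ) * ((p : ℝ) - 1) = (p : ℝ) ^ 5 - 1 := by
    have h := Projectivization.card (ZMod p) (Fin 5 → ZMod p)
    rw [T4_cardV, Nat.card_zmod] at h
    have h1 : 1 ≤ p ^ 5 := Nat.one_le_pow _ _ (by omega)
    have h2 : ((p ^ 5 - 1 : ℕ) : ℝ) = ((N * (p - 1) : ℕ) : ℝ) := by rw [h]
    rw [Nat.cast_sub h1, Nat.cast_mul, Nat.cast_sub (by omega : 1 ≤ p)] at h2
    push_cast at h2
    linarith
  have hpn : (1 : ℝ) < (p : ℝ) ^ 5 := one_lt_pow₀ (by linarith) (by omega)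
  have hN0 : (0 : ℝ) < N := by
    by_contra h0
    push Not at h0
    have : (N : ℝ) * ((p : ℝ) - 1) ≤ 0 := mul_nonpos_of_nonpos_of_nonneg h0 (by linarith)
    linarith
  have hM : (Nat.card (Matrix (Fin 5) (Fin 5) (ZMod p)) : ℝ) = (p : ℝ) ^ 25 := by
    rw [T4_cardM]
    push_cast
    norm_num
  have hp1 : ((p : ℝ) - 1) ≠ 0 := by linarith
  have hp0 : (p : ℝ) ≠ 0 := by linarith
  rw [hM]
  by_cases hQ : k - c ≤ j
  · rw [if_pos hQ]
    have h1 := T4_count_g (w j).rep (w (T9nx k c j)).rep (w j).rep_nonzero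
      (w (T9nx k c j)).rep_nonzero
    have h2 : Nat.card {M : Matrix (Fin 5) (Fin 5) (ZMod p) // T9P w k c j M} =
        Nat.card {M : Matrix (Fin 5) (Fin 5) (ZMod p) //
        (∃ a : ZMod p, a ≠ 0 ∧ M.mulVec (w j).rep = a • (w (T9nx k c j)).rep) ∧ M.det ≠ 0} := by
      refine Nat.card_congr (Equiv.subtypeEquivRight fun M => ?_)
      exact ⟨fun h => ⟨h.1, h.2 hQ⟩, fun h => ⟨h.1, fun _ => h.2⟩⟩
    rw [h2]
    have h3 := congrArg (fun k : ℕ => (k : ℝ)) h1
    simp only [Nat.cast_mul] at h3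
    rw [T4_prod (by norm_num), Nat.cast_sub (Nat.one_le_pow _ _ (by omega)),
      Nat.cast_sub (by omega)] at h3
    push_cast at h3
    rw [← hNp] at h3
    field_simp at h3 ⊢
    norm_num at h3 ⊢
    linear_combination h3
  · rw [if_neg hQ, mul_one]
    have h1 := T4_count_t (w j).rep (w (T9nx k c j)).rep (w j).rep_nonzero
      (w (T9nx k c j)).rep_nonzero
    have h2 : Nat.card {M : Matrix (Fin 5) (Fin 5) (ZMod p) // T9P w k c j M} =
        Nat.card {M : Matrix (Fin 5) (Fin 5) (ZMod p) //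
        ∃ a : ZMod p, a ≠ 0 ∧ M.mulVec (w j).rep = a • (w (T9nx k c j)).rep} := by
      refine Nat.card_congr (Equiv.subtypeEquivRight fun M => ?_)
      exact ⟨fun h => h.1, fun h => ⟨h, fun hq => absurd hq hQ⟩⟩
    rw [h2]
    have h3 := congrArg (fun k : ℕ => (k : ℝ)) h1
    simp only [Nat.cast_mul] at h3
    rw [Nat.cast_sub (by omega)] at h3
    push_cast at h3
    have h4 : (1 : ℝ) - 1 / (p : ℝ) ^ 5 = (N * ((p : ℝ) - 1)) / (p : ℝ) ^ 5 := by
      rw [hNp]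
      field_simp
    have h5 : (N : ℝ) * ((p : ℝ) - 1) / (p : ℝ) ^ 5 / N = ((p : ℝ) - 1) / (p : ℝ) ^ 5 := by
      field_simp
    rw [h4, h5, div_eq_div_iff (by positivity) (by positivity)]
    linear_combination h3

end

/-! ### numerics -/

theorem T9_desc (m : ℕ) (hm : 0 < m) : ∀ k : ℕ, k < m →
    1 - (k : ℝ) * (k + 1) / (2 * m) ≤ ((m - 1).descFactorial k : ℝ) / (m : ℝ) ^ k := by
  intro k
  induction k with
  | zero => intro _; simp
  | succ k ih =>
    intro hk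
    have hmR : (0 : ℝ) < m := by exact_mod_cast hm
    have h1 := ih (by omega)
    rw [Nat.descFactorial_succ]
    have h2 : ((m - 1 - k : ℕ) : ℝ) = (m : ℝ) - (k + 1) := by
      rw [Nat.sub_sub, Nat.cast_sub (by omega)]
      push_cast
      ring
    push_cast
    rw [h2, pow_succ]
    have h3 : ((m : ℝ) - (k + 1)) * ((m - 1).descFactorial k : ℝ) / ((m : ℝ) ^ k * m) =
        (1 - (k + 1) / m) * (((m - 1).descFactorial k : ℝ) / (m : ℝ) ^ k) := by
      field_simp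
    rw [h3]
    have h4 : (0 : ℝ) ≤ 1 - (k + 1) / m := by
      rw [sub_nonneg, div_le_one hmR]
      exact_mod_cast hk.le
    refine le_trans ?_ (mul_le_mul_of_nonneg_left h1 h4)
    have h5 : (0 : ℝ) ≤ ((k : ℝ) + 1) / m * ((k : ℝ) * (k + 1) / (2 * m)) := by positivity
    have h6 : (1 - ((k : ℝ) + 1) / m) * (1 - (k : ℝ) * (k + 1) / (2 * m)) =
        1 - ((k : ℝ) + 1) * (k + 1 + 1) / (2 * m) +
          ((k : ℝ) + 1) / m * ((k : ℝ) * (k + 1) / (2 * m)) := by
      field_simp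
      ring
    rw [h6]
    linarith

theorem T9_quarter (p : ℕ) (hp : 2 ≤ p) : (1 / 4 : ℝ) ≤ (1 - 1 / (p : ℝ)) ^ p := by
  have hp' : (2 : ℝ) ≤ p := by exact_mod_cast hp
  have hq : (0 : ℝ) ≤ 1 - 1 / p := (T7_q p hp).1.le
  have h1 := one_add_mul_self_le_rpow_one_add (s := -(1 / (p : ℝ))) (by linarith)
    (p := (p : ℝ) / 2) (by linarith)
  have h2 : 1 + (p : ℝ) / 2 * -(1 / (p : ℝ)) = 1 / 2 := by
    field_simp
    norm_num
  rw [h2, ← sub_eq_add_neg] at h1
  have h3 : (1 - 1 / (p : ℝ)) ^ p = ((1 - 1 / (p : ℝ)) ^ ((p : ℝ) / 2)) ^ 2 := by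
    rw [← Real.rpow_natCast, ← Real.rpow_natCast (_ ^ _) 2, ← Real.rpow_mul hq]
    congr 1
    push_cast
    ring
  rw [h3]
  nlinarith

theorem T9_rr (p : ℕ) (hp : 2 ≤ p) : (1 / 16 : ℝ) ≤ rr p 5 ^ p ∧ 0 ≤ rr p 5 ∧ rr p 5 ≤ 1 := by
  have hp' : (2 : ℝ) ≤ p := by exact_mod_cast hp
  have hp0 : (0 : ℝ) < p := by linarith
  have hq := T7_q p hp
  have h1 : rr p 5 = (1 - 1 / (p : ℝ)) * (1 - 1 / (p : ℝ) ^ 2) * (1 - 1 / (p : ℝ) ^ 3) *
      (1 - 1 / (p : ℝ) ^ 4) := by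
    unfold rr
    rw [show 5 - 1 = 4 from rfl, Finset.prod_range_succ, Finset.prod_range_succ,
      Finset.prod_range_succ, Finset.prod_range_one]
    norm_num
  set u : ℝ := 1 / (p : ℝ) with hu
  have hu0 : 0 < u := by positivity
  have hu1 : u ≤ 1 / 2 := one_div_le_one_div_of_le (by norm_num) hp'
  have e2 : (1 : ℝ) / (p : ℝ) ^ 2 = u ^ 2 := by rw [hu, div_pow, one_pow]
  have e3 : (1 : ℝ) / (p : ℝ) ^ 3 = u ^ 3 := by rw [hu, div_pow, one_pow]
  have e4 : (1 : ℝ) / (p : ℝ) ^ 4 = u ^ 4 := by rw [hu, div_pow, one_pow]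
  rw [e2, e3, e4] at h1
  have b2 : u ^ 2 ≤ u / 2 := by nlinarith
  have b3 : u ^ 3 ≤ u / 4 := by nlinarith [sq_nonneg u]
  have b4 : u ^ 4 ≤ u / 8 := by nlinarith [sq_nonneg u, sq_nonneg (u ^ 2)]
  have p2 : 0 ≤ u ^ 2 := by positivity
  have p3 : 0 ≤ u ^ 3 := by positivity
  have p4 : 0 ≤ u ^ 4 := by positivity
  have c1 : (1 : ℝ) - u ≤ (1 - u ^ 2) * (1 - u ^ 3) * (1 - u ^ 4) := by
    have d1 : 1 - u ^ 2 - u ^ 3 ≤ (1 - u ^ 2) * (1 - u ^ 3) := by nlinarith [mul_nonneg p2 p3]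
    have d2 : 0 ≤ (1 - u ^ 2) * (1 - u ^ 3) := mul_nonneg (by linarith) (by linarith)
    have d3 : (1 - u ^ 2) * (1 - u ^ 3) ≤ 1 := by
      refine mul_le_one₀ (by linarith) (by linarith) (by linarith)
    have d4 : (1 - u ^ 2) * (1 - u ^ 3) - u ^ 4 ≤ (1 - u ^ 2) * (1 - u ^ 3) * (1 - u ^ 4) := by
      nlinarith
    linarith
  have c2 : (1 - u) ^ 2 ≤ rr p 5 := by
    rw [h1, sq]
    have := mul_le_mul_of_nonneg_left c1 (by linarith : (0 : ℝ) ≤ 1 - u)
    linarith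
  have c3 : rr p 5 ≤ 1 := by
    rw [h1]
    refine mul_le_one₀ (mul_le_one₀ (mul_le_one₀ (by linarith) (by linarith) (by linarith))
      (by linarith) (by linarith)) (by linarith) (by linarith)
  refine ⟨?_, le_trans (sq_nonneg _) c2, c3⟩
  have hb := T9_quarter p hp
  calc (1 / 16 : ℝ) = (1 / 4) ^ 2 := by norm_num
    _ ≤ ((1 - u) ^ p) ^ 2 := pow_le_pow_left₀ (by norm_num) hb 2
    _ = ((1 - u) ^ 2) ^ p := by rw [← pow_mul, ← pow_mul, mul_comm]
    _ ≤ rr p 5 ^ p := pow_le_pow_left₀ (sq_nonneg _) c2 p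

section

variable {p : ℕ} [Fact p.Prime]

attribute [local instance] Classical.propDecidable

noncomputable local instance T9_fintype (n : ℕ) : Fintype (PP p n) := Fintype.ofFinite _

/-- the tables following a given walk -/
noncomputable def T9E (x : PP p 5) (q : Σ k : ℕ, ℕ × (Fin k ↪ {y : PP p 5 // y ≠ x})) :
    Finset (Tab p 5) :=
  Finset.univ.filter fun A =>
    ∀ j ≤ q.1, T9P (T9w x q.2.2) q.1 q.2.1 j (A (T9w x q.2.2 j))

theorem T9E_card (x : PP p 5) (k c : ℕ) (hc : c + 1 ≤ p) (e : Fin k ↪ {y : PP p 5 // y ≠ x}) :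
    (Nat.card (Tab p 5) : ℝ) * (((1 - 1 / (p : ℝ) ^ 5) / Nat.card (PP p 5)) ^ (k + 1) *
      rr p 5 ^ p) ≤ ((T9E x ⟨k, c, e⟩).card : ℝ) := by
  classical
  have hp := (Fact.out : p.Prime).two_le
  have h1 := T9_card_walk (M := Matrix (Fin 5) (Fin 5) (ZMod p)) k (T9w x e) (T9w_inj x e)
    (T9P (T9w x e) k c)
  have h2 : ((T9E x ⟨k, c, e⟩).card : ℝ) = (Nat.card {A : PP p 5 → Matrix (Fin 5) (Fin 5) (ZMod p) //
      ∀ j ≤ k, T9P (T9w x e) k c j (A (T9w x e j))} : ℝ) := by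
    rw [Nat.card_eq_fintype_card, Fintype.card_subtype]
    rfl
  rw [h2, h1]
  have h3 : (Nat.card (Tab p 5) : ℝ) =
    (Nat.card (PP p 5 → Matrix (Fin 5) (Fin 5) (ZMod p)) : ℝ) := rfl
  rw [h3]
  refine mul_le_mul_of_nonneg_left ?_ (by positivity)
  rw [Finset.prod_congr rfl (fun j _ => T9_count (T9w x e) k c j), Finset.prod_mul_distrib,
    Finset.prod_const, Finset.card_range, Finset.prod_ite, Finset.prod_const_one, mul_one,
    Finset.prod_const]
  have hτ : 0 ≤ ((1 - 1 / (p : ℝ) ^ 5) / Nat.card (PP p 5)) ^ (k + 1) := by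
    have h0 : (0 : ℝ) ≤ 1 - 1 / (p : ℝ) ^ 5 := by
      have := T7_le p 5 hp (by norm_num)
      have h5 := (T7_q p hp).1
      linarith
    positivity
  refine mul_le_mul_of_nonneg_left ?_ hτ
  obtain ⟨_, hr0, hr1⟩ := T9_rr p hp
  refine pow_le_pow_of_le_one hr0 hr1 ?_
  have h4 : (Finset.range (k + 1)).filter (fun j => k - c ≤ j) ⊆ Finset.Icc (k - c) k := by
    intro j hj
    rw [Finset.mem_filter, Finset.mem_range] at hj
    rw [Finset.mem_Icc]
    omega
  have h5 := Finset.card_le_card h4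
  rw [Nat.card_Icc] at h5
  omega

theorem T9E_disj (x : PP p 5) (q q' : Σ k : ℕ, ℕ × (Fin k ↪ {y : PP p 5 // y ≠ x}))
    (hq : q.2.1 ≤ q.1) (hq' : q'.2.1 ≤ q'.1) {A : Tab p 5} (h : A ∈ T9E x q)
    (h' : A ∈ T9E x q') : q = q' := by
  classical
  obtain ⟨k, c, e⟩ := q
  obtain ⟨k', c', e'⟩ := q'
  simp only at hq hq'
  have g := T9_walk (Finset.mem_filter.1 h).2
  have g' := T9_walk (Finset.mem_filter.1 h').2
  simp only [T9w_zero] at g g'
  have hkk : k = k' := by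
    rcases lt_trichotomy k k' with hlt | heq | hlt
    · exfalso
      have e1 := g'.1 (k + 1) (by omega)
      rw [g.2, ← g.1 (k - c) (by omega), g'.1 (k - c) (by omega)] at e1
      have := T9w_inj x e' _ (by omega) _ (by omega) e1
      omega
    · exact heq
    · exfalso
      have e1 := g.1 (k' + 1) (by omega)
      rw [g'.2, ← g'.1 (k' - c') (by omega), g.1 (k' - c') (by omega)] at e1
      have := T9w_inj x e _ (by omega) _ (by omega) e1
      omega
  subst hkk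
  have hcc : c = c' := by
    have e1 := g.2.symm.trans g'.2
    rw [← g'.1 (k - c') (by omega), g.1 (k - c') (by omega)] at e1
    have := T9w_inj x e _ (by omega) _ (by omega) e1
    omega
  subst hcc
  have hee : e = e' := by
    ext j : 1
    apply Subtype.ext
    rw [← T9w_succ, ← T9w_succ, ← g.1 (j + 1) (by omega), ← g'.1 (j + 1) (by omega)]
  subst hee
  rfl

theorem T9_main (x : PP p 5) :
    1 / (256 * (p : ℝ)) * (Nat.card (Tab p 5) : ℝ) ≤ (Nat.card {A : Tab p 5 // GoodAt A x} : ℝ) := by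
  classical
  have hp := (Fact.out : p.Prime).two_le
  have hpR : (2 : ℝ) ≤ p := by exact_mod_cast hp
  set m : ℕ := Nat.card (PP p 5) with hm
  have hmval : m = p ^ 4 + p ^ 3 + p ^ 2 + p + 1 := by
    rw [hm, card_PP p 5 (by norm_num)]
    simp only [Finset.sum_range_succ, Finset.sum_range_zero, pow_zero, pow_one]
    ring
  have hmpos : 0 < m := by rw [hmval]; positivity
  have hmR : (m : ℝ) = (p : ℝ) ^ 4 + (p : ℝ) ^ 3 + (p : ℝ) ^ 2 + p + 1 := by
    rw [hmval]; push_cast; ring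
  have hmRpos : (0 : ℝ) < m := by exact_mod_cast hmpos
  set S : Finset (Σ k : ℕ, ℕ × (Fin k ↪ {y : PP p 5 // y ≠ x})) :=
    (Finset.Icc (p - 1) (p ^ 2 - 1)).sigma (fun k => (Finset.range p) ×ˢ Finset.univ) with hS
  have hSmem : ∀ q ∈ S, q.2.1 ≤ q.1 := by
    intro q hq
    rw [hS, Finset.mem_sigma, Finset.mem_product, Finset.mem_Icc, Finset.mem_range] at hq
    omega
  have hdisj : Set.PairwiseDisjoint (S : Set _) (T9E x) := by
    intro q hq q' hq' hne
    rw [Function.onFun, Finset.disjoint_left]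
    intro A hA hA'
    exact hne (T9E_disj x q q' (hSmem q hq) (hSmem q' hq') hA hA')
  have hsub : S.biUnion (T9E x) ⊆ Finset.univ.filter (fun A : Tab p 5 => GoodAt A x) := by
    intro A hA
    rw [Finset.mem_biUnion] at hA
    obtain ⟨q, _, hq⟩ := hA
    rw [Finset.mem_filter]
    refine ⟨Finset.mem_univ _, ?_⟩
    have := T9_good (Finset.mem_filter.1 hq).2
    rwa [T9w_zero] at this
  have hcard : ∑ q ∈ S, ((T9E x q).card : ℝ) ≤ (Nat.card {A : Tab p 5 // GoodAt A x} : ℝ) := by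
    rw [Nat.card_eq_fintype_card, Fintype.card_subtype, ← Nat.cast_sum,
      ← Finset.card_biUnion hdisj]
    exact_mod_cast Finset.card_le_card hsub
  refine le_trans ?_ hcard
  -- lower bound
  set τ : ℝ := (1 - 1 / (p : ℝ) ^ 5) / m with hτ
  have hterm : ∀ k ∈ Finset.Icc (p - 1) (p ^ 2 - 1), ∀ c ∈ Finset.range p,
      (Nat.card (Tab p 5) : ℝ) * (7 / 256 / m) ≤
        ∑ e : Fin k ↪ {y : PP p 5 // y ≠ x}, ((T9E x ⟨k, c, e⟩).card : ℝ) := by
    intro k hk c hc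
    rw [Finset.mem_Icc] at hk
    rw [Finset.mem_range] at hc
    have hk2 : k + 1 ≤ p ^ 2 := by
      have : 1 ≤ p ^ 2 := Nat.one_le_pow _ _ (by omega)
      omega
    have hkm : k < m := by
      rw [hmval]
      have : 0 < p ^ 4 + p ^ 3 := by positivity
      omega
    have h1 : ∑ e : Fin k ↪ {y : PP p 5 // y ≠ x}, (Nat.card (Tab p 5) : ℝ) *
        (τ ^ (k + 1) * rr p 5 ^ p) ≤
        ∑ e : Fin k ↪ {y : PP p 5 // y ≠ x}, ((T9E x ⟨k, c, e⟩).card : ℝ) :=
      Finset.sum_le_sum fun e _ => T9E_card x k c hc e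
    refine le_trans ?_ h1
    rw [Finset.sum_const, Finset.card_univ, Fintype.card_embedding_eq, Fintype.card_fin,
      nsmul_eq_mul]
    have h2 : Fintype.card {y : PP p 5 // y ≠ x} = m - 1 := by
      rw [Fintype.card_subtype_compl, Fintype.card_subtype_eq, hm, Nat.card_eq_fintype_card]
    rw [h2, mul_left_comm]
    refine mul_le_mul_of_nonneg_left ?_ (by positivity)
    have h3 := T9_desc m hmpos k hkm
    have hkR : (k : ℝ) + 1 ≤ (p : ℝ) ^ 2 := by exact_mod_cast hk2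
    have h4 : (1 / 2 : ℝ) ≤ ((m - 1).descFactorial k : ℝ) / (m : ℝ) ^ k := by
      refine le_trans ?_ h3
      have h5 : (k : ℝ) * (k + 1) / (2 * m) ≤ 1 / 2 := by
        rw [div_le_div_iff₀ (by positivity) (by norm_num)]
        have h6 : (k : ℝ) * (k + 1) ≤ (p : ℝ) ^ 2 * (p : ℝ) ^ 2 :=
          mul_le_mul (by linarith) hkR (by positivity) (by positivity)
        have h7 : (p : ℝ) ^ 2 * (p : ℝ) ^ 2 = (p : ℝ) ^ 4 := by ring
        have h8 : (0 : ℝ) ≤ (p : ℝ) ^ 3 + (p : ℝ) ^ 2 + p + 1 := by positivity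
        rw [h7] at h6
        linarith
      linarith
    have h5 : (7 / 8 : ℝ) ≤ (1 - 1 / (p : ℝ) ^ 5) ^ (k + 1) := by
      have h0 : (1 : ℝ) / (p : ℝ) ^ 5 ≤ 1 := by
        rw [div_le_one (by positivity)]
        exact one_le_pow₀ (by linarith)
      have h6 := one_add_mul_le_pow (a := -(1 / (p : ℝ) ^ 5)) (by linarith) (k + 1)
      rw [← sub_eq_add_neg] at h6
      refine le_trans ?_ h6
      push_cast
      have h7 : ((k : ℝ) + 1) * (1 / (p : ℝ) ^ 5) ≤ 1 / 8 := by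
        rw [mul_one_div, div_le_div_iff₀ (by positivity) (by norm_num)]
        have h8 : (8 : ℝ) ≤ (p : ℝ) ^ 3 := by
          calc (8 : ℝ) = 2 ^ 3 := by norm_num
            _ ≤ (p : ℝ) ^ 3 := pow_le_pow_left₀ (by norm_num) hpR 3
        have h9 : (p : ℝ) ^ 5 = (p : ℝ) ^ 2 * (p : ℝ) ^ 3 := by ring
        rw [h9]
        nlinarith [mul_le_mul hkR h8 (by norm_num) (by positivity)]
      linarith
    have h6 := (T9_rr p hp).1
    have h7 : ((m - 1).descFactorial k : ℝ) * (τ ^ (k + 1) * rr p 5 ^ p) =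
        (((m - 1).descFactorial k : ℝ) / (m : ℝ) ^ k) * (1 - 1 / (p : ℝ) ^ 5) ^ (k + 1) *
          rr p 5 ^ p / m := by
      rw [hτ, div_pow, pow_succ (m : ℝ)]
      field_simp
    rw [h7]
    apply div_le_div_of_nonneg_right _ hmRpos.le
    calc (7 / 256 : ℝ) = 1 / 2 * (7 / 8) * (1 / 16) := by norm_num
      _ ≤ _ := mul_le_mul (mul_le_mul h4 h5 (by norm_num) (by linarith)) h6 (by norm_num)
        (mul_nonneg (by linarith) (by linarith))
  have hsum : ∑ q ∈ S, ((T9E x q).card : ℝ) = ∑ k ∈ Finset.Icc (p - 1) (p ^ 2 - 1),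
      ∑ c ∈ Finset.range p, ∑ e : Fin k ↪ {y : PP p 5 // y ≠ x}, ((T9E x ⟨k, c, e⟩).card : ℝ) := by
    rw [hS, Finset.sum_sigma]
    refine Finset.sum_congr rfl fun k _ => ?_
    rw [Finset.sum_product]
  rw [hsum]
  have hlow : ∑ k ∈ Finset.Icc (p - 1) (p ^ 2 - 1), ∑ c ∈ Finset.range p,
      (Nat.card (Tab p 5) : ℝ) * (7 / 256 / m) ≤ ∑ k ∈ Finset.Icc (p - 1) (p ^ 2 - 1),
      ∑ c ∈ Finset.range p, ∑ e : Fin k ↪ {y : PP p 5 // y ≠ x}, ((T9E x ⟨k, c, e⟩).card : ℝ) :=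
    Finset.sum_le_sum fun k hk => Finset.sum_le_sum fun c hc => hterm k hk c hc
  refine le_trans ?_ hlow
  rw [Finset.sum_const, Finset.sum_const, Finset.card_range, Nat.card_Icc, nsmul_eq_mul,
    nsmul_eq_mul]
  have hK : ((p ^ 2 - 1 + 1 - (p - 1) : ℕ) : ℝ) = (p : ℝ) ^ 2 - p + 1 := by
    have h1 : p ≤ p ^ 2 := Nat.le_self_pow (by norm_num) p
    have h2 : p ^ 2 - 1 + 1 - (p - 1) = p ^ 2 + 1 - p := by omega
    rw [h2, Nat.cast_sub (by omega)]
    push_cast
    ring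
  rw [hK]
  have hT : (0 : ℝ) ≤ Nat.card (Tab p 5) := by positivity
  have hfin : 1 / (256 * (p : ℝ)) ≤ ((p : ℝ) ^ 2 - p + 1) * (p * (7 / 256 / m)) := by
    rw [div_le_iff₀ (by positivity)]
    have h1 : ((p : ℝ) ^ 2 - p + 1) * (p * (7 / 256 / m)) * (256 * p) =
        7 * (((p : ℝ) ^ 2 - p + 1) * (p : ℝ) ^ 2) / m := by
      field_simp
    rw [h1, le_div_iff₀ hmRpos, one_mul, hmR]
    have e1 : (0 : ℝ) ≤ ((p : ℝ) - 2) * (p : ℝ) ^ 3 := mul_nonneg (by linarith) (by positivity)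
    have e2 : (0 : ℝ) ≤ ((p : ℝ) - 2) * (p : ℝ) := mul_nonneg (by linarith) (by positivity)
    nlinarith
  calc 1 / (256 * (p : ℝ)) * (Nat.card (Tab p 5) : ℝ)
      ≤ ((p : ℝ) ^ 2 - p + 1) * (p * (7 / 256 / m)) * (Nat.card (Tab p 5) : ℝ) :=
        mul_le_mul_of_nonneg_right hfin hT
    _ = _ := by ring

end

/-- T9 (tables in `ℙ^4` that are good at a given point). -/
theorem card_goodAt (p : ℕ) [Fact p.Prime] (x : PP p 5) :
    1 / (256 * (p : ℝ)) * (Nat.card (Tab p 5) : ℝ) ≤ (Nat.card {A : Tab p 5 // GoodAt A x} : ℝ) :=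
  T9_main x

end Pool.Agent.H927R2.RD
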