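import Pool.Agent.H927R2.RD.Point
import Pool.Agent.H927R2.RD.T8
import Pool.Agent.H927R2.RD.T9
import Pool.Agent.H927R2.RD.T10a
import Pool.Agent.H927R2.RD.T10b
import Pool.Agent.H927R2.RD.T11
import Pool.Agent.H927R2.RD.T15
import Pool.Agent.H927R2.RD.T16

set_option autoImplicit false

/-! Final statements. -/

namespace Pool.Agent.H927R2.RD

open MvPolynomial Pool.Agent.H936R2 Filter

lemma rational_emb (p : ℕ) [Fact p.Prime] : Emb (algebraMap ℚ ℂ).fieldRange p := by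
  obtain ⟨τ⟩ := exists_embedding p
  refine ⟨τ, ?_⟩
  rintro _ ⟨q, rfl⟩
  refine ⟨(q : ℚ_[p]), ?_⟩
  rw [eq_ratCast, map_ratCast, map_ratCast]

/-- Plane, rational points. -/
theorem plane_rational : ∃ c > (0 : ℝ), ∃ C : ℝ, ∀ d : ℕ, 2 ≤ d → ∃ H₀ : ℕ, ∀ H : ℕ, H₀ ≤ H →
    (({F | F ∈ Box 3 d H ∧ ¬ DMLOver (N := 2) (algebraMap ℚ ℂ).fieldRange F} :
      Set (Fin 3 → MvPolynomial (Fin 3) ℤ)).ncard : ℝ) ≤
      C * Real.exp (-(c * d / Real.log d)) * ((Box 3 d H).ncard : ℝ) := by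
  obtain ⟨c, hc, C, h⟩ := many_primes
  refine ⟨(1 / 4 : ℝ) ^ 30 * c, by positivity, 2 * Real.exp ((1 / 4 : ℝ) ^ 30 * C),
    fun d hd => ?_⟩
  obtain ⟨H₀, hH₀⟩ := density_two (algebraMap ℚ ℂ).fieldRange d
    ((Finset.range (d + 1)).filter fun p => p.Prime ∧ ¬ p ∣ d ∧ 2 * (2 * (p - 1)) + 3 ≤ d)
    (fun p hp => by
      obtain ⟨-, h1, h2, h3⟩ := Finset.mem_filter.1 hp
      haveI : Fact p.Prime := ⟨h1⟩
      exact ⟨h2, h3, ⟨h1⟩, rational_emb p⟩)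
  refine ⟨H₀, fun H hH => (hH₀ H hH).trans ?_⟩
  apply mul_le_mul_of_nonneg_right _ (Nat.cast_nonneg _)
  rw [mul_assoc 2, ← Real.exp_add]
  apply mul_le_mul_of_nonneg_left _ (by norm_num)
  apply Real.exp_le_exp.2
  have h1 := mul_le_mul_of_nonneg_left (h d hd) (by positivity : (0 : ℝ) ≤ (1 / 4 : ℝ) ^ 30)
  have h2 : (1 / 4 : ℝ) ^ 30 * (c * d / Real.log d - C) =
      (1 / 4 : ℝ) ^ 30 * c * d / Real.log d - (1 / 4 : ℝ) ^ 30 * C := by ring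
  rw [h2] at h1
  linarith

lemma countable_closure (s : Finset ℂ) : Countable (Subfield.closure (s : Set ℂ)) := by
  rw [← Cardinal.mk_le_aleph0_iff]
  refine (Subfield.cardinalMk_closure_le_max _).trans (max_le ?_ le_rfl)
  exact Cardinal.mk_le_aleph0

lemma exists_local (s : Finset ℂ) : ∃ (K : Type) (_ : Field K) (_ : NumberField K) (S : Finset ℕ),
    ∀ (p : ℕ) [Fact p.Prime], p ∉ S → DegOne K p → Emb (Subfield.closure (s : Set ℂ)) p := by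
  obtain ⟨K, i1, i2, S, h⟩ := exists_padic_embedding s
  refine ⟨K, i1, i2, S, fun p _ hS hp => ?_⟩
  obtain ⟨φ⟩ := h p hS hp
  obtain ⟨τ, hτ⟩ := extend_embedding p _ (countable_closure s) φ
  exact ⟨τ, fun x hx => ⟨φ ⟨x, hx⟩, hτ ⟨x, hx⟩⟩⟩

lemma main_set (s : Finset ℂ) (M : ℝ) : ∃ d₀ : ℕ, ∀ d : ℕ, d₀ ≤ d → ∃ P : Finset ℕ,
    (∀ p ∈ P, ¬ p ∣ d ∧ 8 * p ≤ d ∧ ∃ _ : Fact p.Prime, Emb (Subfield.closure (s : Set ℂ)) p) ∧
    M ≤ ∑ p ∈ P, 1 / (p : ℝ) := by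
  classical
  obtain ⟨K, i1, i2, S, h⟩ := exists_local s
  obtain ⟨c, hc, C, hC⟩ := recip_deg_one K (sum_ideals K)
  obtain ⟨d₀, hd₀⟩ := sum_recip_of_rate (fun p => DegOne K p ∧ p ∉ S) (fun p hp => hp.1.1) c
    (C + ∑ p ∈ S, 1 / (p : ℝ)) hc (fun x hx => by
      have h1 := hC x hx
      have h2 : ∑ p ∈ (Finset.range (x + 1)).filter (DegOne K), 1 / (p : ℝ) ≤
          ∑ p ∈ (Finset.range (x + 1)).filter (fun p => DegOne K p ∧ p ∉ S), 1 / (p : ℝ) +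
            ∑ p ∈ S, 1 / (p : ℝ) := by
        have h3 : (Finset.range (x + 1)).filter (DegOne K) ⊆
            (Finset.range (x + 1)).filter (fun p => DegOne K p ∧ p ∉ S) ∪ S := by
          intro p hp
          obtain ⟨h4, h5⟩ := Finset.mem_filter.1 hp
          by_cases h6 : p ∈ S
          · exact Finset.mem_union_right _ h6
          · exact Finset.mem_union_left _ (Finset.mem_filter.2 ⟨h4, h5, h6⟩)
        refine (Finset.sum_le_sum_of_subset_of_nonneg h3 fun p _ _ => by positivity).trans ?_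
        have h7 := Finset.sum_union_inter (s₁ := (Finset.range (x + 1)).filter
          (fun p => DegOne K p ∧ p ∉ S)) (s₂ := S) (f := fun p => 1 / (p : ℝ))
        have h8 : 0 ≤ ∑ p ∈ (Finset.range (x + 1)).filter
          (fun p => DegOne K p ∧ p ∉ S) ∩ S, 1 / (p : ℝ) :=
          Finset.sum_nonneg fun p _ => by positivity
        linarith
      linarith) M
  refine ⟨d₀, fun d hd => ⟨_, fun p hp => ?_, hd₀ d hd⟩⟩
  obtain ⟨-, ⟨h1, h2⟩, h3, h4⟩ := Finset.mem_filter.1 hp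
  haveI : Fact p.Prime := ⟨h1.1⟩
  exact ⟨h3, h4, ⟨h1.1⟩, h p h2 h1⟩

/-- A bound `2 exp(-c M) ≤ ε`. -/
lemma exists_M (c ε : ℝ) (hc : 0 < c) (hε : 0 < ε) :
    ∃ M : ℝ, ∀ x, M ≤ x → 2 * Real.exp (-(c * x)) ≤ ε := by
  refine ⟨-Real.log (ε / 2) / c, fun x hx => ?_⟩
  rw [div_le_iff₀ hc] at hx
  have h1 : Real.exp (-(c * x)) ≤ ε / 2 := by
    rw [← Real.exp_log (by positivity : 0 < ε / 2)]
    apply Real.exp_le_exp.2
    linarith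
  linarith

theorem plane_all (s : Finset ℂ) (ε : ℝ) (hε : 0 < ε) :
    ∃ d₀ : ℕ, ∀ d : ℕ, d₀ ≤ d → ∃ H₀ : ℕ, ∀ H : ℕ, H₀ ≤ H →
    (({F | F ∈ Box 3 d H ∧ ¬ DMLOver (N := 2) (Subfield.closure (s : Set ℂ)) F} :
      Set (Fin 3 → MvPolynomial (Fin 3) ℤ)).ncard : ℝ) ≤ ε * ((Box 3 d H).ncard : ℝ) := by
  obtain ⟨M, hM⟩ := exists_M ((1 / 4 : ℝ) ^ 30) ε (by positivity) hε
  obtain ⟨d₀, hd₀⟩ := main_set s M
  refine ⟨d₀, fun d hd => ?_⟩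
  obtain ⟨P, hP, hsum⟩ := hd₀ d hd
  obtain ⟨H₀, hH₀⟩ := density_two _ d P fun p hp => by
    obtain ⟨h1, h2, h3, h4⟩ := hP p hp
    have := h3.out.two_le
    exact ⟨h1, by omega, h3, h4⟩
  refine ⟨H₀, fun H hH => (hH₀ H hH).trans ?_⟩
  apply mul_le_mul_of_nonneg_right _ (Nat.cast_nonneg _)
  apply hM
  refine hsum.trans ?_
  rw [← nsmul_one, ← Finset.sum_const]
  apply Finset.sum_le_sum
  intro p hp
  obtain ⟨-, -, h3, -⟩ := hP p hp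
  have h1 : (1 : ℝ) ≤ p := by exact_mod_cast h3.out.one_le
  rw [div_le_one (by linarith)]
  exact h1

theorem space_all (s : Finset ℂ) (ε : ℝ) (hε : 0 < ε) :
    ∃ d₀ : ℕ, ∀ d : ℕ, d₀ ≤ d → ∃ H₀ : ℕ, ∀ H : ℕ, H₀ ≤ H →
    (({F | F ∈ Box 4 d H ∧ ¬ DMLOver (N := 3) (Subfield.closure (s : Set ℂ)) F} :
      Set (Fin 4 → MvPolynomial (Fin 4) ℤ)).ncard : ℝ) ≤ ε * ((Box 4 d H).ncard : ℝ) := by
  obtain ⟨M, hM⟩ := exists_M ((1 / 4 : ℝ) ^ 10) ε (by positivity) hε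
  obtain ⟨d₀, hd₀⟩ := main_set s M
  refine ⟨d₀, fun d hd => ?_⟩
  obtain ⟨P, hP, hsum⟩ := hd₀ d hd
  obtain ⟨H₀, hH₀⟩ := density_three _ d P fun p hp => by
    obtain ⟨h1, h2, h3, h4⟩ := hP p hp
    have := h3.out.two_le
    exact ⟨h1, by omega, h3, h4⟩
  refine ⟨H₀, fun H hH => (hH₀ H hH).trans ?_⟩
  apply mul_le_mul_of_nonneg_right _ (Nat.cast_nonneg _)
  exact hM _ hsum

theorem point_all (α : Fin 5 → ℂ) (hα : α ≠ 0) (ε : ℝ) (hε : 0 < ε) :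
    ∃ d₀ : ℕ, ∀ d : ℕ, d₀ ≤ d → ∃ H₀ : ℕ, ∀ H : ℕ, H₀ ≤ H →
    (({F | F ∈ Box 5 d H ∧ ¬ DMLAt (N := 4) F α} :
      Set (Fin 5 → MvPolynomial (Fin 5) ℤ)).ncard : ℝ) ≤ ε * ((Box 5 d H).ncard : ℝ) := by
  classical
  obtain ⟨M, hM⟩ := exists_M (1 / 256 : ℝ) ε (by positivity) hε
  obtain ⟨d₀, hd₀⟩ := main_set (Finset.univ.image α) M
  refine ⟨d₀, fun d hd => ?_⟩
  obtain ⟨P, hP, hsum⟩ := hd₀ d hd
  obtain ⟨H₀, hH₀⟩ := density_point card_goodAt α hα d P fun p hp => by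
    obtain ⟨h1, h2, h3, τ, h4⟩ := hP p hp
    have := h3.out.two_le
    refine ⟨h1, by omega, h3, τ, fun i => h4 _ (Subfield.subset_closure ?_)⟩
    simp
  refine ⟨H₀, fun H hH => (hH₀ H hH).trans ?_⟩
  apply mul_le_mul_of_nonneg_right _ (Nat.cast_nonneg _)
  exact hM _ hsum

end Pool.Agent.H927R2.RD
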