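import Pool.Agent.H927R2.RD.Final1
import Pool.Agent.H927R2.RD.Defs2

set_option autoImplicit false

/-! One point: the walk of the table of Jacobian matrices. -/

namespace Pool.Agent.H927R2.RD

open MvPolynomial Pool.Agent.H936R2

/-- The criterion modulo `p` for one point with coordinates in `ℚ_p`. -/
theorem reduction_point {p : ℕ} [hp : Fact p.Prime] {N : ℕ}
    (α : Fin (N + 1) → ℂ) (hα : α ≠ 0) (τ : ℂ →+* PadicAlgCl p)
    (hτ : ∀ i, ∃ y : ℚ_[p], τ (α i) = algebraMap ℚ_[p] (PadicAlgCl p) y) :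
    ∃ w : Fin (N + 1) → ZMod p, w ≠ 0 ∧ ∀ (d : ℕ) (F : Fin (N + 1) → MvPolynomial (Fin (N + 1)) ℤ),
      (∀ i, (F i).IsHomogeneous d) →
      (∃ M, ∀ n, M ≤ n → (jac (overR (ZMod p) F) ((pt (overR (ZMod p) F))^[n] w)).det ≠ 0) →
      DMLAt F α := by
  choose y hy using hτ
  have hy0 : y ≠ 0 := by
    intro h
    apply hα
    funext i
    have h3 := hy i
    rw [h, Pi.zero_apply, map_zero] at h3
    exact (map_eq_zero τ).1 h3
  obtain ⟨c, b', hc, hb', hres⟩ := exists_primitive (K := ℚ_[p]) y hy0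
  -- the primitive vector over `ℤ_p`
  let z : Fin (N + 1) → ℤ_[p] := fun i => ⟨(b' i : ℚ_[p]), b' i |>.2⟩
  have hnorm : ∀ x : ℚ_[p], ‖algebraMap ℚ_[p] (PadicAlgCl p) x‖ = ‖x‖ := fun x => by
    simp
  let ψ : ℤ_[p] →+* unitBall (PadicAlgCl p) :=
    ((algebraMap ℚ_[p] (PadicAlgCl p)).comp (algebraMap ℤ_[p] ℚ_[p])).codRestrict _ (by
      intro x
      change ‖algebraMap ℚ_[p] (PadicAlgCl p) (x : ℚ_[p])‖ ≤ 1
      rw [hnorm]
      exact x.2)
  have hψ : ∀ x : ℤ_[p], ((ψ x : unitBall (PadicAlgCl p)) : PadicAlgCl p) =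
      algebraMap ℚ_[p] (PadicAlgCl p) (x : ℚ_[p]) := fun x => rfl
  -- the reduction
  let w : Fin (N + 1) → ZMod p := fun i => PadicInt.toZMod (z i)
  have hw : w ≠ 0 := by
    intro h
    apply hres
    funext i
    simp only [Pi.zero_apply]
    rw [res_eq_zero_iff]
    have h3 : PadicInt.toZMod (z i) = 0 := congrFun h i
    have h4 : z i ∈ RingHom.ker (PadicInt.toZMod : ℤ_[p] →+* ZMod p) := h3
    rw [PadicInt.ker_toZMod, PadicInt.maximalIdeal_eq_span_p, Ideal.mem_span_singleton] at h4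
    have h5 := (PadicInt.norm_lt_one_iff_dvd (z i)).2 h4
    exact h5
  refine ⟨w, hw, fun d F hF hM => ?_⟩
  obtain ⟨M, hM⟩ := hM
  apply dml_core F hF α τ (algebraMap ℚ_[p] (PadicAlgCl p) c)
    (by simpa using hc) (fun i => ψ (z i)) (by
      intro i
      rw [hψ, hy i, ← map_mul]
      congr 1
      exact hb' i) M
  intro n hn
  have e1 := pt_map ψ (overR ℤ_[p] F) z n
  rw [overR_map] at e1
  rw [e1]
  have e2 := jac_map ψ (overR ℤ_[p] F) ((pt (overR ℤ_[p] F))^[n] z)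
  rw [overR_map] at e2
  rw [e2, ← RingHom.map_det]
  apply IsUnit.map
  have e3 := pt_map (PadicInt.toZMod : ℤ_[p] →+* ZMod p) (overR ℤ_[p] F) z n
  rw [overR_map] at e3
  have e4 := jac_map (PadicInt.toZMod : ℤ_[p] →+* ZMod p) (overR ℤ_[p] F)
    ((pt (overR ℤ_[p] F))^[n] z)
  rw [overR_map, ← e3] at e4
  have h6 := hM n hn
  rw [e4, ← RingHom.map_det] at h6
  by_contra hnu
  apply h6
  have h7 : (jac (overR ℤ_[p] F) ((pt (overR ℤ_[p] F))^[n] z)).det ∈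
      IsLocalRing.maximalIdeal ℤ_[p] := by
    rw [IsLocalRing.mem_maximalIdeal]
    exact hnu
  rw [← PadicInt.ker_toZMod] at h7
  exact h7

theorem goodAt_det {p : ℕ} [Fact p.Prime] (n d : ℕ)
    (c : Fin n → Mono n d → ZMod p) (w : Fin n → ZMod p) (hw : w ≠ 0)
    (h : GoodAt (tab c) (Projectivization.mk (ZMod p) w hw)) :
    ∃ M, ∀ k, M ≤ k → (jac (sys c) ((pt (sys c))^[k] w)).det ≠ 0 := by
  obtain ⟨y, hy0, hy, M, hM⟩ := h
  have hiter : ∀ k : ℕ, ∃ hk : (pt (sys c))^[k] w ≠ 0,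
      Projectivization.mk (ZMod p) ((pt (sys c))^[k] w) hk = y k := by
    intro k
    induction k with
    | zero => exact ⟨hw, hy0.symm⟩
    | succ k ih =>
      obtain ⟨hk, hk2⟩ := ih
      obtain ⟨h1, h2⟩ := hy k
      obtain ⟨a, ha⟩ := Projectivization.exists_smul_eq_mk_rep (ZMod p) _ hk
      rw [hk2] at ha
      have h3 : (tab c (y k)).mulVec (y k).rep =
          ((d : ZMod p) * (a : ZMod p) ^ d) • pt (sys c) ((pt (sys c))^[k] w) := by
        unfold tab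
        rw [T3b_jac_mulVec, ← ha]
        have h4 : pt (sys c) (a • (pt (sys c))^[k] w) =
            ((a : ZMod p)) ^ d • pt (sys c) ((pt (sys c))^[k] w) :=
          T3b_pt_smul c (a : ZMod p) _
        rw [h4, smul_smul]
      have h5 : (pt (sys c))^[k + 1] w = pt (sys c) ((pt (sys c))^[k] w) :=
        Function.iterate_succ_apply' _ _ _
      have h6 : pt (sys c) ((pt (sys c))^[k] w) ≠ 0 := by
        intro h7
        rw [h3, h7, smul_zero] at h1
        exact h1 rfl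
      refine ⟨by rw [h5]; exact h6, ?_⟩
      rw [h2, T3b_mk_congr h5 (by rw [h5]; exact h6) h6]
      symm
      rw [Projectivization.mk_eq_mk_iff']
      exact ⟨(d : ZMod p) * (a : ZMod p) ^ d, h3.symm⟩
  refine ⟨M, fun k hk => ?_⟩
  obtain ⟨h1, h2⟩ := hiter k
  have hdet := hM k hk
  obtain ⟨a, ha⟩ := Projectivization.exists_smul_eq_mk_rep (ZMod p) _ h1
  rw [h2] at ha
  unfold tab at hdet
  rw [← ha] at hdet
  have h3 : jac (sys c) (a • (pt (sys c))^[k] w) =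
      ((a : ZMod p)) ^ (d - 1) • jac (sys c) ((pt (sys c))^[k] w) :=
    T3b_jac_smul c (a : ZMod p) _
  rw [h3, Matrix.det_smul] at hdet
  intro h0
  apply hdet
  rw [h0, mul_zero]

/-- Coefficient vectors modulo `p` that are good at a point. -/
def GA (n d : ℕ) (w : ∀ p : ℕ, Fin n → ZMod p) (p : ℕ) : Set (Idx n d → ZMod p) :=
  {v | ∃ (_ : Fact p.Prime) (hw : w p ≠ 0),
    GoodAt (tab fun i κ => v (i, κ)) (Projectivization.mk (ZMod p) (w p) hw)}

theorem density_point (hT9 : ∀ (p : ℕ) [Fact p.Prime] (x : PP p 5),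
      1 / (256 * (p : ℝ)) * (Nat.card (Tab p 5) : ℝ) ≤
        (Nat.card {A : Tab p 5 // GoodAt A x} : ℝ))
    (α : Fin 5 → ℂ) (hα : α ≠ 0) (d : ℕ) (P : Finset ℕ)
    (hP : ∀ p ∈ P, ¬ p ∣ d ∧ 2 * (4 * (p - 1)) + 3 ≤ d ∧ ∃ _ : Fact p.Prime,
      ∃ τ : ℂ →+* PadicAlgCl p, ∀ i, ∃ y : ℚ_[p], τ (α i) = algebraMap ℚ_[p] (PadicAlgCl p) y) :
    ∃ H₀ : ℕ, ∀ H : ℕ, H₀ ≤ H →
      (({F | F ∈ Box 5 d H ∧ ¬ DMLAt (N := 4) F α} :
        Set (Fin 5 → MvPolynomial (Fin 5) ℤ)).ncard : ℝ) ≤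
        2 * Real.exp (-(1 / 256 * ∑ p ∈ P, 1 / (p : ℝ))) * ((Box 5 d H).ncard : ℝ) := by
  classical
  have hred : ∀ p : ℕ, ∃ w : Fin 5 → ZMod p, p ∈ P → w ≠ 0 ∧
      ∀ F : Fin 5 → MvPolynomial (Fin 5) ℤ, (∀ i, (F i).IsHomogeneous d) →
      (∃ M, ∀ n, M ≤ n → (jac (overR (ZMod p) F) ((pt (overR (ZMod p) F))^[n] w)).det ≠ 0) →
      DMLAt (N := 4) F α := by
    intro p
    by_cases hp : p ∈ P
    · obtain ⟨-, -, h, τ, hτ⟩ := hP p hp
      obtain ⟨w, hw, hF⟩ := reduction_point (N := 4) α hα τ hτ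
      exact ⟨w, fun _ => ⟨hw, fun F h1 h2 => hF d F h1 h2⟩⟩
    · exact ⟨0, fun h => absurd h hp⟩
  choose w hw using hred
  have hδ : ∀ p ∈ P, 1 / (256 * (p : ℝ)) ≤ 1 := by
    intro p hp
    obtain ⟨-, -, h, -⟩ := hP p hp
    have h1 : (1 : ℝ) ≤ p := by exact_mod_cast h.out.one_le
    rw [div_le_one (by linarith)]
    linarith
  obtain ⟨H₀, hH₀⟩ := density_lemma 5 d (fun F => DMLAt (N := 4) F α) P
    (fun p hp => by obtain ⟨-, -, h, -⟩ := hP p hp; exact h.out) (GA 5 d w)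
    (fun p => 1 / (256 * (p : ℝ))) hδ
    (fun p hp => by
      obtain ⟨h1, h2, h, -⟩ := hP p hp
      have hset : GA 5 d w p = ({v | tab (fun i κ => v (i, κ)) ∈
          {A : Tab p 5 | GoodAt A (Projectivization.mk (ZMod p) (w p) (hw p hp).1)}} :
            Set (Idx 5 d → ZMod p)) := by
        ext v
        exact ⟨fun ⟨_, _, h'⟩ => h', fun h' => ⟨h, (hw p hp).1, h'⟩⟩
      rw [hset]
      exact card_of_tab 5 d (by norm_num) h2 h1 _ _ (hT9 p _))
    (fun v p hp hv => by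
      obtain ⟨h1, h2, h, h3⟩ := hP p hp
      obtain ⟨_, hw0, hg⟩ := hv
      apply (hw p hp).2 _ fun i => sys_isHomogeneous _ i
      rw [overR_sys]
      exact goodAt_det 5 d _ (w p) hw0 hg)
  refine ⟨H₀, fun H hH => (hH₀ H hH).trans ?_⟩
  apply mul_le_mul_of_nonneg_right _ (Nat.cast_nonneg _)
  apply mul_le_mul_of_nonneg_left _ (by norm_num)
  refine (prod_le_exp P (fun p => 1 / (256 * (p : ℝ))) hδ).trans ?_
  rw [Finset.mul_sum]
  apply le_of_eq
  congr 2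
  apply Finset.sum_congr rfl
  intro p _
  rw [one_div, one_div, one_div, mul_inv]

end Pool.Agent.H927R2.RD
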