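import Pool.Agent.H927R2.RD.Defs

set_option autoImplicit false

/-!
Stubs for the theorem: for `N ≤ 3`, almost all endomorphisms of `ℙ^N` over `ℚ` of large degree have
the Dynamical Mordell-Lang property for all rational points.
-/

namespace Pool.Agent.H927R2.RD

open MvPolynomial Pool.Agent.H936R2

open scoped LinearAlgebra.Projectivization

/-- T2 (interpolation of gradients at all `F_p`-points). -/
theorem exists_form {p : ℕ} [Fact p.Prime] (n d : ℕ) (hd : 2 * ((n - 1) * (p - 1)) + 3 ≤ d)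
    (hpd : ¬ p ∣ d) (x : Fin n → ZMod p) (hx : x ≠ 0) (w : Fin n → ZMod p) :
    ∃ G : MvPolynomial (Fin n) (ZMod p), G.IsHomogeneous d ∧
      (∀ j, eval x (pderiv j G) = w j) ∧
      ∀ y : Fin n → ZMod p, (¬ ∃ c : ZMod p, y = c • x) → ∀ j, eval y (pderiv j G) = 0 := by
  sorry

/-- T3 (equidistribution of the Jacobian table), from T2 by linear algebra. -/
theorem card_tab_preimage {p : ℕ} [Fact p.Prime] (n d : ℕ) (hn : 0 < n)
    (hd : 2 * ((n - 1) * (p - 1)) + 3 ≤ d) (hpd : ¬ p ∣ d) (E : Set (Tab p n)) :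
    Nat.card {c : Fin n → Mono n d → ZMod p // tab c ∈ E} * Nat.card (Tab p n) =
      Nat.card E * Nat.card (Fin n → Mono n d → ZMod p) := by
  sorry

/-- T3b (a good Jacobian table gives the two conditions modulo `p`). -/
theorem good_tab_conditions {p : ℕ} [Fact p.Prime] (n d : ℕ) (hpd : ¬ p ∣ d)
    (c : Fin n → Mono n d → ZMod p) (h : GoodTab (tab c)) :
    (∀ x : Fin n → ZMod p, (∀ i, eval x (sys c i) = 0) → x = 0) ∧
    ∀ x : Fin n → ZMod p, x ≠ 0 → ∀ m : ℕ, 0 < m → (pt (sys c))^[m] x = x →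
      (jac (sys c) x).det ≠ 0 := by
  sorry

/-- T4 (number of good tables). -/
theorem card_goodTab (p n : ℕ) [Fact p.Prime] (hn : 2 ≤ n) :
    (Nat.card {A : Tab p n // GoodTab A} : ℝ) =
      (Nat.card (Tab p n) : ℝ) * (1 - 1 / (p : ℝ) ^ n) ^ Nat.card (PP p n) *
        ((∑ᶠ φ : PP p n → PP p n, rr p n ^ nper φ) /
          (Nat.card (PP p n) : ℝ) ^ Nat.card (PP p n)) := by
  sorry

/-- T5 (random maps, expectation bound). -/
theorem random_map_two {X : Type} [Fintype X] [DecidableEq X] [Nonempty X] (r : ℝ) (hr : 0 < r)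
    (hr1 : r ≤ 1) (J : ℕ) (hJ : Fintype.card X ≤ J ^ 2) :
    r ^ (2 * J + 1) * (Fintype.card X : ℝ) ^ Fintype.card X ≤ ∑ φ : X → X, r ^ nper φ := by
  sorry

/-- T6 (random maps, few periodic points; by counting forests). -/
theorem random_map_three {X : Type} [Fintype X] [DecidableEq X] [Nonempty X] (J : ℕ) :
    (1 - ∏ i ∈ Finset.range (J + 1), (1 - (i : ℝ) / Fintype.card X)) *
        (Fintype.card X : ℝ) ^ Fintype.card X ≤
      ((Finset.univ.filter fun φ : X → X => nper φ ≤ J).card : ℝ) := by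
  sorry

/-- T7a (numerics for the plane). -/
theorem const_two (p : ℕ) (hp : 2 ≤ p) :
    (1 / 4 : ℝ) ^ 30 ≤ (1 - 1 / (p : ℝ) ^ 3) ^ (p ^ 2 + p + 1) * rr p 3 ^ (2 * (p + 1) + 1) := by
  sorry

/-- T7b (numerics for 3-space). -/
theorem const_three (p : ℕ) (hp : 2 ≤ p) :
    (1 / 4 : ℝ) ^ 10 / p ≤ (1 - 1 / (p : ℝ) ^ 4) ^ (p ^ 3 + p ^ 2 + p + 1) * rr p 4 ^ p *
      (1 - ∏ i ∈ Finset.range (p + 1), (1 - (i : ℝ) / (p ^ 3 + p ^ 2 + p + 1 : ℕ))) := by
  sorry

/-- T7c (number of points). -/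
theorem card_PP (p n : ℕ) [Fact p.Prime] (hn : 0 < n) :
    Nat.card (PP p n) = ∑ i ∈ Finset.range n, p ^ i := by
  sorry

/-- T8a (many primes not dividing `d`). -/
theorem many_primes : ∃ c > (0 : ℝ), ∃ C : ℝ, ∀ d : ℕ, 2 ≤ d →
    c * d / Real.log d - C ≤
      ((Finset.range (d + 1)).filter fun p => p.Prime ∧ ¬ p ∣ d ∧ 2 * (2 * (p - 1)) + 3 ≤ d).card := by
  sorry

/-- T8b (divergence of the reciprocals over primes not dividing `d`). -/
theorem sum_recip (M : ℝ) : ∃ d₀ : ℕ, ∀ d : ℕ, d₀ ≤ d →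
    M ≤ ∑ p ∈ (Finset.range (d + 1)).filter
      (fun p => p.Prime ∧ ¬ p ∣ d ∧ 2 * (3 * (p - 1)) + 3 ≤ d), 1 / (p : ℝ) := by
  sorry

end Pool.Agent.H927R2.RD
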