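import Pool.Agent.H927R2.RD.Defs2

set_option autoImplicit false

/-!
Stubs, part 2: one point in `ℙ^4`, and points over finitely generated fields.
-/

namespace Pool.Agent.H927R2.RD

open Pool.Agent.H936R2

open scoped LinearAlgebra.Projectivization

/-- T9 (tables in `ℙ^4` that are good at a given point). -/
theorem card_goodAt (p : ℕ) [Fact p.Prime] (x : PP p 5) :
    1 / (256 * (p : ℝ)) * (Nat.card (Tab p 5) : ℝ) ≤ (Nat.card {A : Tab p 5 // GoodAt A x} : ℝ) := by
  sorry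

/-- T10a (ideals of bounded norm: the harmonic sum, and the product over primes). -/
theorem sum_ideals (K : Type) [Field K] [NumberField K] : ∃ c > (0 : ℝ), ∀ x : ℕ, 2 ≤ x →
    c * Real.log x ≤ ∑ᶠ I ∈ {I : Ideal (NumberField.RingOfIntegers K) |
      1 ≤ Ideal.absNorm I ∧ Ideal.absNorm I ≤ x}, 1 / (Ideal.absNorm I : ℝ) := by
  sorry

/-- T10b (from ideals to primes of degree one). -/
theorem recip_deg_one (K : Type) [Field K] [NumberField K] [DecidablePred (DegOne K)]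
    (h : ∃ c > (0 : ℝ), ∀ x : ℕ, 2 ≤ x →
      c * Real.log x ≤ ∑ᶠ I ∈ {I : Ideal (NumberField.RingOfIntegers K) |
        1 ≤ Ideal.absNorm I ∧ Ideal.absNorm I ≤ x}, 1 / (Ideal.absNorm I : ℝ)) :
    ∃ c > (0 : ℝ), ∃ C : ℝ, ∀ x : ℕ, 2 ≤ x →
      c * Real.log (Real.log x) - C ≤
        ∑ p ∈ (Finset.range (x + 1)).filter (DegOne K), 1 / (p : ℝ) := by
  sorry

/-- T11 (primes dividing `d` do not matter). -/
theorem sum_recip_of_rate (S : ℕ → Prop) [DecidablePred S] (hS : ∀ p, S p → p.Prime)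
    (c C : ℝ) (hc : 0 < c) (h : ∀ x : ℕ, 2 ≤ x → c * Real.log (Real.log x) - C ≤
      ∑ p ∈ (Finset.range (x + 1)).filter S, 1 / (p : ℝ)) (M : ℝ) :
    ∃ d₀ : ℕ, ∀ d : ℕ, d₀ ≤ d →
      M ≤ ∑ p ∈ (Finset.range (d + 1)).filter (fun p => S p ∧ ¬ p ∣ d ∧ 8 * p ≤ d),
        1 / (p : ℝ) := by
  sorry

/-- T12 (a simple root modulo the primes of degree one of a number field). -/
theorem exists_simple_root (f u v : Polynomial ℤ) (h : ℤ) (hh : h ≠ 0) (hdeg : 0 < f.natDegree)
    (hb : u * f + v * Polynomial.derivative f = Polynomial.C h) :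
    ∃ (K : Type) (_ : Field K) (_ : NumberField K) (S : Finset ℕ), ∀ p : ℕ, p ∉ S →
      DegOne K p → ∃ a : ℤ, (p : ℤ) ∣ f.eval a ∧ ¬ (p : ℤ) ∣ (Polynomial.derivative f).eval a := by
  sorry

/-- T13 (algebraically independent `p`-adic integers with given residues). -/
theorem exists_indep (p : ℕ) [Fact p.Prime] (r : ℕ) (a : Fin r → ℤ) :
    ∃ t : Fin r → ℤ_[p], AlgebraicIndependent ℚ (fun i => (t i : ℚ_[p])) ∧
      ∀ i, (PadicInt.toZMod (t i) : ZMod p) = (a i : ZMod p) := by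
  sorry

/-- T14 (presentation of a finitely generated field). -/
theorem exists_presentation (s : Finset ℂ) :
    ∃ (r : ℕ) (t : Fin r → ℂ) (θ : ℂ) (P u v : Polynomial (MvPolynomial (Fin r) ℤ))
      (g h : MvPolynomial (Fin r) ℤ), AlgebraicIndependent ℚ t ∧ g ≠ 0 ∧ h ≠ 0 ∧
      IsIntegral (IntermediateField.adjoin ℚ (Set.range t)) θ ∧
      P.map (toAdj t) = Polynomial.C (toAdj t g) *
        minpoly (IntermediateField.adjoin ℚ (Set.range t)) θ ∧
      u * P + v * Polynomial.derivative P = Polynomial.C h ∧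
      ∀ x ∈ s, x ∈ IntermediateField.adjoin (IntermediateField.adjoin ℚ (Set.range t)) {θ} := by
  sorry

/-- T15 (embedding into `ℚ_p`, given T12, T13, T14). -/
theorem exists_padic_embedding (s : Finset ℂ) :
    ∃ (K : Type) (_ : Field K) (_ : NumberField K) (S : Finset ℕ), ∀ (p : ℕ) [Fact p.Prime],
      p ∉ S → DegOne K p → Nonempty (Subfield.closure (s : Set ℂ) →+* ℚ_[p]) := by
  sorry

/-- T16 (extension of embeddings of countable fields to `ℂ`). -/
theorem extend_embedding (p : ℕ) [Fact p.Prime] (L : Subfield ℂ) (hL : Countable L)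
    (φ : L →+* ℚ_[p]) :
    ∃ τ : ℂ →+* PadicAlgCl p, ∀ x : L, τ x = algebraMap ℚ_[p] (PadicAlgCl p) (φ x) := by
  sorry

end Pool.Agent.H927R2.RD
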