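import Pool.Agent.H927R2.RD.T3b

set_option autoImplicit false

/-! T2: interpolation of gradients at all points over `F_p` -/

namespace Pool.Agent.H927R2.RD

open MvPolynomial Pool.Agent.H936R2

/-- a form which is `1` at `u` and vanishes at all points not proportional to `u` -/
theorem T2_L {p : ℕ} [Fact p.Prime] (n : ℕ) (u : Fin n → ZMod p) (i : Fin n) (hu : u i = 1) :
    ∃ L : MvPolynomial (Fin n) (ZMod p), L.IsHomogeneous ((n - 1) * (p - 1) + 1) ∧
      eval u L = 1 ∧ ∀ y : Fin n → ZMod p, (¬ ∃ c : ZMod p, y = c • u) → eval y L = 0 := by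
  classical
  refine ⟨X i * ∏ j ∈ Finset.univ.erase i, ∏ c ∈ Finset.univ.erase (u j),
    ((X j - C c * X i) * C ((u j - c)⁻¹)), ?_, ?_, ?_⟩
  · have h1 : (∏ j ∈ Finset.univ.erase i, ∏ c ∈ Finset.univ.erase (u j),
        ((X j - C c * X i) * C ((u j - c)⁻¹)) : MvPolynomial (Fin n) (ZMod p)).IsHomogeneous
        (∑ j ∈ Finset.univ.erase i, ∑ c ∈ Finset.univ.erase (u j), (1 + 0)) := by
      refine IsHomogeneous.prod _ _ _ fun j _ => IsHomogeneous.prod _ _ _ fun c _ => ?_
      exact ((isHomogeneous_X _ j).sub (isHomogeneous_C_mul_X c i)).mul (isHomogeneous_C _ _)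
    have h2 : (∑ j ∈ Finset.univ.erase i, ∑ c ∈ Finset.univ.erase (u j), (1 + 0)) =
        (n - 1) * (p - 1) := by
      have h3 : ∀ j ∈ Finset.univ.erase i, ∑ c ∈ Finset.univ.erase (u j), (1 + 0) = p - 1 := by
        intro j _
        rw [Finset.sum_const, Finset.card_erase_of_mem (Finset.mem_univ _), Finset.card_univ,
          ZMod.card]
        simp
      rw [Finset.sum_congr rfl h3, Finset.sum_const,
        Finset.card_erase_of_mem (Finset.mem_univ _), Finset.card_univ, Fintype.card_fin,
        smul_eq_mul]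
    rw [h2] at h1
    have h4 := (isHomogeneous_X (ZMod p) i).mul h1
    rw [add_comm] at h4
    exact h4
  · rw [map_mul, map_prod, eval_X, hu, one_mul]
    apply Finset.prod_eq_one
    intro j _
    rw [map_prod]
    apply Finset.prod_eq_one
    intro c hc
    rw [Finset.mem_erase] at hc
    rw [map_mul, map_sub, map_mul, eval_X, eval_X, eval_C, eval_C, hu, mul_one]
    exact mul_inv_cancel₀ (sub_ne_zero.2 hc.1.symm)
  · intro y hy
    rw [map_mul, eval_X]
    by_cases hyi : y i = 0
    · rw [hyi, zero_mul]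
    · obtain ⟨j, hj⟩ : ∃ j, y j ≠ y i * u j := by
        by_contra hcon
        push Not at hcon
        exact hy ⟨y i, funext fun j => hcon j⟩
      have hji : j ≠ i := by
        intro h
        apply hj
        rw [h, hu, mul_one]
      rw [map_prod, Finset.prod_eq_zero (Finset.mem_erase.2 ⟨hji, Finset.mem_univ _⟩), mul_zero]
      rw [map_prod]
      apply Finset.prod_eq_zero (i := y j / y i)
      · rw [Finset.mem_erase]
        refine ⟨fun h => hj ?_, Finset.mem_univ _⟩
        rw [← h]
        field_simp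
      · rw [map_mul, map_sub, map_mul, eval_X, eval_X, eval_C]
        have : y j - y j / y i * y i = 0 := by
          field_simp
          ring
        rw [this, zero_mul]

/-- T2 (interpolation of gradients at all `F_p`-points). -/
theorem exists_form {p : ℕ} [Fact p.Prime] (n d : ℕ) (hd : 2 * ((n - 1) * (p - 1)) + 3 ≤ d)
    (hpd : ¬ p ∣ d) (x : Fin n → ZMod p) (hx : x ≠ 0) (w : Fin n → ZMod p) :
    ∃ G : MvPolynomial (Fin n) (ZMod p), G.IsHomogeneous d ∧
      (∀ j, eval x (pderiv j G) = w j) ∧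
      ∀ y : Fin n → ZMod p, (¬ ∃ c : ZMod p, y = c • x) → ∀ j, eval y (pderiv j G) = 0 := by
  classical
  have hd0 : (d : ZMod p) ≠ 0 := by
    intro h0
    exact hpd ((ZMod.natCast_eq_zero_iff d p).1 h0)
  obtain ⟨i, hi⟩ := Function.ne_iff.1 hx
  rw [Pi.zero_apply] at hi
  set u : Fin n → ZMod p := (x i)⁻¹ • x with hu
  have hui : u i = 1 := by
    rw [hu, Pi.smul_apply, smul_eq_mul, inv_mul_cancel₀ hi]
  have hxu : x = x i • u := by
    rw [hu, smul_smul, mul_inv_cancel₀ hi, one_smul]
  obtain ⟨L, hLh, hLu, hLy⟩ := T2_L n u i hui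
  set e : ℕ := (n - 1) * (p - 1) + 1 with he
  obtain ⟨k, hk⟩ : ∃ k, d = e + e + (k + 1) := ⟨d - (e + e) - 1, by omega⟩
  set w' : Fin n → ZMod p := fun j => w j / x i ^ (d - 1) with hw'
  set a : ZMod p := (∑ j, w' j * u j) / d with ha
  obtain ⟨b, hb⟩ : ∃ b : Fin n → ZMod p, ∀ j, b j = w' j - 2 * a * eval u (pderiv j L) :=
    ⟨_, fun _ => rfl⟩
  set H : MvPolynomial (Fin n) (ZMod p) := C a * X i ^ (k + 1) +
    ∑ l ∈ Finset.univ.erase i, C (b l) * X i ^ k * (X l - C (u l) * X i) with hH
  have hHh : H.IsHomogeneous (k + 1) := by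
    refine (isHomogeneous_C_mul_X_pow a i (k + 1)).add (IsHomogeneous.sum _ _ _ fun l _ => ?_)
    exact (isHomogeneous_C_mul_X_pow (b l) i k).mul
      ((isHomogeneous_X _ l).sub (isHomogeneous_C_mul_X (u l) i))
  have hHu : eval u H = a := by
    rw [hH, map_add, map_mul, map_pow, eval_C, eval_X, hui, one_pow, mul_one, map_sum,
      Finset.sum_eq_zero, add_zero]
    intro l _
    have h1 : eval u (X l - C (u l) * X i : MvPolynomial (Fin n) (ZMod p)) = 0 := by
      rw [map_sub, map_mul, eval_C, eval_X, eval_X, hui, mul_one, sub_self]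
    rw [map_mul, h1, mul_zero]
  have hHj : ∀ j, j ≠ i → eval u (pderiv j H) = b j := by
    intro j hj
    have hXp : ∀ m : ℕ, pderiv j (X i ^ m : MvPolynomial (Fin n) (ZMod p)) = 0 := by
      intro m
      rw [Derivation.leibniz_pow, pderiv_X_of_ne (Ne.symm hj), smul_zero, smul_zero]
    have hX1 : pderiv j (X i : MvPolynomial (Fin n) (ZMod p)) = 0 := pderiv_X_of_ne (Ne.symm hj)
    rw [hH, map_add, pderiv_C_mul, hXp, mul_zero, zero_add, map_sum, map_sum]
    have hl : ∀ l ∈ Finset.univ.erase i, eval u (pderiv j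
        (C (b l) * X i ^ k * (X l - C (u l) * X i) : MvPolynomial (Fin n) (ZMod p))) =
        if l = j then b l else 0 := by
      intro l _
      rw [pderiv_mul, pderiv_C_mul, hXp, mul_zero, zero_mul, zero_add, map_sub, pderiv_C_mul, hX1,
        mul_zero, sub_zero, map_mul, map_mul, map_pow, eval_C, eval_X, hui, one_pow, mul_one]
      by_cases hlj : l = j
      · rw [if_pos hlj, hlj, pderiv_X_self, map_one, mul_one]
      · rw [if_neg hlj, pderiv_X_of_ne hlj, map_zero, mul_zero]
    rw [Finset.sum_congr rfl hl, Finset.sum_ite_eq' , if_pos]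
    exact Finset.mem_erase.2 ⟨hj, Finset.mem_univ _⟩
  set G : MvPolynomial (Fin n) (ZMod p) := L * L * H with hG
  have hGh : G.IsHomogeneous d := by
    rw [hk]
    exact (hLh.mul hLh).mul hHh
  have hGd : ∀ (y : Fin n → ZMod p) (j : Fin n), eval y (pderiv j G) =
      2 * eval y L * eval y (pderiv j L) * eval y H +
        eval y L * eval y L * eval y (pderiv j H) := by
    intro y j
    rw [hG, pderiv_mul, pderiv_mul]
    simp only [map_add, map_mul]
    ring
  have hGj : ∀ j, j ≠ i → eval u (pderiv j G) = w' j := by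
    intro j hj
    rw [hGd, hLu, hHu, hHj j hj, hb]
    ring
  have hGu : eval u G = a := by
    rw [hG, map_mul, map_mul, hLu, hHu]
    ring
  have hGi : eval u (pderiv i G) = w' i := by
    have h1 := T3b_euler hGh u
    rw [hGu, ← Finset.add_sum_erase _ _ (Finset.mem_univ i), hui, mul_one] at h1
    have h2 : ∑ j ∈ Finset.univ.erase i, eval u (pderiv j G) * u j =
        ∑ j ∈ Finset.univ.erase i, w' j * u j :=
      Finset.sum_congr rfl fun j hj => by rw [hGj j (Finset.mem_erase.1 hj).1]
    have h3 : (d : ZMod p) * a = ∑ j, w' j * u j := by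
      rw [ha]
      field_simp
    rw [h2, h3, ← Finset.add_sum_erase _ _ (Finset.mem_univ i), hui, mul_one] at h1
    exact add_right_cancel h1
  refine ⟨G, hGh, fun j => ?_, fun y hy j => ?_⟩
  · have h1 : eval u (pderiv j G) = w' j := by
      by_cases hj : j = i
      · rw [hj]; exact hGi
      · exact hGj j hj
    rw [hxu, T3b_eval_smul hGh.pderiv, h1, hw']
    have h2 : x i ^ (d - 1) ≠ 0 := pow_ne_zero _ hi
    field_simp
  · have h1 : eval y L = 0 := by
      apply hLy
      rintro ⟨c, hc⟩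
      exact hy ⟨c * (x i)⁻¹, by rw [hc, hu, smul_smul]⟩
    rw [hGd, h1]
    ring

end Pool.Agent.H927R2.RD
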